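import Pool.Agent.Lib.MP_4ffbf9_nt.MB.Defs

/-! Classes modulo the doubles. -/

set_option autoImplicit false

namespace Pool.Agent.Lib.MP_4ffbf9_nt.MB

open Finset Polynomial

theorem stCls : StCls := by
  intro ι _ m N ℓ hm hN hD
  let G : Submodule ℤ (ι → ℚ) :=
    { carrier := {x | InG ℓ x}
      add_mem' := InG.add
      zero_mem' := InG.zero ℓ
      smul_mem' := fun n x hx => by simpa [Int.cast_smul_eq_zsmul] using InG.zsmul hx n }
  let φ : (ι → ℤ) →ₗ[ℤ] ι → ℚ := (LinearMap.toSpanSingleton ℤ ℚ (N : ℚ)⁻¹).compLeft ι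
  have h0 : (N : ℚ) ≠ 0 := Nat.cast_ne_zero.2 (by omega)
  have h1 : G ≤ LinearMap.range φ := fun x hx => by
    choose z hz using hD x hx
    exact ⟨z, funext fun i => by simp [φ, ← hz, mul_comm (N : ℚ), h0]⟩
  have : Module.Finite ℤ G := .of_injective _ (Submodule.inclusion_injective h1)
  let b := Module.finBasis ℤ G
  have h2 : Module.finrank ℤ G ≤ m := by
    have h := ((LinearIndependent.iff_fractionRing ℤ ℚ).1
      (b.linearIndependent.map' G.subtype G.ker_subtype)).fintype_card_le_finrank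
    rw [Fintype.card_fin, Module.finrank_fintype_fun_eq_card] at h
    exact h.trans hm
  obtain ⟨e⟩ : Nonempty ((Fin (Module.finrank ℤ G) → ZMod 2) ↪ Fin (2 ^ m)) :=
    Function.Embedding.nonempty_of_card_le (by simpa using Nat.pow_le_pow_right two_pos h2)
  classical
  refine ⟨fun x => e fun i => if h : x ∈ G then b.repr ⟨x, h⟩ i else 0, fun x x' hx hx' h => ?_⟩
  have h3 : ∀ i, ∃ k : ℤ, b.repr ⟨x, hx⟩ i - b.repr ⟨x', hx'⟩ i = 2 * k := fun i => by
    have h4 := congrFun (e.injective h) i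
    rw [dif_pos (show x ∈ G from hx), dif_pos (show x' ∈ G from hx')] at h4
    exact (ZMod.intCast_eq_intCast_iff_dvd_sub _ _ 2).1 h4.symm
  choose k hk using h3
  have h5 : (⟨x, hx⟩ : G) - ⟨x', hx'⟩ = (2 : ℤ) • b.equivFun.symm k := b.equivFun.injective (by
    rw [map_sub, map_zsmul, LinearEquiv.apply_symm_apply]
    exact funext hk)
  convert (show InG ℓ _ from (b.equivFun.symm k).2) with i
  have h6 := congrFun (congrArg Subtype.val h5) i
  simp only [Submodule.coe_sub, Submodule.coe_smul, Pi.sub_apply, Pi.smul_apply] at h6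
  rw [h6, zsmul_eq_mul, Int.cast_ofNat, mul_div_cancel_left₀ _ two_ne_zero]

end Pool.Agent.Lib.MP_4ffbf9_nt.MB
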