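import Pool.Agent.Lib.MP_4ffbf9_nt.MB.Defs

/-! Restriction to the support. -/

set_option autoImplicit false

namespace Pool.Agent.Lib.MP_4ffbf9_nt.MB

open Finset Polynomial

theorem stCoreS (hC : StCore) : StCoreS := by
  intro m K hK
  obtain ⟨c, hc, h⟩ := hC m K hK
  refine ⟨c, hc, fun ι _ _ u v ℓ a β e σ Nn B W Ω hm hn hσ hi hG he heN hN hB hW hWB hP ha hs hb =>
    ?_⟩
  have key : ∀ x : ι → ℚ, (∀ i, i ∉ σ → x i = 0) →
      lin (fun i : σ => ℓ i) (fun i : σ => x i) = lin ℓ x := fun x hx => by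
    rw [lin, lin, sum_coe_sort σ fun i => (x i : ℝ) * ℓ i]
    exact sum_subset (subset_univ _) fun i _ k => by rw [hx i k, Rat.cast_zero, zero_mul]
  have hβ := key β fun i k => by_contra fun k' => k ((hσ i).2 k')
  have hc : (Nn.subtype (· ∈ σ)).card = Nn.card := by
    rw [card_subtype, filter_true_of_mem hN]
  rw [← hβ]
  refine h σ (fun i => u i) (fun i => v i) _ (fun i => a i) _ ⟨e, he⟩ (Nn.subtype (· ∈ σ)) B W Ω
    ((Fintype.card_subtype_le _).trans hm)
    ⟨fun i => hn.hu i, fun i => hn.hv i, fun i => hn.hl i, fun i => hn.ha i, fun i => hn.one i⟩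
    (fun x hx => ?_) (hG.imp fun q hq => by rwa [hβ]) ((hσ e).1 he) (by simpa using heN) hB
    (by rwa [hc]) hWB (le_of_eq_of_le ?_ hP) (fun i => ha i i.2)
    (fun i k => hs i (mem_subtype.1 k)) fun i k => hb i i.2 fun k' => k (Subtype.ext k')
  · have h1 := key (fun i => if k : i ∈ σ then x ⟨i, k⟩ else 0) fun i k => dif_neg k
    simp only [coe_mem, dite_true, Subtype.coe_eta] at h1
    have h2 := hi _ (fun i k => dif_neg fun k' => (hσ i).1 k' k) (h1.symm.trans hx)
    exact funext fun i => (dif_pos i.2).symm.trans (congrFun h2 i)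
  · refine prod_bij (fun i _ => i.1) (fun i k => ?_) (fun i _ j _ => Subtype.ext)
      (fun i k => ⟨⟨i, (mem_sdiff.1 k).1⟩, ?_, rfl⟩) fun _ _ => rfl
    · simpa using k
    · simpa using (mem_sdiff.1 k).2

end Pool.Agent.Lib.MP_4ffbf9_nt.MB
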