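import Pool.Agent.Lib.MP_4ffbf9_nt.MB.Defs

/-! Denominators and the gap. -/

set_option autoImplicit false

namespace Pool.Agent.Lib.MP_4ffbf9_nt.MB

open Finset Polynomial

namespace Dn

variable {ι : Type} [Fintype ι] {u v : ι → ℕ} {ℓ a : ι → ℝ}

theorem mult (ℓ : ι → ℝ) (x : ι → ℚ) : ∃ (k : ℕ) (n : ι → ℤ), 0 < k ∧
    (∀ i, (n i : ℝ) = k * x i) ∧ Real.exp (lin ℓ fun i => (n i : ℚ)) = Real.exp (lin ℓ x) ^ k := by
  choose c hc using fun i => dvd_prod_of_mem (fun i => (x i).den) (mem_univ i)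
  have e : ∀ i, ((c i * (x i).num : ℤ) : ℚ) = (∏ i, (x i).den : ℕ) * x i := fun i => by
    rw [hc i]
    push_cast
    rw [mul_right_comm, Rat.den_mul_eq_num, mul_comm]
  refine ⟨∏ i, (x i).den, fun i => c i * (x i).num, prod_pos fun i _ => (x i).den_pos,
    fun i => by exact_mod_cast e i, ?_⟩
  rw [← Real.exp_nat_mul, ← Rat.cast_natCast, ← lin_smul]
  exact congrArg (fun y => Real.exp (lin ℓ y)) (funext e)

theorem int (h : Num u v ℓ a) {n : ι → ℤ} {F : ι → ℕ} (hF : ∀ i, |n i| ≤ F i) :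
    ∃ z : ℕ, (∏ i, ((u i : ℝ) * v i) ^ F i) * Real.exp (lin ℓ fun i => (n i : ℚ)) = z := by
  refine ⟨∏ i, u i ^ (F i + n i).toNat * v i ^ (F i - n i).toNat, ?_⟩
  rw [h.exp_lin_int, ← prod_mul_distrib, Nat.cast_prod]
  refine prod_congr rfl fun i _ => ?_
  have hu : (u i : ℝ) ≠ 0 := Nat.cast_ne_zero.2 (h.hu i).ne'
  have hv : (v i : ℝ) ≠ 0 := Nat.cast_ne_zero.2 (h.hv i).ne'
  have := abs_le.1 (hF i)
  push_cast
  rw [← zpow_natCast (u i : ℝ), ← zpow_natCast (v i : ℝ), Int.toNat_of_nonneg (by omega),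
    Int.toNat_of_nonneg (by omega), zpow_add₀ hu, zpow_sub₀ hv, div_zpow, mul_pow, zpow_natCast,
    zpow_natCast]
  ring

theorem two (h : Num u v ℓ a) {x : ι → ℚ} {q : ℚ} (hq : Real.exp (lin ℓ x) = q) (h2 : q.den ≠ 1) :
    Real.log 2 ≤ ∑ i, |(x i : ℝ)| * a i := by
  obtain ⟨k, n, k0, hn, e⟩ := mult ℓ x
  obtain ⟨z, hz⟩ := int h (n := n) (F := fun i => (n i).natAbs) fun i => (Int.natCast_natAbs _).ge
  have D0 : 0 < ∏ i, (u i * v i) ^ (n i).natAbs :=
    prod_pos fun i _ => pow_pos (mul_pos (h.hu i) (h.hv i)) _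
  have e1 : q ^ k = Rat.divInt z (∏ i, (u i * v i) ^ (n i).natAbs : ℕ) := by
    rw [Rat.divInt_eq_div, eq_div_iff (by exact_mod_cast D0.ne'), mul_comm]
    rw [e, hq] at hz
    exact_mod_cast hz
  have e2 := Rat.den_dvd z (∏ i, (u i * v i) ^ (n i).natAbs : ℕ)
  rw [← e1, Rat.den_pow, Int.natCast_dvd_natCast] at e2
  have e3 := (Nat.pow_le_pow_left (show 2 ≤ q.den by have := q.den_pos; omega) k).trans
    (Nat.le_of_dvd D0 e2)
  have e4 : (2 : ℝ) ^ k ≤ ∏ i, ((u i : ℝ) * v i) ^ (n i).natAbs := by exact_mod_cast e3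
  have p : ∀ i, 0 < (u i : ℝ) * v i := fun i => by exact_mod_cast mul_pos (h.hu i) (h.hv i)
  have e5 := Real.log_le_log (by positivity) e4
  rw [Real.log_pow, Real.log_prod fun i _ => (pow_pos (p i) _).ne'] at e5
  refine le_of_mul_le_mul_left (e5.trans ?_) (Nat.cast_pos.2 k0)
  rw [mul_sum]
  refine sum_le_sum fun i _ => ?_
  rw [Real.log_pow, Nat.cast_natAbs, Int.cast_abs, hn, abs_mul, Nat.abs_cast, mul_assoc]
  gcongr
  exact h.ha i

end Dn

theorem stDen : StDen := by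
  refine fun ι _ u v ℓ a h => ⟨fun x E ⟨q, hq⟩ hE => ?_, fun hI x ⟨q, hq⟩ h0 => ?_⟩
  · obtain ⟨k, n, k0, hn, e⟩ := Dn.mult ℓ x
    obtain ⟨z, hz⟩ := Dn.int h (n := n) (F := fun i => E i * k) fun i => by
      have : |(n i : ℝ)| ≤ E i * k := by
        rw [hn, abs_mul, Nat.abs_cast, mul_comm]
        gcongr
        exact hE i
      exact_mod_cast this
    simp only [pow_mul] at hz
    rw [prod_pow, e, hq, ← mul_pow] at hz
    obtain ⟨s, hs⟩ : ∃ s : ℚ, (∏ i, ((u i : ℝ) * v i) ^ E i) * q = s :=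
      ⟨(∏ i, ((u i : ℚ) * v i) ^ E i) * q, by push_cast; rfl⟩
    have e1 : s ^ k = z := by
      rw [hs] at hz
      exact_mod_cast hz
    have e2 := congrArg Rat.den e1
    rw [Rat.den_pow, Rat.den_natCast, Nat.pow_eq_one] at e2
    refine ⟨s.num, ?_⟩
    rw [hq, hs, ← Rat.cast_intCast, (Rat.den_eq_one_iff s).1 (e2.resolve_right k0.ne')]
  · by_cases h1 : q.den = 1
    · have q0 : 0 < q := by exact_mod_cast hq ▸ Real.exp_pos (lin ℓ x)
      have := Dn.two h (x := -x) (q := q⁻¹) (by rw [lin_neg, Real.exp_neg, hq, Rat.cast_inv])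
        fun h2 => h0 (hI x ?_)
      · simpa using this
      rw [Rat.den_inv_of_ne_zero q0.ne'] at h2
      have h3 : q.num = 1 := by
        have := Rat.num_pos.2 q0
        omega
      rw [← Real.exp_eq_one_iff, hq, ← (Rat.den_eq_one_iff q).1 h1, h3]
      simp
    · exact Dn.two h hq h1

end Pool.Agent.Lib.MP_4ffbf9_nt.MB
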