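import Pool.Agent.Lib.MP_4ffbf9_nt.MB.Defs

/-! The descent. -/

set_option autoImplicit false

namespace Pool.Agent.Lib.MP_4ffbf9_nt.MB

open Finset Polynomial

namespace Desc

variable {ι κ : Type} [Fintype ι] {m N : ℕ} {u v : ι → ℕ} {ℓ a : ι → ℝ} {β : ι → ℚ} {e : ι}

/-- the size of the products of binomial coefficients -/
theorem phi (hC : Ctx m N u v ℓ a β e) {H B T g : ℝ} {T₀ : ℕ} (hB : 1 ≤ B) (hH : H ≤ T₀)
    (hT : T₀ ≤ T) (hg : m * ((Real.log ((N : ℝ) ^ 2 * B) + 2) * T) ≤ g)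
    (hb : ∀ i, i ≠ e → |(β e : ℝ)| / a i + |(β i : ℝ)| / a e ≤ B) {x : ι → ℚ}
    (hx : ∀ i, |(x i : ℝ)| * a i ≤ H) {d : ι → ℕ} (hd : ∀ i, d i ≤ T₀) :
    |∏ i, bin (yy N β e x i) (d i)| ≤ Real.exp g := by
  have hN : (1 : ℝ) ≤ N := Nat.one_le_cast.2 hC.one
  have h1 : (1 : ℝ) ≤ (N : ℝ) ^ 2 * B := one_le_mul_of_one_le_of_one_le (one_le_pow₀ hN) hB
  have hL := Real.log_nonneg h1
  have hT0 : (0 : ℝ) ≤ T₀ := Nat.cast_nonneg _
  have hH0 : 0 ≤ H := (mul_nonneg (abs_nonneg _) (hC.num.pos e).le).trans (hx e)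
  have h2 : ∀ i, |yy N β e x i| ≤ (N : ℝ) ^ 2 * B * T₀ := fun i => by
    by_cases hi : i = e
    · rw [hi, yy, sub_self, mul_zero, abs_zero]
      positivity
    rw [yy, abs_mul, abs_of_nonneg (by positivity : (0 : ℝ) ≤ (N : ℝ) ^ 2), mul_assoc]
    refine mul_le_mul_of_nonneg_left ((abs_sub _ _).trans ?_) (by positivity)
    have k1 : ∀ j, |(x j : ℝ)| ≤ T₀ / a j := fun j =>
      (le_div_iff₀ (hC.num.pos j)).2 ((hx j).trans hH)
    rw [abs_mul, abs_mul]
    refine (add_le_add (mul_le_mul_of_nonneg_left (k1 i) (abs_nonneg _))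
      (mul_le_mul_of_nonneg_left (k1 e) (abs_nonneg _))).trans
      (le_of_eq_of_le ?_ (mul_le_mul_of_nonneg_right (hb i hi) hT0))
    ring
  have h3 : ∀ i, |bin (yy N β e x i) (d i)| ≤
      Real.exp ((Real.log ((N : ℝ) ^ 2 * B) + 1 + 1) * T₀) := fun i => by
    refine bin_size _ _ _ _ (hd i) (by linarith) ?_
    rw [Real.exp_add, Real.exp_log (by linarith)]
    have k1 : (2 : ℝ) ≤ Real.exp 1 := by linarith [Real.add_one_le_exp (1 : ℝ)]
    have k2 := mul_le_mul_of_nonneg_right h1 hT0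
    have k3 := mul_le_mul_of_nonneg_left k1 (mul_nonneg (zero_le_one.trans h1) hT0)
    linarith [h2 i]
  rw [abs_prod]
  refine (prod_le_prod (fun i _ => abs_nonneg _) fun i _ => h3 i).trans ?_
  rw [prod_const, ← Real.exp_nat_mul, card_univ]
  refine Real.exp_le_exp.2 (le_trans ?_ hg)
  refine mul_le_mul (Nat.cast_le.2 hC.card) ?_ (by positivity) (Nat.cast_nonneg _)
  exact mul_le_mul (by linarith) hT hT0 (by linarith)

/-- the end of the descent -/
theorem fin (hD : StDen) (hC : Ctx m N u v ℓ a β e) (hI : Ind ℓ) {x : ℝ} {P : Finset κ}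
    {lam : κ → ι → ℚ} {p : κ → ℤ} {S : ℕ} {D : ι → ℕ} (h0 : P.Nonempty) (hP : Pts ℓ a x P lam)
    (hp : ∀ k ∈ P, p k ≠ 0) (hV : VanS ℓ N β e P lam p S D) (hS : 1 ≤ S)
    (hx : m * x < Real.log 2) : False := by
  obtain ⟨k₀, hk₀⟩ := h0
  have hx0 : 0 ≤ x := (mul_nonneg (abs_nonneg _) (hC.num.pos e).le).trans (hP.box k₀ hk₀ e)
  have h1 : P = {k₀} := eq_singleton_iff_unique_mem.2 ⟨hk₀, fun k hk => by
    refine hP.inj k hk k₀ hk₀ (by_contra fun h => ?_)
    have h2 := (hD ι u v ℓ a hC.num).2 hI _ ((hP.mem k hk).sub (hP.mem k₀ hk₀)) (sub_ne_zero.2 h)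
    refine (h2.trans ((sum_le_card_nsmul _ _ x fun i _ => ?_).trans ?_)).not_gt hx
    · rw [Pi.sub_apply, Rat.cast_sub]
      exact hP.diam k hk k₀ hk₀ i
    · rw [nsmul_eq_mul, card_univ]
      exact mul_le_mul_of_nonneg_right (Nat.cast_le.2 hC.card) hx0⟩
  have h2 := hV 0 hS (fun _ => 1) fun i => by simp
  rw [h1, sum_singleton] at h2
  simp only [eval_one, prod_const_one, mul_one, mul_eq_zero, Int.cast_eq_zero,
    Real.exp_ne_zero, or_false] at h2
  exact hp k₀ hk₀ h2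

theorem one_le (hC : Ctx m N u v ℓ a β e) {x : ι → ℚ} (hx : InG ℓ x) {i : ι} (h : x i ≠ 0) :
    1 ≤ N * |(x i : ℝ)| := by
  obtain ⟨z, hz⟩ := hC.den x hx i
  have h1 : (N : ℝ) * x i = z := by exact_mod_cast hz
  have h2 : z ≠ 0 := fun k => by
    rw [k, Int.cast_zero] at hz
    exact mul_ne_zero (Nat.cast_ne_zero.2 (Nat.one_le_iff_ne_zero.1 hC.one)) h hz
  rw [← Nat.abs_cast N, ← abs_mul, h1]
  exact_mod_cast Int.one_le_abs h2

theorem div_le (hC : Ctx m N u v ℓ a β e) (y : ℝ) : |y / β e| ≤ N * |y| := by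
  have h0 : 0 < |(β e : ℝ)| := abs_pos.2 (Rat.cast_ne_zero.2 hC.ne)
  rw [abs_div, div_le_iff₀ h0]
  have := mul_le_mul_of_nonneg_left (one_le hC hC.mem hC.ne) (abs_nonneg y)
  linarith

theorem abs_le (hC : Ctx m N u v ℓ a β e) {x : ι → ℚ} {H : ℝ} {i : ι}
    (hx : |(x i : ℝ)| * a i ≤ H) : |(x i : ℝ)| ≤ H :=
  (le_mul_of_one_le_right (abs_nonneg _) (hC.num.one i)).trans hx

theorem near (hC : Ctx m N u v ℓ a β e) {x : ι → ℚ} {H B : ℝ} {i : ι}
    (hx : ∀ i, |(x i : ℝ)| * a i ≤ H) (hb : |(β e : ℝ)| / a i + |(β i : ℝ)| / a e ≤ B) :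
    |ℓ i * ((x i : ℝ) - β i * x e / β e)| ≤ |ℓ i| * (H * (1 + B * N)) := by
  rw [abs_mul]
  refine mul_le_mul_of_nonneg_left ((abs_sub _ _).trans ?_) (abs_nonneg _)
  have h1 : |(β i : ℝ)| / a e ≤ B :=
    (le_add_of_nonneg_left (div_nonneg (abs_nonneg _) (hC.num.pos i).le)).trans hb
  have h2 : |(β i : ℝ) * x e| ≤ B * H := by
    have h3 := mul_le_mul h1 (hx e) (mul_nonneg (abs_nonneg _) (hC.num.pos e).le)
      ((div_nonneg (abs_nonneg _) (hC.num.pos e).le).trans h1)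
    rwa [mul_comm _ (a e), ← mul_assoc, div_mul_cancel₀ _ (hC.num.pos e).ne', ← abs_mul] at h3
  have h3 := (div_le hC _).trans (mul_le_mul_of_nonneg_left h2 (Nat.cast_nonneg N))
  linarith [abs_le hC (hx i)]

theorem zero (hC : Ctx m N u v ℓ a β e) {x : ι → ℚ} (hx : InG ℓ x) {H : ℝ} {i : ι} {j J : ℕ}
    (hj : J ≤ j) (h1 : |(x i : ℝ)| * a i ≤ H / 2 ^ j) (h2 : N * H < 2 ^ J * a i) : x i = 0 := by
  by_contra h
  have h3 := one_le hC hx h
  have h4 := (le_div_iff₀ (by positivity)).1 h1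
  have h5 : (2 : ℝ) ^ J * a i ≤ 2 ^ j * a i :=
    mul_le_mul_of_nonneg_right (pow_le_pow_right₀ one_le_two hj) (hC.num.pos i).le
  have h6 := mul_le_mul_of_nonneg_left h4 (Nat.cast_nonneg (α := ℝ) N)
  have h7 := mul_le_mul_of_nonneg_right h3
    (mul_nonneg (by positivity : (0 : ℝ) ≤ 2 ^ j) (hC.num.pos i).le)
  linarith

omit [Fintype ι] in
theorem dg_le [DecidableEq ι] {c x H : ℝ} (hc : 0 ≤ c) (h : x ≤ H) (n : ℕ) (τ : ι → ℕ)
    (Nn : Finset ι) (i : ι) : Dg c x n τ Nn e i ≤ ⌊4 * c * H⌋₊ := by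
  have : ⌊4 * c * x⌋₊ ≤ ⌊4 * c * H⌋₊ :=
    Nat.floor_le_floor (mul_le_mul_of_nonneg_left h (by positivity))
  rw [Dg]
  split_ifs
  exacts [Nat.zero_le _, (min_le_right _ _).trans this, this]

theorem half {x : ℝ} {P P' : Finset κ} {lam : κ → ι → ℚ} (hP : Pts ℓ a x P lam) {k₀ : κ}
    (h0 : k₀ ∈ P) (h : ∀ k, k ∈ P' ↔ k ∈ P ∧ InG ℓ fun i => (lam k i - lam k₀ i) / 2) :
    Pts ℓ a (x / 2) P' fun k i => (lam k i - lam k₀ i) / 2 := by
  refine ⟨fun k hk => ((h k).1 hk).2, fun k hk k' hk' h1 => hP.inj k ((h k).1 hk).1 k'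
    ((h k').1 hk').1 (funext fun i => ?_), fun k hk i => ?_, fun k hk k' hk' i => ?_⟩
  · have := congrFun h1 i
    linarith
  · have := hP.diam k ((h k).1 hk).1 k₀ h0 i
    push_cast
    rw [abs_div, abs_two]
    linarith
  · have := hP.diam k ((h k).1 hk).1 k' ((h k').1 hk').1 i
    push_cast
    rw [← sub_div, sub_sub_sub_cancel_right, abs_div, abs_two]
    linarith

end Desc

open Desc in
theorem stDesc (hD : StDen) (hS : StStart) (hT : StStep) : StDesc := by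
  intro ι _ _ m N u v ℓ a β e Nn S J τ H c B P₀ hC hI he hc hH hB ha hs hb hJ hl hβ hP hcard
  classical
  have hm : (1 : ℝ) ≤ m := Nat.one_le_cast.2 hC.m_pos
  have hN : (1 : ℝ) ≤ N := Nat.one_le_cast.2 hC.one
  have c1 : (m : ℝ) ^ 2 + 16 * m + 7 ≤ c := by
    refine le_trans ?_ hc
    rw [cc]
    push_cast
    have : (0 : ℝ) ≤ 2 ^ 2 ^ m * (10 * m + 6) := by positivity
    linarith
  have c2 : (0 : ℝ) ≤ (m : ℝ) ^ 2 := by positivity
  have c3 : 1 ≤ c := by linarith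
  have hL : 0 ≤ Real.log ((N : ℝ) ^ 2 * B) :=
    Real.log_nonneg (one_le_mul_of_one_le_of_one_le (one_le_pow₀ hN) (by linarith))
  have s1 : 4 * m * c ≤ S := le_trans (le_mul_of_one_le_right (by positivity) (by linarith)) hs
  have s2 : (1 : ℝ) ≤ S := by linarith [one_le_mul_of_one_le_of_one_le hm c3]
  have s3 : 1 ≤ S := Nat.one_le_cast.1 s2
  have g1 : 1 ≤ S * H := one_le_mul_of_one_le_of_one_le s2 hH
  have t1 : (⌊4 * c * H⌋₊ : ℝ) ≤ 4 * c * H := Nat.floor_le (by positivity)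
  have t2 : H ≤ ⌊4 * c * H⌋₊ := by
    have := Nat.lt_floor_add_one (4 * c * H)
    have := mul_le_mul_of_nonneg_right c3 (by linarith : 0 ≤ H)
    linarith
  have Phi : ∀ x : ι → ℚ, (∀ i, |(x i : ℝ)| * a i ≤ H) → ∀ d : ι → ℕ,
      (∀ i, d i ≤ ⌊4 * c * H⌋₊) → |∏ i, bin (yy N β e x i) (d i)| ≤ Real.exp (S * H) :=
    fun x hx d hd => phi hC (by linarith) t2 t1 (by
      have := mul_le_mul_of_nonneg_right hs (by linarith : 0 ≤ H)
      linarith) hb hx hd
  obtain ⟨P₁, p, p0, p1, p2, p3, p4⟩ := hS ι (ι → ℚ) m N u v ℓ a β e P₀ id S (Dg c H J τ Nn e) H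
    (S * H) hC hP s3 g1 ha (by linarith) le_rfl hcard (by
      have k1 : 2 * (S : ℝ) ≤ Real.exp (S * H) := by
        have k2 : (2 : ℝ) ≤ Real.exp 1 := by linarith [Real.add_one_le_exp (1 : ℝ)]
        have k3 := Real.add_one_le_exp (S * H - 1)
        have k4 : (S : ℝ) ≤ S * H := le_mul_of_one_le_right (by linarith) hH
        rw [show S * H = 1 + (S * H - 1) by ring, Real.exp_add]
        exact mul_le_mul k2 (by linarith) (by linarith) (by linarith)
      have k2 : ∏ i, ((Dg c H J τ Nn e i : ℝ) + 1) ≤ Real.exp (S * H) := by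
        refine (prod_le_prod (g := fun _ => Real.exp (4 * c * H)) (fun i _ => by positivity)
          fun i _ => (Real.add_one_le_exp _).trans (Real.exp_le_exp.2 (le_trans
            (Nat.cast_le.2 (dg_le (by linarith) le_rfl J τ Nn i)) t1))).trans ?_
        rw [prod_const, ← Real.exp_nat_mul, card_univ]
        refine Real.exp_le_exp.2 ((mul_le_mul_of_nonneg_right (Nat.cast_le.2 hC.card)
          (by positivity)).trans ?_)
        have := mul_le_mul_of_nonneg_right s1 (by linarith : 0 ≤ H)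
        linarith
      push_cast
      rw [← mul_assoc, two_mul (S * H), Real.exp_add]
      exact mul_le_mul k1 k2 (by positivity) (by positivity))
    fun k hk d hd => Phi k (hP.box k hk) d fun i =>
      (hd i).trans (dg_le (by linarith) le_rfl J τ Nn i)
  have key : ∀ j : ℕ, ∃ (P : Finset (ι → ℚ)) (lam : (ι → ℚ) → ι → ℚ), P.Nonempty ∧ P ⊆ P₁ ∧
      Pts ℓ a (H / 2 ^ j) P lam ∧
      VanS ℓ N β e P lam p (2 ^ j * S) (Dg c (H / 2 ^ j) (J - j) τ Nn e) := fun j => by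
    induction j with
    | zero =>
      refine ⟨P₁, id, p1, Subset.rfl, ?_, ?_⟩
      · simpa using hP.mono p0
      · simpa using p4
    | succ j ih =>
      obtain ⟨P, lam, ⟨k₀, q1⟩, q2, q3, q4⟩ := ih
      obtain ⟨x, hx⟩ : ∃ x, x = H / 2 ^ j := ⟨_, rfl⟩
      have x0 : 0 ≤ x := by rw [hx]; positivity
      have x1 : x ≤ H := hx ▸ div_le_self (by linarith) (one_le_pow₀ one_le_two)
      have x2 : ((2 ^ j * S : ℕ) : ℝ) * x = S * H := by
        rw [hx]
        push_cast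
        field_simp
      have x3 : H / 2 ^ (j + 1) = x / 2 := by rw [hx, pow_succ, div_div]
      have x4 : 1 ≤ 2 * m * x := by
        by_contra k
        exact fin hD hC hI ⟨k₀, q1⟩ q3 (fun k hk => p2 k (q2 hk)) q4
          (Nat.mul_pos (by positivity) s3) (by
            rw [← hx]
            linarith [Real.log_two_gt_d9])
      have x5 : 1 ≤ c * x := x4.trans (mul_le_mul_of_nonneg_right (by linarith) x0)
      have x6 : c * x ≤ ⌈c * x⌉₊ := Nat.le_ceil _
      have x7 : (⌈c * x⌉₊ : ℝ) ≤ c * x + 1 := (Nat.ceil_lt_add_one (by linarith)).le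
      have x8 : ⌊4 * c * (x / 2)⌋₊ + ⌈c * x⌉₊ ≤ ⌊4 * c * x⌋₊ := Nat.le_floor (by
        have := Nat.floor_le (show 0 ≤ 4 * c * (x / 2) by linarith)
        push_cast
        linarith)
      have x9 : (0 : ℝ) ≤ (2 ^ j * S : ℕ) := Nat.cast_nonneg _
      have bx : ∀ k ∈ P, ∀ i, |(lam k i : ℝ)| * a i ≤ H := fun k hk i =>
        (q3.box k hk i).trans (hx ▸ x1)
      have hP' : ∀ k, k ∈ P.filter (fun k => InG ℓ fun i => (lam k i - lam k₀ i) / 2) ↔
          k ∈ P ∧ InG ℓ fun i => (lam k i - lam k₀ i) / 2 := fun k => mem_filter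
      rw [x3, pow_succ', mul_assoc]
      rw [← hx] at q4
      refine ⟨_, _, ⟨k₀, (hP' k₀).2 ⟨q1, ?_⟩⟩, (filter_subset _ _).trans q2,
        half (hx ▸ q3) q1 hP', hT ι _ m N u v ℓ a β e Nn P lam p _ ⌈c * x⌉₊ _ _
          (if j < J then τ else 0) x (S * H) c hC he (hx ▸ q3) q4 g1 ha x0 x2.le hc ?_ ?_ ?_ ?_
          (fun k hk d hd => Phi _ (bx k hk) d fun i => (hd i).trans
            (dg_le (by linarith) (by linarith) _ τ Nn i)) (fun i => ?_) (fun i h1 h2 => ?_)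
          (fun i hi => ?_) (fun k hk i hi => ?_) (fun k hk => ?_) k₀ q1 _ hP'⟩
      · simp only [sub_self, zero_div]
        exact InG.zero ℓ
      · have := mul_le_mul_of_nonneg_left x6 x9
        rw [← x2]
        linarith
      · have k1 := mul_le_mul_of_nonneg_left x7 x9
        have k2 := mul_le_mul_of_nonneg_left x4 x9
        rw [← x2]
        linarith
      · have k1 := mul_le_mul_of_nonneg_right c1 x0
        have k2 := mul_le_mul_of_nonneg_left x4 (by linarith : (0 : ℝ) ≤ m)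
        have k3 := mul_nonneg (by linarith : (0 : ℝ) ≤ m) x0
        linarith
      · exact (sum_le_sum_of_subset_of_nonneg q2 fun _ _ _ => abs_nonneg _).trans p3
      · simp only [Dg]
        split_ifs
        · exact le_rfl
        · exact min_le_min (Nat.mul_le_mul_right _ (by omega)) (by omega)
        · omega
      · simpa only [Dg, if_neg h1, if_neg h2] using x8
      · have h2 : i ≠ e := fun k => he (k ▸ hi)
        simp only [Dg, if_neg h2, if_pos hi]
        refine le_min ?_ ((add_le_add (min_le_right _ _) (min_le_right _ _)).trans x8)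
        refine (add_le_add (min_le_left _ _) (min_le_left _ _)).trans ?_
        split_ifs with hj
        · rw [show J - j = J - (j + 1) + 1 by omega, add_one_mul]
        · exact Nat.mul_le_mul_right _ (by omega : J - (j + 1) ≤ J - j)
      · split_ifs with hj
        · have k1 := near hC (bx k hk) (hb i fun k => he (k ▸ hi))
          exact ⟨k1.trans (hl i hi).1, (pow_le_pow_left₀ (abs_nonneg _) k1 _).trans (hl i hi).2⟩
        · rw [zero hC (q3.mem k hk) (not_lt.1 hj) (q3.box k hk i) (hJ i hi).1,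
            zero hC (q3.mem k hk) (not_lt.1 hj) (q3.box k hk e) (hJ i hi).2]
          simp [Real.exp_nonneg]
      · refine (div_le hC _).trans (le_trans ?_ hβ)
        rw [abs_mul, mul_assoc]
        exact mul_le_mul_of_nonneg_left
          (mul_le_mul_of_nonneg_right (abs_le hC (bx k hk e)) (abs_nonneg _)) (by linarith)
  obtain ⟨j, hj⟩ := pow_unbounded_of_one_lt (2 * m * H) (one_lt_two (α := ℝ))
  obtain ⟨P, lam, q1, q2, q3, q4⟩ := key j
  refine fin hD hC hI q1 q3 (fun k hk => p2 k (q2 hk)) q4 (Nat.mul_pos (by positivity) s3) ?_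
  rw [← mul_div_assoc, div_lt_iff₀ (by positivity)]
  have := mul_le_mul_of_nonneg_right Real.log_two_gt_d9.le (by positivity : (0 : ℝ) ≤ 2 ^ j)
  have : (0 : ℝ) ≤ 2 ^ j := by positivity
  linarith

end Pool.Agent.Lib.MP_4ffbf9_nt.MB
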