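import Pool.Agent.Lib.MP_4ffbf9_nt.MB.Defs

/-! Small derivatives. -/

set_option autoImplicit false

namespace Pool.Agent.Lib.MP_4ffbf9_nt.MB

open Finset Polynomial

namespace Exp

variable {ι κ : Type} {P : Finset κ} {c q u ε : κ → ℝ} {y : κ → ι → ℝ} {D D' τ : ι → ℕ}
  {γ : ι → ℝ} {F : Finset ι} {t : ℕ} {ω η : ℝ}

theorem binom {r : ℕ} {M W : ℝ}
    (h : ∀ m ≤ r, |∑ k ∈ P, q k * ε k ^ (r - m) * u k ^ m| ≤ M * W ^ m) :
    |∑ k ∈ P, q k * (u k + ε k) ^ r| ≤ M * (W + 1) ^ r := by
  simp only [add_pow, mul_sum]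
  rw [sum_comm]
  refine (abs_sum_le_sum_abs _ _).trans (sum_le_sum fun m hm => ?_)
  have e : ∑ k ∈ P, q k * (u k ^ m * ε k ^ (r - m) * r.choose m) =
      (∑ k ∈ P, q k * ε k ^ (r - m) * u k ^ m) * r.choose m := by
    rw [sum_mul]
    exact sum_congr rfl fun _ _ => by ring
  rw [e, abs_mul, Nat.abs_cast, one_pow, mul_one, ← mul_assoc]
  exact mul_le_mul_of_nonneg_right (h m (Nat.lt_succ_iff.1 (mem_range.1 hm))) (Nat.cast_nonneg _)

theorem tail {W : ℝ} {n e : ℕ} (m s : ℕ) (hη : 0 ≤ η) (hu : ∀ k ∈ P, |u k| ≤ W)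
    (hε : ∀ k ∈ P, |ε k| ≤ 1 ∧ |ε k| ^ n ≤ η) (he : n ≤ e) :
    |∑ k ∈ P, q k * ε k ^ e * u k ^ m| ≤ (s + 1) * η * (∑ k ∈ P, |q k|) * W ^ m := by
  have h1 : η ≤ (s + 1) * η := le_mul_of_one_le_left hη (le_add_of_nonneg_left s.cast_nonneg)
  rw [mul_sum, sum_mul]
  refine (abs_sum_le_sum_abs _ _).trans (sum_le_sum fun k hk => ?_)
  rw [abs_mul, abs_mul, abs_pow, abs_pow, mul_comm |q k|]
  have h2 := ((pow_le_pow_of_le_one (abs_nonneg _) (hε k hk).1 he).trans (hε k hk).2).trans h1
  have h3 := hu k hk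
  gcongr

variable [Fintype ι]

theorem van_pow (h : Van P c y D) (j : ι) (g : ℝ) (n : ℕ) (h1 : ∀ i, D' i ≤ D i)
    (h2 : D' j + n ≤ D j) : Van P (fun k => c k * (g * y k j) ^ n) y D' := by
  classical
  intro f hf
  rw [← h (fun i => (if i = j then (C g * X) ^ n else 1) * f i) fun i => ?_]
  · refine sum_congr rfl fun k _ => ?_
    simp only [eval_mul, prod_mul_distrib, apply_ite (eval _), eval_one, prod_ite_eq', mem_univ,
      if_true, eval_pow, eval_C, eval_X, mul_assoc]
  · split_ifs with e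
    · have := natDegree_pow_le_of_le n ((natDegree_C_mul_le g X).trans natDegree_X_le)
      have := natDegree_mul_le (p := (C g * X) ^ n) (q := f i)
      have := hf i
      subst e
      omega
    · rw [one_mul]
      exact (hf i).trans (h1 i)

theorem van_sum (h : Van P c y D) (n : ℕ) : ∀ D' : ι → ℕ, (∀ i, D' i ≤ D i) →
    (∀ i ∈ F, D' i + n ≤ D i) → Van P (fun k => c k * (∑ i ∈ F, γ i * y k i) ^ n) y D' := by
  classical
  induction n with
  | zero => exact fun D' h1 _ f hf => by simpa using h f fun i => (hf i).trans (h1 i)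
  | succ n ih =>
    intro D' h1 h2 f hf
    have k := ih (fun i => if i ∈ F then D' i + 1 else D' i)
      (fun i => by
        split_ifs with e
        · have := h2 i e
          omega
        · exact h1 i)
      fun i e => by
        have := h2 i e
        rw [if_pos e]
        omega
    simp only [pow_succ, ← mul_assoc]
    simp only [mul_sum _ _ (_ * _ ^ n), sum_mul]
    rw [sum_comm]
    refine sum_eq_zero fun j hj => ?_
    simpa only [pow_one] using van_pow k j (γ j) 1 (fun i => by split_ifs <;> omega)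
      (by rw [if_pos hj]) f hf

theorem near (hω : 0 ≤ ω) (hη : 0 ≤ η) (hF : ∀ k ∈ P, |∑ i ∈ F, γ i * y k i| ≤ ω)
    {f : ι → ℝ[X]} (hf : ∀ i, (f i).natDegree ≤ D' i) (R : Finset ι) : Disjoint F R →
    (∀ k ∈ P, ∀ i ∈ R, |γ i * y k i| ≤ 1 ∧ |γ i * y k i| ^ (τ i + 1) ≤ η) →
    ∀ (c : κ → ℝ) (D : ι → ℕ) (r : ℕ), Van P c y D → (∀ i, D' i ≤ D i) →
    (∀ i ∈ F, D' i + t ≤ D i) → (∀ i ∈ R, D' i + min (τ i) t ≤ D i) → r ≤ t →
    |∑ k ∈ P, c k * (∏ i, (f i).eval (y k i)) *
      (∑ i ∈ F, γ i * y k i + ∑ i ∈ R, γ i * y k i) ^ r| ≤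
      R.card * η * (∑ k ∈ P, |c k * ∏ i, (f i).eval (y k i)|) * (ω + R.card) ^ r := by
  classical
  induction R using Finset.induction_on with
  | empty =>
    intro _ _ c D r h h1 h2 _ hr
    have := van_sum (γ := γ) h r D' h1 (fun i hi => (Nat.add_le_add_left hr _).trans (h2 i hi)) f hf
    simp only [mul_right_comm (c _) (_ ^ r)] at this
    simp [this]
  | insert a R ha ih =>
    intro hd hR c D r h h1 h2 h3 hr
    rw [disjoint_insert_right] at hd
    have hR' := fun k hk i hi => hR k hk i (mem_insert_of_mem hi)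
    simp only [sum_insert ha, card_insert_of_notMem ha, Nat.cast_succ, add_comm (γ a * _),
      ← add_assoc]
    refine binom fun m hm => ?_
    rcases le_or_gt (r - m) (τ a) with e | e
    · have k := ih hd.2 hR' _ _ m (van_pow (D' := Function.update D a (D' a)) h a (γ a) (r - m)
        (fun i => by
          rcases eq_or_ne i a with rfl | e
          · simpa using h1 i
          · rw [Function.update_of_ne e])
        (by
          have := h3 a (mem_insert_self _ _)
          rw [Function.update_self]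
          omega))
        (fun i => by
          rcases eq_or_ne i a with rfl | e
          · simp
          · simpa [e] using h1 i)
        (fun i hi => by simpa [ne_of_mem_of_not_mem hi hd.1] using h2 i hi)
        (fun i hi => (h3 i (mem_insert_of_mem hi)).trans_eq
          (Function.update_of_ne (ne_of_mem_of_not_mem hi ha) _ _).symm) (hm.trans hr)
      simp only [mul_right_comm (c _) (_ ^ (r - m))] at k
      refine k.trans (mul_le_mul_of_nonneg_right (mul_le_mul (mul_le_mul_of_nonneg_right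
        (le_add_of_nonneg_right zero_le_one) hη) (sum_le_sum fun k hk => ?_) (by positivity)
        (by positivity)) (by positivity))
      rw [abs_mul, abs_pow]
      exact mul_le_of_le_one_right (abs_nonneg _)
        (pow_le_one₀ (abs_nonneg _) (hR k hk a (mem_insert_self _ _)).1)
    · refine tail m _ hη (fun k hk => (abs_add_le _ _).trans (add_le_add (hF k hk)
        ((abs_sum_le_sum_abs _ _).trans ?_))) (fun k hk => hR k hk a (mem_insert_self _ _)) e
      simpa using sum_le_card_nsmul R _ 1 fun i hi => (hR' k hk i hi).1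

end Exp

theorem stExp : StExp := by
  intro ι κ _ P c w δ y γ F Nn D D' τ t r ω η f h hd hw h1 h2 h3 hω hη hF hN hδ hr hf
  rw [sum_congr rfl fun k hk => by rw [hw k hk]]
  refine Exp.binom fun m hm => ?_
  rcases hm.eq_or_lt with rfl | e
  · simp only [Nat.sub_self, pow_zero, mul_one]
    refine (Exp.near hω hη hF hf Nn hd hN c D m h h1 h2 h3 hr).trans ?_
    gcongr
    exact le_add_of_nonneg_right zero_le_one
  · refine Exp.tail (n := 1) m _ hη (fun k hk => (abs_add_le _ _).trans
      (add_le_add (hF k hk) ((abs_sum_le_sum_abs _ _).trans ?_)))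
      (fun k hk => by simpa using hδ k hk) (by omega)
    simpa using sum_le_card_nsmul Nn _ 1 fun i hi => (hN k hk i hi).1

end Pool.Agent.Lib.MP_4ffbf9_nt.MB
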