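import Pool.Agent.Lib.MP_4ffbf9_nt.MB.Defs

/-! Sums of square roots. -/

set_option autoImplicit false

namespace Pool.Agent.Lib.MP_4ffbf9_nt.MB

open Finset Polynomial

namespace KL

theorem integral_of_sq {R A : Type} [CommRing R] [CommRing A] [Algebra R A] {t : A} {r : R}
    (h : t ^ 2 = algebraMap R A r) : IsIntegral R t :=
  ⟨X ^ 2 - C r, monic_X_pow_sub_C r two_ne_zero, by simp [h]⟩

theorem finrank_one {t : ℝ} {r : ℚ} (h : t ^ 2 = r) :
    Module.finrank ℚ (IntermediateField.adjoin ℚ {t}) ≤ 2 := by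
  have hi : IsIntegral ℚ t := integral_of_sq (r := r) (by simpa using h)
  rw [IntermediateField.adjoin.finrank hi]
  have h1 : minpoly ℚ t ∣ X ^ 2 - C r := minpoly.dvd ℚ t (by simp [h])
  have h2 := natDegree_le_of_dvd h1 (monic_X_pow_sub_C r two_ne_zero).ne_zero
  rwa [natDegree_X_pow_sub_C] at h2

theorem finrank_le (T : Finset ℝ) (h : ∀ t ∈ T, ∃ r : ℚ, t ^ 2 = r) :
    Module.finrank ℚ (IntermediateField.adjoin ℚ (T : Set ℝ)) ≤ 2 ^ T.card := by
  classical
  induction T using Finset.induction_on with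
  | empty =>
    rw [coe_empty, IntermediateField.adjoin_empty, IntermediateField.finrank_bot]
    simp
  | insert t T ht ih =>
    rw [coe_insert, Set.insert_eq, IntermediateField.adjoin_union, card_insert_of_notMem ht,
      pow_succ']
    refine (IntermediateField.finrank_sup_le _ _).trans ?_
    obtain ⟨r, hr⟩ := h t (mem_insert_self _ _)
    exact Nat.mul_le_mul (finrank_one hr) (ih fun s hs => h s (mem_insert_of_mem hs))

theorem liouville {K : Type} [Field K] [Algebra ℚ K] [FiniteDimensional ℚ K] (θ : K)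
    (hθ : IsIntegral ℤ θ) (H : ℝ) (hH : 1 ≤ H) (N : ℕ) (hN : Module.finrank ℚ K ≤ N)
    (hσ : ∀ σ : K →ₐ[ℚ] ℂ, ‖σ θ‖ ≤ H) (σ₀ : K →ₐ[ℚ] ℂ) (h0 : ‖σ₀ θ‖ * H ^ N < 1) : θ = 0 := by
  classical
  have : CharZero K := algebraRat.charZero K
  by_contra hne
  have h1 : IsIntegral ℤ (Algebra.norm ℚ θ) := Algebra.isIntegral_norm ℚ hθ
  obtain ⟨z, hz⟩ := IsIntegrallyClosed.isIntegral_iff.1 h1
  have h2 : Algebra.norm ℚ θ ≠ 0 := Algebra.norm_ne_zero_iff.2 hne
  have h3 := Algebra.norm_eq_prod_embeddings ℚ ℂ θ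
  have hz0 : z ≠ 0 := by
    rintro rfl
    exact h2 (by rw [← hz]; simp)
  have h4 : (1 : ℝ) ≤ ‖algebraMap ℚ ℂ (Algebra.norm ℚ θ)‖ := by
    rw [← hz]
    have : algebraMap ℚ ℂ (algebraMap ℤ ℚ z) = (z : ℂ) := by simp
    rw [this, Complex.norm_intCast]
    exact_mod_cast Int.one_le_abs hz0
  rw [h3, norm_prod, ← mul_prod_erase univ _ (mem_univ σ₀)] at h4
  have h5 : ∏ σ ∈ univ.erase σ₀, ‖σ θ‖ ≤ H ^ N := by
    refine (prod_le_prod (fun _ _ => norm_nonneg _) fun σ _ => hσ σ).trans ?_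
    rw [prod_const]
    refine pow_le_pow_right₀ hH ((card_le_univ _).trans ?_)
    rw [AlgHom.card ℚ K ℂ]
    exact hN
  have := mul_le_mul_of_nonneg_left h5 (norm_nonneg (σ₀ θ))
  linarith

theorem trace_irr {K : Type} [Field K] [Algebra ℚ K] [FiniteDimensional ℚ K] (s : K) (r : ℚ)
    (h : s ^ 2 = algebraMap ℚ K r) (hs : s ∉ (algebraMap ℚ K).range) :
    Algebra.trace ℚ K s = 0 := by
  have hi : IsIntegral ℚ s := integral_of_sq h
  have h1 : minpoly ℚ s ∣ X ^ 2 - C r := minpoly.dvd ℚ s (by simp [h])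
  have h2 : 2 ≤ (minpoly ℚ s).natDegree := (minpoly.two_le_natDegree_iff hi).2 hs
  have h3 : X ^ 2 - C r = minpoly ℚ s :=
    eq_of_monic_of_dvd_of_natDegree_le (minpoly.monic hi) (monic_X_pow_sub_C r two_ne_zero) h1
      (by rwa [natDegree_X_pow_sub_C])
  rw [trace_eq_finrank_mul_minpoly_nextCoeff, ← h3]
  simp [nextCoeff, coeff_X_pow]

theorem field {κ : Type} (P : Finset κ) (n : ℕ) (cl : κ → Fin n) (y : κ → ℝ)
    (h2 : ∀ k ∈ P, ∃ z : ℤ, y k ^ 2 = z)
    (h3 : ∀ k ∈ P, ∀ l ∈ P, cl k = cl l → ∃ r : ℚ, y k = r * y l) :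
    ∃ K : IntermediateField ℚ ℝ, FiniteDimensional ℚ K ∧ Module.finrank ℚ K ≤ 2 ^ n ∧
      ∀ k ∈ P, y k ∈ K := by
  classical
  let rep : Fin n → ℝ := fun c => if h : ∃ l ∈ P, cl l = c then y h.choose else 0
  have hT : ∀ t ∈ univ.image rep, ∃ r : ℚ, t ^ 2 = r := by
    intro t ht
    obtain ⟨c, -, rfl⟩ := mem_image.1 ht
    by_cases h : ∃ l ∈ P, cl l = c
    · obtain ⟨z, hz⟩ := h2 _ h.choose_spec.1
      exact ⟨z, by simp only [rep, dif_pos h, hz]; simp⟩
    · exact ⟨0, by simp only [rep, dif_neg h]; simp⟩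
  refine ⟨IntermediateField.adjoin ℚ (univ.image rep : Finset ℝ), ?_, ?_, ?_⟩
  · refine IntermediateField.finiteDimensional_adjoin fun t ht => ?_
    obtain ⟨r, hr⟩ := hT t ht
    exact integral_of_sq (r := r) (by simpa using hr)
  · refine (finrank_le _ hT).trans (Nat.pow_le_pow_right two_pos ?_)
    exact card_image_le.trans (by simp)
  · intro k hk
    have h : ∃ l ∈ P, cl l = cl k := ⟨k, hk, rfl⟩
    obtain ⟨r, hr⟩ := h3 k hk _ h.choose_spec.1 h.choose_spec.2.symm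
    rw [hr]
    refine mul_mem (by exact SubfieldClass.ratCast_mem _ r) ?_
    refine IntermediateField.subset_adjoin _ _ (mem_coe.2 (mem_image.2 ⟨cl k, mem_univ _, ?_⟩))
    simp only [rep, dif_pos h]

end KL

theorem stKL : StKL := by
  classical
  intro κ P n cl q y H h1 h2 h3 hH hsum hsmall l hl P' hP'
  obtain ⟨K, hfin, hrank, hK⟩ := KL.field P n cl y h2 h3
  let Y : κ → K := fun k => if h : k ∈ P then ⟨y k, hK k h⟩ else 0
  have hY : ∀ k ∈ P, (Y k : ℝ) = y k := fun k hk => by simp only [Y, dif_pos hk]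
  have hsq : ∀ k ∈ P, ∃ z : ℤ, y k ^ 2 = z ∧ Y k ^ 2 = (z : K) := fun k hk => by
    obtain ⟨z, hz⟩ := h2 k hk
    refine ⟨z, hz, Subtype.ext ?_⟩
    push_cast
    rw [hY k hk, hz]
  let θ : K := ∑ k ∈ P, (q k : K) * Y k
  have hθ : (θ : ℝ) = ∑ k ∈ P, (q k : ℝ) * y k := by
    simp only [θ]
    push_cast
    exact sum_congr rfl fun k hk => by rw [hY k hk]
  have hint : IsIntegral ℤ θ := by
    refine IsIntegral.sum _ fun k hk => IsIntegral.mul (isIntegral_algebraMap (x := q k)) ?_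
    obtain ⟨z, -, hz⟩ := hsq k hk
    exact KL.integral_of_sq (r := z) (by simpa using hz)
  have hσ : ∀ σ : K →ₐ[ℚ] ℂ, ‖σ θ‖ ≤ H := by
    intro σ
    simp only [θ, map_sum, map_mul, map_intCast]
    refine (norm_sum_le _ _).trans (le_trans (le_of_eq (sum_congr rfl fun k hk => ?_)) hsum)
    obtain ⟨z, hz, hz'⟩ := hsq k hk
    have e1 : ‖σ (Y k)‖ ^ 2 = y k ^ 2 := by
      rw [← norm_pow, ← map_pow, hz', map_intCast, Complex.norm_intCast, ← hz, abs_pow, sq_abs]
    rw [norm_mul, Complex.norm_intCast,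
      (pow_left_inj₀ (norm_nonneg _) (h1 k hk).le two_ne_zero).1 e1]
  have hz : θ = 0 := by
    refine KL.liouville θ hint H hH (2 ^ n) hrank hσ
      ((Complex.ofRealAm.restrictScalars ℚ).comp K.val) ?_
    change ‖((θ : ℝ) : ℂ)‖ * H ^ 2 ^ n < 1
    rw [Complex.norm_real, Real.norm_eq_abs, hθ]
    exact hsmall
  have htr : ∀ k ∈ P, ((Algebra.trace ℚ K (Y k * Y l) : ℚ) : ℝ) =
      if k ∈ P' then (Module.finrank ℚ K : ℝ) * (y k * y l) else 0 := by
    intro k hk
    obtain ⟨zk, hzk, hzk'⟩ := hsq k hk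
    obtain ⟨zl, hzl, hzl'⟩ := hsq l hl
    split_ifs with h
    · obtain ⟨-, r, hr⟩ := (hP' k).1 h
      have e1 : y k * y l = ((r * zl : ℚ) : ℝ) := by
        push_cast
        rw [hr, ← hzl]
        ring
      have e2 : Y k * Y l = algebraMap ℚ K (r * zl) := by
        refine Subtype.ext ?_
        push_cast
        rw [hY k hk, hY l hl, e1]
        simp
      rw [e2, Algebra.trace_algebraMap, e1, nsmul_eq_mul]
      push_cast
      ring
    · rw [KL.trace_irr (Y k * Y l) (zk * zl) (by rw [mul_pow, hzk', hzl']; simp), Rat.cast_zero]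
      rintro ⟨r, hr⟩
      refine h ((hP' k).2 ⟨hk, r / zl, ?_⟩)
      have e1 : y k * y l = r := by
        rw [← hY k hk, ← hY l hl, ← MulMemClass.coe_mul, ← hr]
        simp
      have e2 := (h1 l hl).ne'
      push_cast
      rw [← hzl, ← e1]
      field_simp
  have hsub : P' ⊆ P := fun k hk => ((hP' k).1 hk).1
  have e0 : ((Algebra.trace ℚ K (θ * Y l) : ℚ) : ℝ) = 0 := by rw [hz]; simp
  have e1 : ((Algebra.trace ℚ K (θ * Y l) : ℚ) : ℝ) =
      (Module.finrank ℚ K : ℝ) * y l * ∑ k ∈ P', (q k : ℝ) * y k := by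
    have : θ * Y l = ∑ k ∈ P, (q k : ℚ) • (Y k * Y l) := by
      simp only [θ, sum_mul]
      exact sum_congr rfl fun k _ => by rw [Algebra.smul_def]; simp [mul_assoc]
    rw [this, map_sum, Rat.cast_sum, mul_sum, ← sum_subset hsub]
    · refine sum_congr rfl fun k hk => ?_
      rw [map_smul, smul_eq_mul, Rat.cast_mul, htr k (hsub hk), if_pos hk]
      push_cast
      ring
    · intro k hk hk'
      rw [map_smul, smul_eq_mul, Rat.cast_mul, htr k hk, if_neg hk', mul_zero]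
  have hpos : (0 : ℝ) < (Module.finrank ℚ K : ℝ) * y l :=
    mul_pos (Nat.cast_pos.2 Module.finrank_pos) (h1 l hl)
  rw [e1] at e0
  exact (mul_eq_zero.1 e0).resolve_left hpos.ne'

end Pool.Agent.Lib.MP_4ffbf9_nt.MB
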