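import Pool.Agent.Lib.MP_4ffbf9_nt.MB.Defs

/-! The saturated lattice. -/

set_option autoImplicit false

namespace Pool.Agent.Lib.MP_4ffbf9_nt.MB

open Finset Polynomial

namespace Lat

variable {ι : Type} [Fintype ι] {u v : ι → ℕ} {ℓ a : ι → ℝ}

theorem cell {x y r : ℚ} (hr : 0 < r) (h : ⌊x / r⌋ = ⌊y / r⌋) : |(x : ℝ) - y| ≤ r := by
  have h1 := Int.abs_sub_lt_one_of_floor_eq_floor h
  rw [← sub_div, abs_div, abs_of_pos hr, div_lt_one hr] at h1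
  exact_mod_cast h1.le

theorem mem_cell {x r : ℚ} {Q : ℕ} (hr : 0 < r) (h : 0 ≤ x) (k : x < Q * r) :
    ⌊x / r⌋ ∈ Ico (0 : ℤ) Q :=
  mem_Ico.2 ⟨Int.floor_nonneg.2 (div_nonneg h hr.le), Int.floor_lt.2 ((div_lt_iff₀ hr).2 k)⟩

theorem fin (hD : StDen) {m : ℕ} (hm : Fintype.card ι ≤ m) (h : Num u v ℓ a) (hi : Ind ℓ) :
    ∃ T : Finset (ι → ℚ), (∀ x, x ∈ T ↔ InG ℓ x ∧ ∀ i, 0 ≤ x i ∧ x i < 1) ∧
      (T.card : ℝ) ≤ ∏ i, (3 * m * a i) := by
  classical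
  have m1 : ι → (1 : ℝ) ≤ m := fun i => Nat.one_le_cast.2 ((Fintype.card_pos_iff.2 ⟨i⟩).trans_le hm)
  have p0 : ∀ i, 0 < 2 * m * a i := fun i => by
    have := h.pos i
    have := m1 i
    positivity
  obtain ⟨Q, q0, q1, q2⟩ : ∃ Q : ι → ℕ, (∀ i, 0 < Q i) ∧ (∀ i, 2 * m * a i ≤ Q i) ∧
      ∀ i, (Q i : ℝ) ≤ 3 * m * a i :=
    ⟨fun i => ⌈2 * m * a i⌉₊, fun i => Nat.ceil_pos.2 (p0 i), fun i => Nat.le_ceil _, fun i => by
      linarith [Nat.ceil_lt_add_one (p0 i).le, one_le_mul_of_one_le_of_one_le (m1 i) (h.one i)]⟩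
  have r0 : ∀ i, (0 : ℚ) < (Q i : ℚ)⁻¹ := fun i => inv_pos.2 (Nat.cast_pos.2 (q0 i))
  have h1 : Set.MapsTo (fun (x : ι → ℚ) i => ⌊x i / (Q i : ℚ)⁻¹⌋)
      {x | InG ℓ x ∧ ∀ i, 0 ≤ x i ∧ x i < 1} (Fintype.piFinset fun i => Ico (0 : ℤ) (Q i)) :=
    fun x hx => Fintype.mem_piFinset.2 fun i => mem_cell (r0 i) (hx.2 i).1 (by
      rw [mul_inv_cancel₀ (Nat.cast_pos.2 (q0 i)).ne']
      exact (hx.2 i).2)
  have h2 : Set.InjOn (fun (x : ι → ℚ) i => ⌊x i / (Q i : ℚ)⁻¹⌋)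
      {x | InG ℓ x ∧ ∀ i, 0 ≤ x i ∧ x i < 1} := fun x hx y hy e => by_contra fun hn => by
    have k1 := (hD ι u v ℓ a h).2 hi _ (hx.1.sub hy.1) (sub_ne_zero.2 hn)
    have k2 := sum_le_card_nsmul univ (fun i => |((x - y) i : ℝ)| * a i) (1 / 2 / m) fun i _ => by
      have k := cell (r0 i) (congrFun e i)
      have := m1 i
      have := h.pos i
      rw [Pi.sub_apply, Rat.cast_sub]
      push_cast at k
      calc _ ≤ (2 * m * a i)⁻¹ * a i := by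
            gcongr
            exact k.trans (inv_anti₀ (p0 i) (q1 i))
        _ = _ := by field_simp
    have k3 : (Fintype.card ι : ℝ) * (1 / 2 / m) ≤ 1 / 2 := by
      rw [← mul_div_assoc]
      refine div_le_of_le_mul₀ (Nat.cast_nonneg _) (by norm_num) ?_
      linarith [(Nat.cast_le (α := ℝ)).2 hm]
    rw [nsmul_eq_mul, card_univ] at k2
    linarith [Real.log_two_gt_d9]
  have h3 := Set.Finite.of_injOn h1 h2 (finite_toSet _)
  refine ⟨h3.toFinset, fun x => h3.mem_toFinset, ?_⟩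
  rw [← h3.coe_toFinset] at h1 h2
  have h4 := card_le_card_of_injOn _ h1 h2
  rw [Fintype.card_piFinset] at h4
  refine (Nat.cast_le.2 h4).trans ?_
  rw [Nat.cast_prod]
  exact prod_le_prod (fun _ _ => Nat.cast_nonneg _) fun i _ => by simpa using q2 i

theorem eq_of_int {x y : ℚ} (hx : 0 ≤ x ∧ x < 1) (hy : 0 ≤ y ∧ y < 1) {z : ℤ} (h : x - y = z) :
    x = y := by
  rw [← Int.fract_eq_self.2 hx, ← Int.fract_eq_self.2 hy]
  exact Int.fract_eq_fract.2 ⟨z, h⟩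

theorem den (h : Num u v ℓ a) {T : Finset (ι → ℚ)}
    (hT : ∀ x, x ∈ T ↔ InG ℓ x ∧ ∀ i, 0 ≤ x i ∧ x i < 1) : Den T.card ℓ := by
  classical
  intro x hx i
  have h1 : Set.InjOn (fun (y : ι → ℚ) j => Int.fract (y j + x j)) T := fun y hy z hz e =>
    funext fun j => by
      obtain ⟨n, hn⟩ := Int.fract_eq_fract.1 (congrFun e j)
      exact eq_of_int (((hT y).1 hy).2 j) (((hT z).1 hz).2 j) (z := n) (by linear_combination hn)
  have h2 : T.image (fun (y : ι → ℚ) j => Int.fract (y j + x j)) = T :=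
    eq_of_subset_of_card_le (fun z hz => by
      obtain ⟨y, hy, rfl⟩ := mem_image.1 hz
      exact (hT _).2 ⟨(((hT y).1 hy).1.add hx).sub (h.inG_int fun j => ⌊y j + x j⌋),
        fun j => ⟨Int.fract_nonneg _, Int.fract_lt_one _⟩⟩) (card_image_of_injOn h1).ge
  have h3 := sum_image (f := fun y : ι → ℚ => y i) h1
  rw [h2] at h3
  simp only [Int.fract, sum_sub_distrib, sum_add_distrib, sum_const, nsmul_eq_mul] at h3
  exact ⟨∑ y ∈ T, ⌊y i + x i⌋, by push_cast; linarith⟩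

theorem box (h : Num u v ℓ a) {T : Finset (ι → ℚ)} (h0 : T.Nonempty)
    (hT : ∀ x, x ∈ T → InG ℓ x ∧ ∀ i, 0 ≤ x i ∧ x i < 1) {H : ℝ} (hH : 0 < H) :
    ∃ P : Finset (ι → ℚ), Pts ℓ a H P id ∧ (T.card : ℝ) * ∏ i, (H / (2 * a i)) ≤ P.card := by
  classical
  have a0 := h.pos
  choose r r1 r2 using fun i => exists_rat_btwn (show H / (2 * a i) < H / a i from
    div_lt_div_of_pos_left hH (a0 i) (by linarith [a0 i]))
  have r3 : ∀ i, (0 : ℝ) < r i := fun i => (div_pos hH (mul_pos two_pos (a0 i))).trans (r1 i)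
  have r0 : ∀ i, 0 < r i := fun i => Rat.cast_pos.1 (r3 i)
  have r4 : ∀ i, ((r i).den : ℚ) * r i = (r i).num := fun i => Rat.den_mul_eq_num _
  have h1 : Set.InjOn (fun (p : (ι → ℚ) × (ι → ℤ)) i => p.1 i + p.2 i)
      ↑(T ×ˢ Fintype.piFinset fun i => Ico (0 : ℤ) (r i).num) := fun p hp q hq e => by
    have k : p.1 = q.1 := funext fun i => eq_of_int ((hT _ (mem_product.1 hp).1).2 i)
      ((hT _ (mem_product.1 hq).1).2 i) (z := q.2 i - p.2 i)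
      (by push_cast; linear_combination congrFun e i)
    refine Prod.ext k (funext fun i => ?_)
    simpa [k] using congrFun e i
  obtain ⟨S, hS, s1⟩ : ∃ S : Finset (ι → ℚ), (S.card : ℝ) = T.card * ∏ i, ((r i).num : ℝ) ∧
      ∀ x ∈ S, InG ℓ x ∧ ∀ i, 0 ≤ x i ∧ x i < (r i).num := by
    refine ⟨image _ _, (congrArg _ (card_image_of_injOn h1)).trans ?_, fun x hx => ?_⟩
    · rw [card_product, Fintype.card_piFinset, Nat.cast_mul, Nat.cast_prod]
      refine congrArg _ (prod_congr rfl fun i _ => ?_)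
      rw [Int.card_Ico, sub_zero, ← Int.cast_natCast, Int.toNat_of_nonneg (Rat.num_pos.2 (r0 i)).le]
    · obtain ⟨p, hp, rfl⟩ := mem_image.1 hx
      obtain ⟨k1, k2⟩ := hT _ (mem_product.1 hp).1
      refine ⟨k1.add (h.inG_int p.2), fun i => ?_⟩
      obtain ⟨k3, k4⟩ := mem_Ico.1 (Fintype.mem_piFinset.1 (mem_product.1 hp).2 i)
      have k5 : (0 : ℚ) ≤ p.2 i := by exact_mod_cast k3
      have k6 : (p.2 i : ℚ) + 1 ≤ (r i).num := by exact_mod_cast k4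
      constructor <;> linarith [(k2 i).1, (k2 i).2]
  obtain ⟨c, -, hc⟩ := exists_le_card_fiber_of_nsmul_le_card_of_maps_to (s := S)
    (t := Fintype.piFinset fun i => Ico (0 : ℤ) (r i).den) (f := fun x i => ⌊x i / r i⌋)
    (b := (T.card : ℝ) * ∏ i, (r i : ℝ)) (fun x hx => Fintype.mem_piFinset.2 fun i =>
      mem_cell (r0 i) ((s1 x hx).2 i).1 (r4 i ▸ ((s1 x hx).2 i).2))
    ⟨0, Fintype.mem_piFinset.2 fun i => mem_Ico.2 ⟨le_rfl, Nat.cast_pos.2 (r i).den_pos⟩⟩ (by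
      rw [hS, Fintype.card_piFinset, nsmul_eq_mul, Nat.cast_prod, mul_left_comm, ← prod_mul_distrib]
      refine le_of_eq (congrArg _ (prod_congr rfl fun i _ => ?_))
      rw [Int.card_Ico, sub_zero, Int.toNat_natCast]
      exact_mod_cast r4 i)
  obtain ⟨x₀, hx₀⟩ := card_pos.1 (Nat.cast_pos.1 ((mul_pos (Nat.cast_pos.2 h0.card_pos)
    (prod_pos fun i _ => r3 i)).trans_le hc))
  have key : ∀ x ∈ S.filter (fun x => (fun i => ⌊x i / r i⌋) = c),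
      ∀ y ∈ S.filter (fun x => (fun i => ⌊x i / r i⌋) = c), ∀ i, |(x i : ℝ) - y i| * a i ≤ H :=
    fun x hx y hy i => (le_div_iff₀ (a0 i)).1 ((cell (r0 i)
      (congrFun ((mem_filter.1 hx).2.trans (mem_filter.1 hy).2.symm) i)).trans (r2 i).le)
  refine ⟨(S.filter fun x => (fun i => ⌊x i / r i⌋) = c).image (· - x₀),
    ⟨fun k hk => ?_, fun _ _ _ _ e => e, fun k hk i => ?_, fun k hk k' hk' i => ?_⟩, ?_⟩
  · obtain ⟨x, hx, rfl⟩ := mem_image.1 hk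
    exact (s1 x (mem_filter.1 hx).1).1.sub (s1 x₀ (mem_filter.1 hx₀).1).1
  · obtain ⟨x, hx, rfl⟩ := mem_image.1 hk
    simpa using key x hx x₀ hx₀ i
  · obtain ⟨x, hx, rfl⟩ := mem_image.1 hk
    obtain ⟨y, hy, rfl⟩ := mem_image.1 hk'
    simpa using key x hx y hy i
  · rw [card_image_of_injective _ sub_left_injective]
    refine le_trans (mul_le_mul_of_nonneg_left (prod_le_prod (fun i _ => ?_)
      fun i _ => (r1 i).le) (Nat.cast_nonneg _)) hc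
    exact (div_pos hH (mul_pos two_pos (a0 i))).le

end Lat

theorem stLat (hD : StDen) : StLat := by
  intro ι _ m u v ℓ a hm h hi
  obtain ⟨T, hT, k⟩ := Lat.fin hD hm h hi
  have h0 : T.Nonempty := ⟨0, (hT 0).2 ⟨InG.zero ℓ, fun _ => ⟨le_rfl, one_pos⟩⟩⟩
  exact ⟨T.card, h0.card_pos, k, Lat.den h hT, fun H hH => Lat.box h h0 (fun x => (hT x).1) hH⟩

end Pool.Agent.Lib.MP_4ffbf9_nt.MB
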