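import Pool.Agent.Lib.MP_4ffbf9_nt.MB.Defs

/-! Reduction to independent logarithms. -/

set_option autoImplicit false

namespace Pool.Agent.Lib.MP_4ffbf9_nt.MB

open Finset Polynomial

theorem red_ind {ι : Type} [Fintype ι] (ℓ a : ι → ℝ) (ha : ∀ i, 0 < a i) (n : ℕ) :
    ∀ (b : ι → ℚ) (M : ℝ), (univ.filter fun i => b i ≠ 0).card ≤ n →
      (∀ i, |(b i : ℝ)| * a i ≤ M) → ∃ β : ι → ℚ, lin ℓ β = lin ℓ b ∧
        (∀ i, |(β i : ℝ)| * a i ≤ 2 ^ n * M) ∧
        ∀ x : ι → ℚ, (∀ i, β i = 0 → x i = 0) → lin ℓ x = 0 → x = 0 := by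
  induction n with
  | zero =>
    intro b M hc hM
    refine ⟨b, rfl, fun i => by simpa using hM i, fun x hx _ => funext fun i => hx i ?_⟩
    by_contra h
    have : i ∈ univ.filter fun i => b i ≠ 0 := mem_filter.2 ⟨mem_univ _, h⟩
    rw [card_eq_zero.1 (Nat.le_zero.1 hc)] at this
    exact absurd this (notMem_empty _)
  | succ n ih =>
    intro b M hc hM
    by_cases h : ∀ x : ι → ℚ, (∀ i, b i = 0 → x i = 0) → lin ℓ x = 0 → x = 0
    · refine ⟨b, rfl, fun i => (hM i).trans ?_, h⟩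
      have h0 : 0 ≤ M := (mul_nonneg (abs_nonneg _) (ha i).le).trans (hM i)
      exact le_mul_of_one_le_left h0 (one_le_pow₀ one_le_two)
    · simp only [not_forall] at h
      obtain ⟨x, hx, hl, hne⟩ := h
      obtain ⟨i0, hi0⟩ := Function.ne_iff.1 hne
      obtain ⟨k, -, hk⟩ := exists_max_image univ (fun i => |(x i : ℝ)| * a i) ⟨i0, mem_univ _⟩
      have hxk : x k ≠ 0 := fun e => by
        have h1 := hk i0 (mem_univ _)
        have h2 : 0 < |(x i0 : ℝ)| * a i0 :=
          mul_pos (abs_pos.2 (Rat.cast_ne_zero.2 hi0)) (ha i0)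
        simp only [e, Rat.cast_zero, abs_zero, zero_mul] at h1
        exact absurd h1 (not_le.2 h2)
      have hbk : b k ≠ 0 := fun e => hxk (hx k e)
      obtain ⟨β, h1, h2, h3⟩ := ih (b - (b k / x k) • x) (2 * M) (by
        refine Nat.le_of_lt_succ (lt_of_lt_of_le (card_lt_card ⟨fun i hi => ?_, fun hs => ?_⟩) hc)
        · refine mem_filter.2 ⟨mem_univ _, fun e => (mem_filter.1 hi).2 ?_⟩
          simp [e, hx i e]
        · refine (mem_filter.1 (hs (mem_filter.2 ⟨mem_univ k, hbk⟩))).2 ?_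
          simp [div_mul_cancel₀ _ hxk]) (fun i => by
        have hp : (0 : ℝ) < |(x k : ℝ)| := abs_pos.2 (Rat.cast_ne_zero.2 hxk)
        have e1 : |(b k : ℝ) / x k * x i| * a i ≤ M := by
          rw [abs_mul, abs_div, mul_assoc]
          refine (mul_le_mul_of_nonneg_left (hk i (mem_univ _)) (by positivity)).trans ?_
          rw [← mul_assoc, div_mul_cancel₀ _ hp.ne']
          exact hM k
        have e2 : |(b i : ℝ) - (b k : ℝ) / x k * x i| * a i ≤
            (|(b i : ℝ)| + |(b k : ℝ) / x k * x i|) * a i :=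
          mul_le_mul_of_nonneg_right (abs_sub _ _) (ha i).le
        simp only [Pi.sub_apply, Pi.smul_apply, smul_eq_mul]
        push_cast
        linarith [hM i])
      refine ⟨β, by rw [h1, lin_sub, lin_smul, hl, mul_zero, sub_zero], fun i => ?_, h3⟩
      rw [pow_succ, mul_assoc]
      exact h2 i

theorem stRed : StRed := fun _ _ ℓ a b M ha hM =>
  red_ind ℓ a ha _ b M (card_le_univ _) hM

end Pool.Agent.Lib.MP_4ffbf9_nt.MB
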