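import Pool.Agent.Lib.MP_4ffbf9_nt.MB.Defs

/-! The gap between two products. -/

set_option autoImplicit false

namespace Pool.Agent.Lib.MP_4ffbf9_nt.MB

open Finset Polynomial

namespace Short

theorem gap {ε t : ℝ} (h0 : 0 < ε) (h1 : ε ≤ 1) (h : ε ≤ |t|) : ε / 2 ≤ |Real.exp t - 1| := by
  rcases le_abs.1 h with k | k
  · exact le_abs.2 (.inl (by linarith [Real.add_one_le_exp t]))
  · refine le_abs.2 (.inr ?_)
    have h2 := Real.add_one_le_exp (-t)
    have h3 : Real.exp t * Real.exp (-t) = 1 := by rw [← Real.exp_add, add_neg_cancel, Real.exp_zero]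
    have h4 := Real.exp_pos t
    have h5 : Real.exp t * (ε + 1) ≤ 1 := h3 ▸ mul_le_mul_of_nonneg_left (by linarith) h4.le
    nlinarith

theorem half {x : ℕ} (hx : 0 < x) : 1 / 2 ≤ Real.log (2 * x) ∧ Real.log x ≤ Real.log (2 * x) := by
  have h1 : (1 : ℝ) ≤ x := by exact_mod_cast hx
  rw [Real.log_mul two_ne_zero (by linarith)]
  constructor <;> linarith [Real.log_two_gt_d9, Real.log_nonneg h1]

theorem side {M θ K : ℝ} {x y : ℕ} (hθ : θ < 1) (hK : 1 ≤ K) (hk : 2 + 2 * |M| ≤ (1 - θ) * K)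
    (hx : 0 < x) (h : x ≤ y ∧ (y : ℝ) ≤ x + M * (x : ℝ) ^ θ) :
    Real.log ((y : ℝ) * x) ≤ (2 + 2 * |M|) * Real.log (2 * x) ∧
      Real.log y ≤ (2 + 2 * |M|) * Real.log (2 * x) ∧ |Real.log ((y : ℝ) / x)| ≤
        |M| * 2 ^ (1 - θ) * Real.exp (-((2 + 2 * |M|) * Real.log (2 * x) / K)) := by
  have hx' : (1 : ℝ) ≤ x := by exact_mod_cast hx
  have hxy : (x : ℝ) ≤ y := by exact_mod_cast h.1
  have hM := abs_nonneg M
  have lx := Real.log_nonneg hx'
  obtain ⟨l1, l2⟩ := half hx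
  have hp : (x : ℝ) ^ θ ≤ x := by simpa using Real.rpow_le_rpow_of_exponent_le hx' hθ.le
  have hp0 : 0 ≤ (x : ℝ) ^ θ := by positivity
  have hy1 : (y : ℝ) ≤ x + |M| * (x : ℝ) ^ θ :=
    h.2.trans (add_le_add_right (mul_le_mul_of_nonneg_right (le_abs_self M) hp0) _)
  have h1 : Real.log y ≤ |M| + Real.log x := by
    have : Real.log y ≤ Real.log ((1 + |M|) * x) :=
      Real.log_le_log (by linarith) (by nlinarith [mul_le_mul_of_nonneg_left hp hM])
    rw [Real.log_mul (by linarith) (by linarith)] at this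
    linarith [Real.log_le_sub_one_of_pos (show 0 < 1 + |M| by linarith)]
  have h2 : Real.log y + Real.log x ≤ (2 + 2 * |M|) * Real.log (2 * x) := by nlinarith
  refine ⟨by rwa [Real.log_mul (by linarith) (by linarith)], by linarith, ?_⟩
  rw [abs_of_nonneg (Real.log_nonneg ((one_le_div (by linarith)).2 hxy))]
  refine (Real.log_le_sub_one_of_pos (div_pos (by linarith) (by linarith))).trans ?_
  have e : (2 : ℝ) ^ (1 - θ) * Real.exp (-((1 - θ) * Real.log (2 * x))) = (x : ℝ) ^ θ / x := by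
    rw [Real.rpow_def_of_pos two_pos, Real.rpow_def_of_pos (by linarith), eq_div_iff (by linarith),
      Real.log_mul two_ne_zero (by linarith)]
    conv_lhs => rw [← Real.exp_log (by linarith : (0 : ℝ) < x)]
    rw [← Real.exp_add, ← Real.exp_add, Real.log_exp]
    congr 1
    ring
  calc (y : ℝ) / x - 1 ≤ |M| * ((x : ℝ) ^ θ / x) := by
        rw [← mul_div_assoc, sub_le_iff_le_add, div_add_one (by linarith)]
        exact div_le_div_of_nonneg_right (by linarith) (by linarith)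
    _ ≤ _ := by
        rw [← e, mul_assoc]
        gcongr
        rw [div_le_iff₀ (by linarith)]
        nlinarith

theorem log_prod {R x : ℕ} {v r : Fin R → ℕ} (hx : 0 < x) (h : ∀ i, x ≤ v i) :
    Real.log ((∏ i, v i ^ r i : ℕ) : ℝ) = ∑ i, (r i : ℝ) * Real.log (v i) ∧
      Real.log ((∏ i, v i ^ r i : ℕ) : ℝ) =
        (∑ i, r i : ℕ) * Real.log x + ∑ i, (r i : ℝ) * Real.log ((v i : ℝ) / x) := by
  have hv : ∀ i, (0 : ℝ) < v i := fun i => by exact_mod_cast hx.trans_le (h i)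
  have e : Real.log ((∏ i, v i ^ r i : ℕ) : ℝ) = ∑ i, (r i : ℝ) * Real.log (v i) := by
    push_cast
    rw [Real.log_prod fun i _ => (pow_pos (hv i) _).ne']
    exact sum_congr rfl fun i _ => Real.log_pow _ _
  refine ⟨e, ?_⟩
  rw [e, Nat.cast_sum, sum_mul, ← sum_add_distrib]
  exact sum_congr rfl fun i _ => by
    rw [Real.log_div (hv i).ne' (Nat.cast_ne_zero.2 hx.ne')]
    ring

/-- The application of the lower bound. -/
theorem app (hM : StMain) (R : ℕ) {K : ℝ} (hK : 1 ≤ K) : ∃ c : ℝ, 0 < c ∧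
    ∀ (A D x z : ℕ) (v r w s : Fin R → ℕ) (a0 ax az B : ℝ), 0 < A → 0 < D → 0 < x → 0 < z →
    (∀ i, x ≤ v i) → (∀ i, z ≤ w i) → Real.log ((A : ℝ) * D) ≤ a0 → Real.log x ≤ ax →
    Real.log z ≤ az → 1 ≤ a0 → 1 ≤ ax → 1 ≤ az → 3 ≤ B →
    (∀ i, Real.log ((v i : ℝ) * x) ≤ ax ∧ |Real.log ((v i : ℝ) / x)| ≤ B * Real.exp (-(ax / K))) →
    (∀ i, Real.log ((w i : ℝ) * z) ≤ az ∧ |Real.log ((w i : ℝ) / z)| ≤ B * Real.exp (-(az / K))) →
    a0 * (∑ i, r i : ℕ) ≤ B → a0 * (∑ i, s i : ℕ) ≤ B → ax ≤ (∑ i, s i : ℕ) → az ≤ (∑ i, r i : ℕ) →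
    ∀ t : ℝ, t = Real.log ((A : ℝ) / D) + Real.log ((∏ i, v i ^ r i : ℕ) : ℝ) -
      Real.log ((∏ i, w i ^ s i : ℕ) : ℝ) → t ≠ 0 →
    Real.exp (-(c * (a0 * ax * az) * Real.log B ^ (4 * R + 2))) ≤ |t| := by
  classical
  obtain ⟨c, c0, hc⟩ := hM (3 + (R + R)) K hK
  refine ⟨c, c0, fun A D x z v r w s a0 ax az B hA hD hx hz hv hw h0 h1 h2 k0 k1 k2 hB sv sw b1 b2
    b3 b4 t ht t0 => ?_⟩
  have n1 : ((∑ i, r i : ℕ) : ℝ) ≤ B := (le_mul_of_one_le_left (Nat.cast_nonneg _) k0).trans b1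
  have n2 : ((∑ i, s i : ℕ) : ℝ) ≤ B := (le_mul_of_one_le_left (Nat.cast_nonneg _) k0).trans b2
  have m1 : ∀ i, (r i : ℝ) ≤ B := fun i =>
    (Nat.cast_le.2 (single_le_sum (fun _ _ => Nat.zero_le _) (mem_univ i))).trans n1
  have m2 : ∀ i, (s i : ℝ) ≤ B := fun i =>
    (Nat.cast_le.2 (single_le_sum (fun _ _ => Nat.zero_le _) (mem_univ i))).trans n2
  let u : Fin 3 ⊕ (Fin R ⊕ Fin R) → ℕ := Sum.elim ![A, x, z] (Sum.elim v w)
  let u' : Fin 3 ⊕ (Fin R ⊕ Fin R) → ℕ := Sum.elim ![D, 1, 1] (Sum.elim (fun _ => x) fun _ => z)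
  let a : Fin 3 ⊕ (Fin R ⊕ Fin R) → ℝ := Sum.elim ![a0, ax, az] (Sum.elim (fun _ => ax) fun _ => az)
  let b : Fin 3 ⊕ (Fin R ⊕ Fin R) → ℤ := Sum.elim ![1, (∑ i, r i : ℕ), -(∑ i, s i : ℕ)]
    (Sum.elim (fun i => r i) fun i => -s i)
  have e : ∑ i, (b i : ℝ) * Real.log ((u i : ℝ) / u' i) = t := by
    rw [ht, (log_prod hx hv).2, (log_prod hz hw).2]
    simp [b, u, u', Fin.sum_univ_three]
    ring
  have key : ∀ o : Fin 3, ∏ i ∈ (insert (.inl o) (univ.map .inr))ᶜ, a i ≤ B → ax ≤ a (.inl o) →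
      az ≤ a (.inl o) → a (.inl o) ≤ B →
      Real.exp (-(c * (a0 * ax * az) * Real.log B ^ (4 * R + 2))) ≤ |t| := fun o o1 o2 o3 o4 => by
    have := hc _ u u' (fun i => Real.log ((u i : ℝ) / u' i)) a b (.inl o) (univ.map .inr) B
      (by simp) ⟨?_, ?_, fun _ => rfl, ?_, ?_⟩ (by simp) hB ?_ o1 ?_ (e ▸ t0)
    · rw [e, ← Fintype.prod_ite_mem, card_map] at this
      convert this using 5
      · simp [a, Fin.prod_univ_three]
      · simp
        ring
    · rintro (i | i | i)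
      · fin_cases i <;> assumption
      exacts [hx.trans_le (hv i), hz.trans_le (hw i)]
    · rintro (i | i | i)
      · fin_cases i <;> simp [u', hD]
      exacts [hx, hz]
    · rintro (i | i | i)
      · fin_cases i <;> simpa [u, u', a]
      exacts [(sv i).1, (sw i).1]
    · rintro (i | i | i)
      · fin_cases i <;> assumption
      exacts [k1, k2]
    · rintro (i | i | i)
      · fin_cases i
        · simp [b]
          linarith
        · exact (show |(((∑ i, r i : ℕ) : ℤ) : ℝ)| = _ by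
            rw [Int.cast_natCast, Nat.abs_cast]).trans_le n1
        · exact (show |((-(∑ i, s i : ℕ) : ℤ) : ℝ)| = _ by
            rw [Int.cast_neg, abs_neg, Int.cast_natCast, Nat.abs_cast]).trans_le n2
      · simpa [b] using m1 i
      · simpa [b] using m2 i
    · intro i hi
      obtain ⟨j | j, -, rfl⟩ := mem_map.1 hi
      · exact ⟨o2, o4.trans (le_mul_of_one_le_right (by linarith) k1), (sv j).2⟩
      · exact ⟨o3, o4.trans (le_mul_of_one_le_right (by linarith) k2), (sw j).2⟩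
  rcases le_total az ax with k | k
  · refine key 1 ?_ le_rfl k (b3.trans n2)
    rw [← Fintype.prod_ite_mem]
    simpa [a, Fin.prod_univ_three] using (mul_le_mul_of_nonneg_left b4 (by linarith)).trans b1
  · refine key 2 ?_ k le_rfl (b4.trans n1)
    rw [← Fintype.prod_ite_mem]
    simpa [a, Fin.prod_univ_three] using (mul_le_mul_of_nonneg_left b3 (by linarith)).trans b2

end Short

theorem stShort (hM : StMain) : StShort := by
  intro R M θ hθ
  have hμ := abs_nonneg M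
  obtain ⟨k, hk⟩ : ∃ k, k = 2 + 2 * |M| := ⟨_, rfl⟩
  obtain ⟨c1, hc1⟩ : ∃ c1, c1 = 3 + |M| * 2 ^ (1 - θ) := ⟨_, rfl⟩
  have c3 : 0 ≤ |M| * 2 ^ (1 - θ) := by positivity
  have k2 : 2 ≤ k := by linarith
  have hK := le_max_left 1 (k / (1 - θ))
  have hK' : k ≤ (1 - θ) * max 1 (k / (1 - θ)) :=
    (div_le_iff₀' (by linarith)).1 (le_max_right _ _)
  generalize max 1 (k / (1 - θ)) = K at hK hK'
  obtain ⟨c, c0, hc⟩ := Short.app hM R hK
  have p0 : 0 ≤ c * k ^ 2 * (c1 + 2) ^ (4 * R + 2) := by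
    have : 0 ≤ c1 := by linarith
    positivity
  refine ⟨c * k ^ 2 * (c1 + 2) ^ (4 * R + 2) + 4 + k ^ 2, by positivity,
    fun A D x z X Z n m v r w s hA hD hx hz hv hw hX hZ hn hm ne => ?_⟩
  have sv := fun i => Short.side hθ hK (hk ▸ hK') hx (hv i)
  have sw := fun i => Short.side hθ hK (hk ▸ hK') hz (hw i)
  rw [← hk] at sv sw
  obtain ⟨x1, x2⟩ := Short.half hx
  obtain ⟨z1, z2⟩ := Short.half hz
  have A1 : (1 : ℝ) ≤ A := by exact_mod_cast hA
  have D1 : (1 : ℝ) ≤ D := by exact_mod_cast hD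
  have X1 : (1 : ℝ) ≤ X := by
    exact_mod_cast hX ▸ prod_pos fun i _ => pow_pos (hx.trans_le (hv i).1) _
  have Z1 : (1 : ℝ) ≤ Z := by
    exact_mod_cast hZ ▸ prod_pos fun i _ => pow_pos (hz.trans_le (hw i).1) _
  have lX : Real.log X ≤ n * (k * Real.log (2 * x)) := by
    rw [hX, (Short.log_prod hx fun i => (hv i).1).1, hn, Nat.cast_sum, sum_mul]
    exact sum_le_sum fun i _ => mul_le_mul_of_nonneg_left (sv i).2.1 (Nat.cast_nonneg _)
  have lZ : Real.log Z ≤ m * (k * Real.log (2 * z)) := by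
    rw [hZ, (Short.log_prod hz fun i => (hw i).1).1, hm, Nat.cast_sum, sum_mul]
    exact sum_le_sum fun i _ => mul_le_mul_of_nonneg_left (sw i).2.1 (Nat.cast_nonneg _)
  have lA := Real.log_nonneg A1
  have lD := Real.log_nonneg D1
  have lAD : Real.log ((A : ℝ) * D) = Real.log A + Real.log D :=
    Real.log_mul (by linarith) (by linarith)
  have one : (1 : ℝ) ≤ |(A : ℝ) * X - D * Z| := by
    exact_mod_cast Int.one_le_abs (z := (A : ℤ) * X - D * Z) (sub_ne_zero.2 (by exact_mod_cast ne))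
  have app := hc A D x z v r w s (1 + Real.log ((A : ℝ) * D)) (k * Real.log (2 * x))
    (k * Real.log (2 * z)) ((1 + Real.log ((A : ℝ) * D)) * (n + m) + c1) hA hD hx hz
    (fun i => (hv i).1) fun i => (hw i).1
  rw [← hX, ← hZ, ← hn, ← hm] at app
  have n0 : (0 : ℝ) ≤ n := Nat.cast_nonneg _
  have m0 : (0 : ℝ) ≤ m := Nat.cast_nonneg _
  have g0 : 0 ≤ Real.log ((A : ℝ) * D) := by linarith
  generalize Real.log ((A : ℝ) * D) = g at *
  have x0 := Real.log_natCast_nonneg x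
  have z0 := Real.log_natCast_nonneg z
  generalize Real.log (2 * x) = p at *
  generalize Real.log (2 * z) = q at *
  have Y1 : 1 ≤ Real.log (n + m + g + 3) := by
    rw [Real.le_log_iff_exp_le (by linarith)]
    linarith [Real.exp_one_lt_d9]
  have B0 : 0 ≤ (1 + g) * (n + m) := by positivity
  have LB : Real.log ((1 + g) * (n + m) + c1) ≤ (c1 + 2) * Real.log (n + m + g + 3) := by
    have h1 : Real.log ((1 + g) * (n + m) + c1) ≤ Real.log ((1 + c1) * (n + m + g + 3) ^ 2) :=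
      Real.log_le_log (by linarith) (by
        have : 1 ≤ ((n : ℝ) + m + g + 3) ^ 2 := one_le_pow₀ (by linarith)
        nlinarith [mul_le_mul_of_nonneg_left this (show 0 ≤ c1 by linarith)])
    rw [Real.log_mul (by linarith) (by positivity), Real.log_pow] at h1
    have := Real.log_le_sub_one_of_pos (show 0 < 1 + c1 by linarith)
    push_cast at h1
    nlinarith
  have LB0 : 0 ≤ Real.log ((1 + g) * (n + m) + c1) := Real.log_nonneg (by linarith)
  have Y2 : 1 ≤ Real.log (n + m + g + 3) ^ (4 * R + 2) := one_le_pow₀ Y1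
  have pq : 1 / 4 ≤ p * q := by nlinarith
  have T1 : p * q ≤ (1 + g) * p * q * Real.log (n + m + g + 3) ^ (4 * R + 2) := by
    have : p * q ≤ (1 + g) * p * q := by nlinarith
    exact this.trans (le_mul_of_one_le_right (by linarith) Y2)
  have T2 : 1 + g ≤ 4 * ((1 + g) * p * q * Real.log (n + m + g + 3) ^ (4 * R + 2)) := by
    have : 1 + g ≤ 4 * ((1 + g) * p * q) := by nlinarith
    exact this.trans (mul_le_mul_of_nonneg_left (le_mul_of_one_le_right (by linarith) Y2)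
      (by norm_num))
  have T3 : c * ((1 + g) * (k * p) * (k * q)) * Real.log ((1 + g) * (n + m) + c1) ^ (4 * R + 2) ≤
      c * k ^ 2 * (c1 + 2) ^ (4 * R + 2) *
        ((1 + g) * p * q * Real.log (n + m + g + 3) ^ (4 * R + 2)) := by
    have p0 : 0 ≤ p := by linarith
    have q0 : 0 ≤ q := by linarith
    have k0 : 0 ≤ k := by linarith
    refine (mul_le_mul_of_nonneg_left (pow_le_pow_left₀ LB0 LB _) (by positivity)).trans_eq ?_
    rw [mul_pow]
    ring
  rw [show ∀ a b : ℝ, a * (1 + g) * p * q * b = a * ((1 + g) * p * q * b) from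
    fun a b => by ring]
  generalize (1 + g) * p * q * Real.log (n + m + g + 3) ^ (4 * R + 2) = T at *
  generalize c * k ^ 2 * (c1 + 2) ^ (4 * R + 2) = c2 at *
  have T0 : 0 ≤ T := by linarith
  have T4 := mul_le_mul_of_nonneg_left T1 (sq_nonneg k)
  have T5 := mul_nonneg p0 T0
  have T6 := mul_nonneg (sq_nonneg k) T0
  have DZ : (0 : ℝ) < D * Z := by positivity
  have kp : 1 ≤ k * p := by nlinarith
  have kq : 1 ≤ k * q := by nlinarith
  have triv : Real.log (D * Z) ≤ 1 + g + k * p * (k * q) →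
      D * Z * Real.exp (-((c2 + 4 + k ^ 2) * T)) ≤ |(A : ℝ) * X - D * Z| := fun h => by
    refine le_trans ?_ one
    rw [← Real.exp_log DZ, ← Real.exp_add, Real.exp_le_one_iff]
    linarith
  have e2 : ∀ V : ℝ, V + 1 ≤ (c2 + 4 + k ^ 2) * T →
      Real.exp (-((c2 + 4 + k ^ 2) * T)) ≤ Real.exp (-V) / 2 := fun V h => by
    refine (Real.exp_le_exp.2 (show _ ≤ -V - 1 by linarith)).trans ?_
    rw [Real.exp_sub]
    exact div_le_div_of_nonneg_left (Real.exp_pos _).le two_pos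
      (by linarith [Real.add_one_le_exp 1])
  rcases lt_or_ge (m : ℝ) (k * p) with h1 | h1
  · refine triv ?_
    rw [Real.log_mul (by linarith) (by linarith)]
    linarith [mul_le_mul_of_nonneg_right h1.le (show 0 ≤ k * q by linarith)]
  rcases lt_or_ge (n : ℝ) (k * q) with h2 | h2
  · rcases le_or_gt ((D : ℝ) * Z) (2 * (A * X)) with h3 | h3
    · refine triv ((Real.log_le_log DZ h3).trans ?_)
      rw [Real.log_mul two_ne_zero (by positivity), Real.log_mul (by linarith) (by linarith)]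
      linarith [mul_le_mul_of_nonneg_right h2.le (show 0 ≤ k * p by linarith), Real.log_two_lt_d9]
    · refine (mul_le_mul_of_nonneg_left (e2 0 (by linarith)) DZ.le).trans (le_abs.2 (.inr ?_))
      rw [neg_zero, Real.exp_zero]
      linarith
  have ex : Real.exp (Real.log ((A : ℝ) / D) + Real.log X - Real.log Z) = A * X / (D * Z) := by
    rw [Real.exp_sub, Real.exp_add, Real.exp_log (by positivity), Real.exp_log (by linarith),
      Real.exp_log (by linarith)]
    field_simp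
  have cB : ∀ t : ℝ, |M| * 2 ^ (1 - θ) * Real.exp t ≤ ((1 + g) * (n + m) + c1) * Real.exp t :=
    fun t => mul_le_mul_of_nonneg_right (by linarith) (Real.exp_pos t).le
  have h3 := app (by linarith) (by nlinarith) (by nlinarith) (by linarith) kp kq (by linarith)
    (fun i => ⟨(sv i).1, (sv i).2.2.trans (cB _)⟩) (fun i => ⟨(sw i).1, (sw i).2.2.trans (cB _)⟩)
    (by nlinarith) (by nlinarith) h1 h2 _ rfl fun h => by
      rw [h, Real.exp_zero, eq_div_iff DZ.ne', one_mul] at ex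
      exact ne (by exact_mod_cast ex.symm)
  have h4 := Short.gap (Real.exp_pos _) (Real.exp_le_one_iff.2 (neg_nonpos.2 (by positivity))) h3
  rw [ex, div_sub_one DZ.ne', abs_div, abs_of_pos DZ, le_div_iff₀' DZ] at h4
  exact (mul_le_mul_of_nonneg_left (e2 _ (by linarith)) DZ.le).trans h4

end Pool.Agent.Lib.MP_4ffbf9_nt.MB
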