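import Pool.Agent.Lib.MP_4ffbf9_nt.MB.Defs

/-! The auxiliary function. -/

set_option autoImplicit false

namespace Pool.Agent.Lib.MP_4ffbf9_nt.MB

open Finset Polynomial

namespace Start

attribute [local instance] Matrix.seminormedAddCommGroup

theorem siegel {α β : Type} [Fintype α] [Fintype β] (A : α → β → ℤ) {M : ℝ} (hM : 1 ≤ M)
    (hA : ∀ i j, |(A i j : ℝ)| ≤ M) (h0 : 0 < Fintype.card α)
    (h2 : Fintype.card β = 2 * Fintype.card α) : ∃ t : β → ℤ, t ≠ 0 ∧
      (∀ i, ∑ j, A i j * t j = 0) ∧ ∀ j, |(t j : ℝ)| ≤ Fintype.card β * M := by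
  obtain ⟨t, t0, t1, t2⟩ := Int.Matrix.exists_ne_zero_int_vec_norm_le (Matrix.of A) (by omega) h0
  refine ⟨t, t0, fun i => congrFun t1 i, fun j => ?_⟩
  have h1 : (Fintype.card α : ℝ) / (Fintype.card β - Fintype.card α) = 1 := by
    have : (0 : ℝ) < Fintype.card α := Nat.cast_pos.2 h0
    rw [h2]
    push_cast
    rw [div_eq_one_iff_eq (by linarith)]
    ring
  rw [h1, Real.rpow_one] at t2
  have h3 : ‖Matrix.of A‖ ≤ M := (Matrix.norm_le_iff (by linarith)).2 fun i j => by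
    rw [Matrix.of_apply, Int.norm_eq_abs]
    exact hA i j
  have h4 := norm_le_pi_norm t j
  rw [Int.norm_eq_abs] at h4
  exact h4.trans (t2.trans (mul_le_mul_of_nonneg_left (max_le hM h3) (Nat.cast_nonneg _)))

end Start

theorem stStart (hD : StDen) (hV : StVan) : StStart := by
  intro ι κ _ m N u v ℓ a β e P₀ lam S D x g hc hP hS hg ha hx hSx hcard hE hb
  classical
  obtain ⟨P₁, p1, p2⟩ := exists_subset_card_eq hcard
  obtain ⟨Dn, hDn⟩ : ∃ Dn : ℝ, Dn = ∏ i, ((u i : ℝ) * v i) ^ ⌈2 * g / a i⌉₊ := ⟨_, rfl⟩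
  have d0 : 0 < Dn := hDn ▸ prod_pos fun i _ =>
    pow_pos (mul_pos (Nat.cast_pos.2 (hc.num.hu i)) (Nat.cast_pos.2 (hc.num.hv i))) _
  have d1 : Dn ≤ Real.exp (3 * m * g) := hDn ▸ hc.num.prod_le hc.card (by linarith) ha
  have hj : ∀ j : Fin S, (2 * (j : ℕ) + 1 : ℝ) * x ≤ 2 * g := fun j => by
    have : ((j : ℕ) : ℝ) + 1 ≤ S := by exact_mod_cast j.2
    nlinarith
  have ex : ∀ (r : Fin S × ∀ i, Fin (D i + 1)) (k : P₁), ∃ z : ℤ, (z : ℝ) =
      Dn * Real.exp ((2 * (r.1 : ℕ) + 1) * lin ℓ (lam k)) *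
        ∏ i, bin (yy N β e (lam k) i) (r.2 i) := fun r k => by
    have hk := hP.mem k (p1 k.2)
    obtain ⟨z, hz⟩ := (hD ι u v ℓ a hc.num).1 _ (fun i => ⌈2 * g / a i⌉₊)
      (hk.zsmul (2 * (r.1 : ℕ) + 1 : ℕ)) fun i => by
        refine le_trans ?_ (Nat.le_ceil _)
        rw [le_div_iff₀ (hc.num.pos i), Pi.smul_apply, smul_eq_mul]
        push_cast
        rw [abs_mul, abs_of_nonneg (by positivity), mul_assoc]
        exact (mul_le_mul_of_nonneg_left (hP.box k (p1 k.2) i) (by positivity)).trans (hj r.1)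
    choose y hy using hc.yy_int hk
    choose n hn using fun i => bin_int (y i) (r.2 i)
    refine ⟨z * ∏ i, n i, ?_⟩
    rw [lin_smul, ← hDn] at hz
    push_cast at hz ⊢
    simp only [← hz, hy, hn]
  choose A hA using ex
  have c1 : Fintype.card (Fin S × ∀ i, Fin (D i + 1)) = S * ∏ i, (D i + 1) := by simp
  have c2 : Fintype.card P₁ = 2 * (S * ∏ i, (D i + 1)) := by rw [Fintype.card_coe, p2]
  have g0 : (0 : ℝ) ≤ m * g := by positivity
  obtain ⟨t, t0, t1, t2⟩ := Start.siegel A (M := Real.exp ((5 * m + 1) * g))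
    (Real.one_le_exp (by positivity)) (fun r k => by
      have h1 := hc.num.abs_lin_le hc.card hx (hP.box k (p1 k.2))
      have h2 : (2 * (r.1 : ℕ) + 1) * lin ℓ (lam k) ≤ 2 * m * g := by
        refine (mul_le_mul_of_nonneg_left ((le_abs_self _).trans h1) (by positivity)).trans ?_
        nlinarith [mul_le_mul_of_nonneg_left (hj r.1) (Nat.cast_nonneg (α := ℝ) m)]
      rw [hA, abs_mul, abs_of_pos (by positivity), show (5 * m + 1) * g =
        3 * m * g + 2 * m * g + g by ring, Real.exp_add, Real.exp_add]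
      exact mul_le_mul (mul_le_mul d1 (Real.exp_le_exp.2 h2) (by positivity) (by positivity))
        (hb k (p1 k.2) (fun i => r.2 i) fun i => Nat.lt_succ_iff.1 (r.2 i).2) (abs_nonneg _)
        (by positivity))
    (by rw [c1]; positivity) (by rw [c1, c2])
  rw [c2] at t2
  let p : κ → ℤ := fun k => if h : k ∈ P₁ then t ⟨k, h⟩ else 0
  have hp : ∀ k : P₁, p k = t k := fun k => dif_pos k.2
  have hs : ∀ F : κ → ℝ, ∑ k ∈ P₁ with p k ≠ 0, (p k : ℝ) * F k = ∑ k : P₁, t k * F k :=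
    fun F => by
    rw [sum_filter_of_ne (f := fun k => (p k : ℝ) * F k) (p := fun k => p k ≠ 0)
      fun k _ h e => h (by rw [e, Int.cast_zero, zero_mul]), ← sum_coe_sort]
    simp only [hp]
  refine ⟨P₁.filter fun k => p k ≠ 0, p, (filter_subset _ _).trans p1, ?_,
    fun k hk => (mem_filter.1 hk).2, ?_, fun j hj => (hV ι κ _ _ _ D).1 fun d hd => ?_⟩
  · obtain ⟨k, hk⟩ := Function.ne_iff.1 t0
    exact ⟨k, mem_filter.2 ⟨k.2, (hp k).trans_ne hk⟩⟩
  · refine (sum_le_card_nsmul _ _ (Real.exp (2 * g) * Real.exp ((5 * m + 1) * g))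
      fun k hk => ?_).trans ?_
    · rw [hp ⟨k, (mem_filter.1 hk).1⟩]
      exact (t2 _).trans (mul_le_mul_of_nonneg_right hE (by positivity))
    · rw [nsmul_eq_mul, show (5 * m + 5) * g = 2 * g + (2 * g + (5 * m + 1) * g) by ring,
        Real.exp_add, Real.exp_add]
      exact mul_le_mul_of_nonneg_right
        ((Nat.cast_le.2 ((card_filter_le _ _).trans p2.le)).trans hE) (by positivity)
  · have h1 := congrArg (Int.cast : ℤ → ℝ) (t1 (⟨j, hj⟩, fun i => ⟨d i, Nat.lt_succ_of_le (hd i)⟩))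
    push_cast at h1
    simp only [hA] at h1
    simp only [mul_assoc]
    rw [hs]
    refine (mul_eq_zero.1 ?_).resolve_left d0.ne'
    rw [← h1, mul_sum]
    exact sum_congr rfl fun k _ => by ring

end Pool.Agent.Lib.MP_4ffbf9_nt.MB
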