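import Pool.Agent.Lib.MP_4ffbf9_nt.MB.Defs

/-! One step of the descent. -/

set_option autoImplicit false

namespace Pool.Agent.Lib.MP_4ffbf9_nt.MB

open Finset Polynomial

namespace Step

variable {ι : Type} [Fintype ι]

theorem half_iff {ℓ : ι → ℝ} {x x' : ι → ℚ} (hx : InG ℓ x) (hx' : InG ℓ x') (j : ℕ) {A : ℝ}
    (hA : 0 < A) : (InG ℓ fun i => (x i - x' i) / 2) ↔ ∃ r : ℚ,
      A * Real.exp ((2 * j + 1) / 2 * lin ℓ x) =
        r * (A * Real.exp ((2 * j + 1) / 2 * lin ℓ x')) := by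
  rw [InG, lin_half]
  constructor
  · rintro ⟨q, hq⟩
    refine ⟨q ^ (2 * j + 1), ?_⟩
    rw [Rat.cast_pow, ← hq, ← Real.exp_nat_mul, mul_left_comm, ← Real.exp_add]
    congr 2
    push_cast
    ring
  · rintro ⟨r, hr⟩
    obtain ⟨s, hs⟩ := hx.sub hx'
    refine ⟨r / s ^ j, ?_⟩
    rw [mul_left_comm] at hr
    rw [Rat.cast_div, Rat.cast_pow, ← hs, ← Real.exp_nat_mul, eq_div_iff (Real.exp_pos _).ne',
      ← Real.exp_add, lin_sub]
    refine mul_right_cancel₀ (Real.exp_pos ((2 * j + 1) / 2 * lin ℓ x')).ne' ?_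
    rw [← mul_left_cancel₀ hA.ne' hr, ← Real.exp_add]
    congr 1
    ring

omit [Fintype ι] in
theorem gamma_yy {N : ℕ} (hN : 1 ≤ N) (ℓ : ι → ℝ) {β : ι → ℚ} {e : ι} (he : β e ≠ 0)
    (x : ι → ℚ) (i : ι) : ℓ i / ((N : ℝ) ^ 2 * β e) * yy N β e x i =
      ℓ i * ((x i : ℝ) - β i * x e / β e) := by
  have h1 : (N : ℝ) ≠ 0 := Nat.cast_ne_zero.2 (by omega)
  have h2 : (β e : ℝ) ≠ 0 := Rat.cast_ne_zero.2 he
  rw [yy]
  field_simp

theorem lin_split [DecidableEq ι] (ℓ : ι → ℝ) {β : ι → ℚ} {e : ι} (he : β e ≠ 0)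
    (Nn : Finset ι) (x : ι → ℚ) :
    lin ℓ x = ∑ i ∈ Nnᶜ.erase e, ℓ i * ((x i : ℝ) - β i * x e / β e) +
      ∑ i ∈ Nn, ℓ i * ((x i : ℝ) - β i * x e / β e) + (x e : ℝ) * lin ℓ β / β e := by
  have h2 : (β e : ℝ) ≠ 0 := Rat.cast_ne_zero.2 he
  rw [sum_erase _ (by rw [mul_div_cancel_left₀ _ h2, sub_self, mul_zero]), sum_compl_add_sum,
    lin, lin, mul_sum, sum_div, ← sum_add_distrib]
  exact sum_congr rfl fun i _ => by ring

theorem final {m : ℕ} {g c st sx A s : ℝ} (hg : 1 ≤ g) (hc : (cc m : ℝ) ≤ c) (h1 : c * g ≤ st)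
    (h2 : st ≤ (c + 2 * m) * g) (h3 : sx ≤ m * g) (hA : A ≤ Real.exp (3 * m * g))
    (hs : s ≤ Real.exp ((5 * m + 6) * g)) (h0 : 0 ≤ s) :
    A * (Real.exp ((8 * m + 6 - 10 * c) * g) * Real.exp (8 * st) + s * Real.exp (8 * sx - st)) *
      Real.exp ((10 * m + 6) * g) ^ 2 ^ 2 ^ m < 1 := by
  rw [cc] at hc
  push_cast at hc
  have hm : (0 : ℝ) ≤ m := Nat.cast_nonneg m
  rw [← Real.exp_nat_mul]
  push_cast
  have hd : (0 : ℝ) ≤ 2 ^ 2 ^ m * (10 * m + 6) := by positivity
  rw [← mul_assoc]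
  generalize (2 : ℝ) ^ 2 ^ m * (10 * m + 6) = d at hc hd
  have h4 : Real.exp (3 * m * g) * (Real.exp ((8 * m + 6 - 10 * c) * g) * Real.exp (8 * st)) *
      Real.exp (d * g) ≤ Real.exp (-1) := by
    simp only [← Real.exp_add]
    refine Real.exp_le_exp.2 ?_
    have : (27 * m + 6 - 2 * c + d) * g ≤ -1 * g :=
      mul_le_mul_of_nonneg_right (by nlinarith [sq_nonneg (m : ℝ)]) (by linarith)
    linarith
  have h5 : Real.exp (3 * m * g) * (Real.exp ((5 * m + 6) * g) * Real.exp (8 * sx - st)) *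
      Real.exp (d * g) ≤ Real.exp (-1) := by
    simp only [← Real.exp_add]
    refine Real.exp_le_exp.2 ?_
    have : (16 * m + 6 - c + d) * g ≤ -1 * g :=
      mul_le_mul_of_nonneg_right (by nlinarith [sq_nonneg (m : ℝ)]) (by linarith)
    linarith
  have h6 : Real.exp (-1) < 1 / 2 := by
    rw [Real.exp_neg, one_div]
    exact inv_strictAnti₀ two_pos (by linarith [Real.add_one_lt_exp (x := 1) one_ne_zero])
  calc _ ≤ Real.exp (3 * m * g) * (Real.exp ((8 * m + 6 - 10 * c) * g) * Real.exp (8 * st) +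
        Real.exp ((5 * m + 6) * g) * Real.exp (8 * sx - st)) * Real.exp (d * g) := by gcongr
    _ < 1 := by
      rw [mul_add, add_mul]
      linarith

end Step

theorem stStep (hI : StInterp) (hK : StKL) (hD : StDen) (hC : StCls) (hV : StVan)
    (hE : StExp) : StStep := by
  intro ι κ _ m N u v ℓ a β e Nn P lam p S t D D' τ x g c hX heN hP hvan hg hag hx hS hc hct htc
    h4t hp hbin hDD hDF hDN hnear hdel k₀ hk₀ P' hP' j hj
  classical
  have hm : (1 : ℝ) ≤ m := Nat.one_le_cast.2 hX.m_pos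
  have hg0 : 0 ≤ g := by linarith
  have hc0 : 0 ≤ c := (Nat.cast_nonneg _).trans hc
  have hmx : 0 ≤ m * x := by positivity
  have ht : 1 ≤ t := Nat.cast_pos.1 (show (0 : ℝ) < t by linarith)
  have hl : ∀ k ∈ P, |lin ℓ (lam k)| ≤ m * x := fun k hk =>
    hX.num.abs_lin_le hX.card hx (hP.box k hk)
  have hz : ∀ z : ℝ, 0 ≤ z → z ≤ 2 * S → ∀ k ∈ P,
      Real.exp (z * lin ℓ (lam k)) ≤ Real.exp (2 * m * g) := fun z h0 h1 k hk => by
    refine Real.exp_le_exp.2 ((mul_le_mul_of_nonneg_left ((le_abs_self _).trans (hl k hk))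
      h0).trans ((mul_le_mul_of_nonneg_right h1 hmx).trans ?_))
    nlinarith
  have hcard : (Nn.card : ℝ) + 1 ≤ m := by
    have := (card_insert_of_notMem heN).ge.trans ((card_le_univ _).trans hX.card)
    exact_mod_cast this
  have hz0 : (0 : ℝ) ≤ (2 * j + 1) / 2 := by positivity
  have hj' : (2 * j + 1 : ℝ) ≤ 4 * S := by exact_mod_cast (show 2 * j + 1 ≤ 4 * S by omega)
  have hz1 : ((2 * j + 1) / 2 : ℝ) ≤ 2 * S := by linarith
  suffices H : Van P' (fun k => (p k : ℝ) * Real.exp ((2 * j + 1) / 2 * lin ℓ (lam k)))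
      (fun k => yy N β e (lam k)) D' by
    convert (hV ι κ P' _ _ D').2 H (Real.exp (-((2 * j + 1) / 2 * lin ℓ (lam k₀)))) (1 / 2)
      (fun i => -(yy N β e (lam k₀) i / 2)) using 2 with k k
    · rw [lin_half, mul_left_comm, ← Real.exp_add]
      congr 2
      ring
    · funext i
      simp only [yy]
      push_cast
      ring
  refine (hV ι κ P' _ _ D').1 fun d hd => ?_
  obtain ⟨q, hq⟩ : ∃ q : κ → ℤ, ∀ k ∈ P,
      (q k : ℝ) = p k * ∏ i, bin (yy N β e (lam k) i) (d i) := by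
    have : ∀ k, ∃ q : ℤ, k ∈ P → (q : ℝ) = p k * ∏ i, bin (yy N β e (lam k) i) (d i) := by
      intro k
      by_cases hk : k ∈ P
      · choose z hz using hX.yy_int (hP.mem k hk)
        choose n hn using fun i => bin_int (z i) (d i)
        refine ⟨p k * ∏ i, n i, fun _ => ?_⟩
        push_cast
        simp only [hz, hn]
      · exact ⟨0, fun h => absurd h hk⟩
    choose q hq using this
    exact ⟨q, hq⟩
  have hqs : ∑ k ∈ P, |(q k : ℝ)| ≤ Real.exp ((5 * m + 6) * g) := by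
    rw [show (5 * m + 6) * g = (5 * m + 5) * g + g by ring, Real.exp_add]
    refine le_trans ?_ (mul_le_mul_of_nonneg_right hp (Real.exp_pos _).le)
    rw [sum_mul]
    refine sum_le_sum fun k hk => ?_
    rw [hq k hk, abs_mul]
    exact mul_le_mul_of_nonneg_left (hbin k hk d hd) (abs_nonneg _)
  have hη : Real.exp (-(10 * c * g)) ≤ 1 := Real.exp_le_one_iff.2 (neg_nonpos.2 (by positivity))
  have hder : ∀ j' < S, ∀ r < t,
      |∑ k ∈ P, (q k : ℝ) * Real.exp ((2 * j' + 1) * lin ℓ (lam k)) * lin ℓ (lam k) ^ r| ≤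
        Real.exp ((8 * m + 6 - 10 * c) * g) * (4 * t) ^ r := fun j' hj' r hr => by
    have hγ := Step.gamma_yy hX.one ℓ hX.ne
    have h1 := hE ι κ P _ (fun k => lin ℓ (lam k)) (fun k => (lam k e : ℝ) * lin ℓ β / β e) _
      (fun i => ℓ i / ((N : ℝ) ^ 2 * β e)) (Nnᶜ.erase e) Nn D D' τ t r (m * x + m)
      (Real.exp (-(10 * c * g))) (fun i => binP (d i)) (hvan j' hj')
      (disjoint_left.2 fun i hi => mem_compl.1 (mem_of_mem_erase hi))
      (fun k _ => by simpa only [hγ] using Step.lin_split ℓ hX.ne Nn (lam k)) hDD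
      (fun i hi => hDF i (mem_compl.1 (mem_of_mem_erase hi)) (ne_of_mem_erase hi)) hDN
      (by positivity) (Real.exp_pos _).le (fun k hk => by
        simp only [hγ]
        have h2 := Step.lin_split ℓ hX.ne Nn (lam k)
        have h3 : |∑ i ∈ Nn, ℓ i * ((lam k i : ℝ) - β i * lam k e / β e)| ≤ Nn.card :=
          (abs_sum_le_sum_abs _ _).trans ((sum_le_card_nsmul _ _ 1 fun i hi =>
            (hnear k hk i hi).1).trans_eq (by simp))
        have h4 := (hdel k hk).trans hη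
        have h5 := hl k hk
        rw [_root_.abs_le] at h3 h4 h5 ⊢
        constructor <;> linarith [h3.1, h3.2, h4.1, h4.2, h5.1, h5.2])
      (fun k hk i hi => by simpa only [hγ] using hnear k hk i hi)
      (fun k hk => ⟨(hdel k hk).trans hη, hdel k hk⟩) hr.le
      (fun i => (natDegree_binP _).trans_le (hd i))
    have h2 : ∀ k ∈ P, (p k : ℝ) * Real.exp ((2 * j' + 1) * lin ℓ (lam k)) *
        ∏ i, (binP (d i)).eval (yy N β e (lam k) i) =
        q k * Real.exp ((2 * j' + 1) * lin ℓ (lam k)) := fun k hk => by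
      simp only [eval_binP, hq k hk]
      ring
    rw [sum_congr rfl fun k hk => congrArg (· * lin ℓ (lam k) ^ r) (h2 k hk),
      sum_congr rfl fun k hk => congrArg (|·|) (h2 k hk)] at h1
    refine h1.trans ?_
    have h3 : ∑ k ∈ P, |(q k : ℝ) * Real.exp ((2 * j' + 1) * lin ℓ (lam k))| ≤
        Real.exp ((5 * m + 6) * g) * Real.exp (2 * m * g) := by
      refine le_trans ?_ (mul_le_mul_of_nonneg_right hqs (Real.exp_pos _).le)
      rw [sum_mul]
      refine sum_le_sum fun k hk => ?_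
      rw [abs_mul, Real.abs_exp]
      exact mul_le_mul_of_nonneg_left (hz _ (by positivity)
        (by exact_mod_cast (show 2 * j' + 1 ≤ 2 * S by omega)) k hk) (abs_nonneg _)
    have h4 : (Nn.card : ℝ) + 1 ≤ Real.exp (m * g) :=
      hcard.trans (by nlinarith [Real.add_one_le_exp (m * g)])
    have h5 : m * x + m + Nn.card + 1 ≤ 4 * (t : ℝ) := by linarith
    calc _ ≤ Real.exp (m * g) * Real.exp (-(10 * c * g)) *
          (Real.exp ((5 * m + 6) * g) * Real.exp (2 * m * g)) * (4 * t) ^ r := by gcongr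
      _ = _ := by
        simp only [← Real.exp_add]
        congr 2
        ring
  have hint := hI κ P (fun k => q k) (fun k => lin ℓ (lam k)) S t (m * x) _ _ ht hmx
    (Real.exp_pos _).le hl hz0 hz1 hder
  obtain ⟨cl, hcl⟩ := hC ι m N ℓ hX.card hX.one hX.den
  have hA1 := hX.num.prod_le hX.card hg0 hag
  have hA0 : 0 < ∏ i, ((u i : ℝ) * v i) ^ ⌈2 * g / a i⌉₊ := prod_pos fun i _ =>
    pow_pos (mul_pos (Nat.cast_pos.2 (hX.num.hu i)) (Nat.cast_pos.2 (hX.num.hv i))) _
  have hA2 : ∀ k ∈ P, ∃ z : ℤ, ((∏ i, ((u i : ℝ) * v i) ^ ⌈2 * g / a i⌉₊) *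
      Real.exp ((2 * j + 1) / 2 * lin ℓ (lam k))) ^ 2 = z := fun k hk => by
    obtain ⟨z, hz⟩ := (hD ι u v ℓ a hX.num).1 _ (fun i => ⌈2 * g / a i⌉₊ * 2)
      ((hP.mem k hk).zsmul (2 * j + 1)) fun i => by
        have h1 := hX.num.pos i
        have h2 := hP.box k hk i
        have h3 := Nat.le_ceil (2 * g / a i)
        rw [div_le_iff₀ h1] at h3
        simp only [Pi.smul_apply, smul_eq_mul]
        push_cast
        rw [abs_mul, abs_of_nonneg (by positivity)]
        refine le_of_mul_le_mul_right ?_ h1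
        have h4 := mul_le_mul hj' h2 (by positivity) (by positivity)
        nlinarith
    refine ⟨z, ?_⟩
    rw [← hz, mul_pow, ← prod_pow, ← Real.exp_nat_mul, lin_smul]
    simp only [pow_mul]
    congr 2
    push_cast
    ring
  generalize ∏ i, ((u i : ℝ) * v i) ^ ⌈2 * g / a i⌉₊ = A at hA0 hA1 hA2
  have h0 := hK κ P (2 ^ m) (fun k => cl (lam k)) q
    (fun k => A * Real.exp ((2 * j + 1) / 2 * lin ℓ (lam k))) (Real.exp ((10 * m + 6) * g))
    (fun k _ => by positivity) hA2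
    (fun k hk l hl h => (Step.half_iff (hP.mem k hk) (hP.mem l hl) j hA0).1
      (hcl _ _ (hP.mem k hk) (hP.mem l hl) h))
    (Real.one_le_exp (by positivity)) (by
      rw [show (10 * m + 6) * g = (5 * m + 6) * g + (3 * m * g + 2 * m * g) by ring, Real.exp_add,
        Real.exp_add]
      refine le_trans ?_ (mul_le_mul_of_nonneg_right hqs (by positivity))
      rw [sum_mul]
      exact sum_le_sum fun k hk => mul_le_mul_of_nonneg_left (mul_le_mul hA1
        (hz _ hz0 hz1 k hk) (Real.exp_pos _).le (Real.exp_pos _).le) (abs_nonneg _)) (by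
      refine lt_of_le_of_lt ?_ (Step.final (sx := S * (m * x)) hg hc hct htc (by nlinarith) hA1 hqs
        (sum_nonneg fun k _ => abs_nonneg _))
      refine mul_le_mul_of_nonneg_right ?_ (by positivity)
      simp only [mul_left_comm _ A]
      rw [← mul_sum, abs_mul, abs_of_pos hA0]
      exact mul_le_mul_of_nonneg_left hint hA0.le) k₀ hk₀ P' fun k => (hP' k).trans
        (and_congr_right fun hk => Step.half_iff (hP.mem k hk) (hP.mem k₀ hk₀) j hA0)
  simp only [mul_left_comm _ A] at h0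
  rw [← mul_sum, mul_eq_zero] at h0
  refine Eq.trans (sum_congr rfl fun k hk => ?_) (h0.resolve_left hA0.ne')
  rw [hq k ((hP' k).1 hk).1]
  ring

end Pool.Agent.Lib.MP_4ffbf9_nt.MB
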