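import Pool.Agent.Lib.MP_4ffbf9_nt.MB.Defs

/-! Vanishing against polynomials. -/

set_option autoImplicit false

namespace Pool.Agent.Lib.MP_4ffbf9_nt.MB

open Finset Polynomial

theorem Van.span (D : ℕ) (f : ℝ[X]) (h : f.natDegree ≤ D) :
    ∃ a : ℕ → ℝ, ∀ z, f.eval z = ∑ d ∈ range (D + 1), a d * bin z d := by
  induction D generalizing f with
  | zero =>
    refine ⟨fun _ => f.coeff 0, fun z => ?_⟩
    conv_lhs => rw [eq_C_of_natDegree_le_zero h]
    simp [bin_zero]
  | succ D ih =>
    have c0 : (binP (D + 1)).coeff (D + 1) ≠ 0 := coeff_ne_zero_of_eq_degree (degree_binP _)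
    obtain ⟨a, ha⟩ := ih (f - C (f.coeff (D + 1) / (binP (D + 1)).coeff (D + 1)) * binP (D + 1))
      (natDegree_le_iff_coeff_eq_zero.2 fun n hn => by
        rw [coeff_sub, coeff_C_mul]
        rcases (Nat.succ_le_of_lt hn).eq_or_lt with rfl | k
        · rw [div_mul_cancel₀ _ c0, sub_self]
        · rw [coeff_eq_zero_of_natDegree_lt (h.trans_lt k),
            coeff_eq_zero_of_natDegree_lt ((natDegree_binP _).trans_lt k), mul_zero, sub_zero])
    refine ⟨Function.update a (D + 1) (f.coeff (D + 1) / (binP (D + 1)).coeff (D + 1)), fun z => ?_⟩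
    rw [sum_range_succ, Function.update_self, sum_congr rfl fun d hd => by
      rw [Function.update_of_ne (mem_range.1 hd).ne], ← ha, eval_sub, eval_mul, eval_C, eval_binP,
      sub_add_cancel]

theorem stVan : StVan := by
  classical
  refine fun ι κ _ P c y D => ⟨fun h f hf => ?_, fun h r s o f hf => ?_⟩
  · choose a ha using fun i => Van.span (D i) (f i) (hf i)
    simp only [ha, prod_univ_sum, mul_sum, prod_mul_distrib]
    rw [sum_comm]
    refine sum_eq_zero fun d hd => ?_
    simp only [mul_left_comm (c _), ← mul_sum]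
    rw [h d fun i => Nat.le_of_lt_succ (mem_range.1 (Fintype.mem_piFinset.1 hd i)), mul_zero]
  · have := h (fun i => (f i).comp (C s * X + C (o i))) fun i => natDegree_comp_le.trans
      ((Nat.mul_le_mul_left _ natDegree_linear_le).trans (by simpa using hf i))
    simp only [eval_comp, eval_add, eval_mul, eval_C, eval_X] at this
    simp only [mul_assoc, ← mul_sum, this, mul_zero]

end Pool.Agent.Lib.MP_4ffbf9_nt.MB
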