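import Pool.Agent.Lib.MP_4ffbf9_nt.MB.Interp
import Pool.Agent.Lib.MP_4ffbf9_nt.MB.KL
import Pool.Agent.Lib.MP_4ffbf9_nt.MB.Den
import Pool.Agent.Lib.MP_4ffbf9_nt.MB.Lat
import Pool.Agent.Lib.MP_4ffbf9_nt.MB.Cls
import Pool.Agent.Lib.MP_4ffbf9_nt.MB.Van
import Pool.Agent.Lib.MP_4ffbf9_nt.MB.Exp
import Pool.Agent.Lib.MP_4ffbf9_nt.MB.Step
import Pool.Agent.Lib.MP_4ffbf9_nt.MB.Start
import Pool.Agent.Lib.MP_4ffbf9_nt.MB.Desc
import Pool.Agent.Lib.MP_4ffbf9_nt.MB.Core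
import Pool.Agent.Lib.MP_4ffbf9_nt.MB.CoreS
import Pool.Agent.Lib.MP_4ffbf9_nt.MB.Red
import Pool.Agent.Lib.MP_4ffbf9_nt.MB.Const
import Pool.Agent.Lib.MP_4ffbf9_nt.MB.Main
import Pool.Agent.Lib.MP_4ffbf9_nt.MB.Short

/-! Assembly. -/

set_option autoImplicit false

namespace Pool.Agent.Lib.MP_4ffbf9_nt.MB

theorem main : StMain :=
  stMain stRed (stCoreS (stCore (stLat stDen) (stDesc stDen (stStart stDen stVan)
    (stStep stInterp stKL stDen stCls stVan stExp)))) stConst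

theorem short : StShort := stShort main

end Pool.Agent.Lib.MP_4ffbf9_nt.MB
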