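import Pool.Agent.Lib.MP_4ffbf9_nt.MB.Defs2

/-! Choice of the parameters, sharper form. -/

set_option autoImplicit false

namespace Pool.Agent.Lib.MP_4ffbf9_nt.MB

open Finset Polynomial

namespace Core2

theorem pow_log {N : ℝ} (hN : 1 ≤ N) (n : ℕ) :
    (2 * Real.log N + 3) ^ n ≤ 3 ^ (n + 1) * n.factorial * N := by
  have h0 := Real.log_nonneg hN
  have h1 := Real.pow_div_factorial_le_exp (Real.log N + 1) (by linarith) n
  rw [div_le_iff₀ (by positivity), Real.exp_add, Real.exp_log (by linarith)] at h1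
  have h2 : Real.exp 1 ≤ 3 := Real.exp_one_lt_three.le
  calc _ ≤ (3 * (Real.log N + 1)) ^ n := pow_le_pow_left₀ (by linarith) (by linarith) n
    _ ≤ 3 ^ n * (N * 3 * n.factorial) := by
      rw [mul_pow]
      exact mul_le_mul_of_nonneg_left (h1.trans (by gcongr)) (by positivity)
    _ = _ := by ring

theorem near {m c K σ S J H a : ℝ} (hm : 1 ≤ m) (hc : 1 ≤ c) (hK : 1 ≤ K) (hσ : 1 ≤ σ)
    (hS0 : 0 ≤ S) (hS : S ≤ 9 * m * c * σ) (hJ : J ≤ 4 * σ) (hH : 0 < H) (ha : 0 < a)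
    (h : a ≤ S * H) : 2 * (H / a) + J * (2 * K * (10 * c * (S * H)) / a) + 1 ≤
      2000 * m * c ^ 2 * σ ^ 2 * K * (H / (2 * a)) := by
  have h0 : 0 < H / a := div_pos hH ha
  have h1 : 1 ≤ S * (H / a) := by rw [← mul_div_assoc, one_le_div ha]; exact h
  have h2 : 1 ≤ c * σ * K := one_le_mul_of_one_le_of_one_le (one_le_mul_of_one_le_of_one_le hc hσ) hK
  have h3 : 1 ≤ m * c * σ := one_le_mul_of_one_le_of_one_le (one_le_mul_of_one_le_of_one_le hm hc) hσ
  have h4 : 2 + J * (20 * K * c * S) + S ≤ 1000 * (m * c * σ) * (c * σ * K) := by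
    have : J * (20 * K * c * S) ≤ 4 * σ * (20 * K * c * (9 * m * c * σ)) := by gcongr
    nlinarith
  calc _ ≤ (2 + J * (20 * K * c * S) + S) * (H / a) := by
        rw [add_mul, add_mul]
        exact add_le_add (le_of_eq (by ring)) h1
    _ ≤ _ := (mul_le_mul_of_nonneg_right h4 h0.le).trans_eq (by ring)

end Core2

open Core2 in
theorem stCore2 (hL : StLat) (hD : StDesc2) : StCore2 := by
  intro m
  obtain ⟨c₂, hc₂⟩ : ∃ c : ℝ, c = cc m := ⟨_, rfl⟩
  have c1 : 1 ≤ c₂ := hc₂ ▸ Nat.one_le_cast.2 (by unfold cc; omega)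
  obtain ⟨C, hC⟩ : ∃ C : ℝ, C = 2000 * m * c₂ ^ 2 := ⟨_, rfl⟩
  obtain ⟨c, k1, k2, k3⟩ : ∃ c : ℝ, 9 * m * c₂ * (6 * m ^ 2 + 3) ≤ c ∧ 10 * c₂ + 1 ≤ c ∧
      2 * (9 * m * c₂) ^ 2 * (C ^ m * (10 * c₂) ^ m) *
        (3 ^ (2 * m + 2 + 1) * (2 * m + 2).factorial) ≤ c :=
    ⟨_, le_max_left _ _, le_max_of_le_right (le_max_left _ _),
      le_max_of_le_right (le_max_right _ _)⟩
  have c0 : 1 ≤ c := by linarith
  refine ⟨c, c0, fun ι _ _ u v ℓ a K β e Nn B W Ω hm hN hI hβ he heN hB hW hWB hΩ haΩ hBe hK hb => ?_⟩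
  by_contra! hlt
  obtain ⟨N, N1, N2, N3, N4⟩ := hL ι m u v ℓ a hm hN hI
  have ctx : Ctx m N u v ℓ a β e := ⟨hm, hN, N1, N3, hβ, he⟩
  have m1 : (1 : ℝ) ≤ m := Nat.one_le_cast.2 ctx.m_pos
  have n1 : (1 : ℝ) ≤ N := Nat.one_le_cast.2 N1
  have o1 : 1 ≤ Ω := (hN.one e).trans (haΩ e)
  have l1 : 1 ≤ Real.log B := (Real.le_log_iff_exp_le (by linarith)).2
    (Real.exp_one_lt_three.le.trans hB)
  have l0 := Real.log_nonneg n1
  have w1 : c * Real.log B ≤ W := le_trans (mul_le_mul_of_nonneg_left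
    (le_self_pow₀ l1 (by omega)) (by linarith)) hW
  have w2 : 1 ≤ W := (one_le_mul_of_one_le_of_one_le c0 l1).trans w1
  obtain ⟨σ, hσ⟩ : ∃ σ : ℝ, σ = Real.log ((N : ℝ) ^ 2 * B) + 2 := ⟨_, rfl⟩
  have s0 : σ = 2 * Real.log N + Real.log B + 2 := by
    rw [hσ, Real.log_mul (by positivity) (by linarith), Real.log_pow, Nat.cast_ofNat]
  have s1 : 1 ≤ σ := by linarith
  have s2 : σ ≤ (6 * m ^ 2 + 3) * Ω * Real.log B := by
    have h1 : (N : ℝ) ≤ (3 * m * Ω) ^ m := N2.trans ((prod_le_prod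
      (fun i _ => by have := hN.pos i; positivity) fun i _ =>
        mul_le_mul_of_nonneg_left (haΩ i) (by positivity)).trans (by
      rw [prod_const, card_univ]
      exact pow_le_pow_right₀ (one_le_mul_of_one_le_of_one_le (by linarith only [m1]) o1) hm))
    have h2 := Real.log_le_log (by linarith) h1
    rw [Real.log_pow] at h2
    have h3 : m * Real.log (3 * m * Ω) ≤ m * (3 * m * Ω) :=
      mul_le_mul_of_nonneg_left (Real.log_le_self (by positivity)) (by positivity)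
    have h4 : m ^ 2 * Ω ≤ m ^ 2 * Ω * Real.log B := le_mul_of_one_le_right (by positivity) l1
    have h5 : Real.log B ≤ Ω * Real.log B := le_mul_of_one_le_left (by linarith) o1
    linarith only [h2, h3, h4, h5, s0, l1]
  have s3 : (N : ℝ) * B ^ 2 * 2 < Real.exp (2 * σ) := by
    rw [hσ, two_mul, Real.exp_add, Real.exp_add, Real.exp_log (by positivity)]
    have h1 : (2 : ℝ) + 1 ≤ Real.exp 2 := Real.add_one_le_exp 2
    have h2 : (N : ℝ) ≤ N ^ 2 := le_self_pow₀ n1 two_ne_zero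
    calc _ < N * B * 3 * (1 * B * 3) := by
          linarith only [mul_pos (zero_lt_one.trans_le n1) (show 0 < B ^ 2 by positivity)]
      _ ≤ _ := by gcongr <;> linarith
  have q1 : 1 ≤ m * c₂ * σ :=
    one_le_mul_of_one_le_of_one_le (one_le_mul_of_one_le_of_one_le m1 c1) s1
  obtain ⟨S, S1, S2⟩ : ∃ S : ℕ, 8 * m * c₂ * σ ≤ S ∧ S ≤ 9 * m * c₂ * σ :=
    ⟨_, Nat.le_ceil _, (Nat.ceil_lt_add_one (by positivity)).le.trans (by linarith)⟩
  obtain ⟨J, J1, J2⟩ : ∃ J : ℕ, 3 * σ ≤ J ∧ J ≤ 4 * σ :=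
    ⟨_, Nat.le_ceil _, (Nat.ceil_lt_add_one (by positivity)).le.trans (by linarith)⟩
  have S3 : (1 : ℝ) ≤ S := by linarith
  have S4 : S ≤ W * Ω := by
    calc _ ≤ 9 * m * c₂ * ((6 * m ^ 2 + 3) * Ω * Real.log B) := S2.trans (by gcongr)
      _ = 9 * m * c₂ * (6 * m ^ 2 + 3) * Real.log B * Ω := by ring
      _ ≤ _ := mul_le_mul_of_nonneg_right (le_trans (by gcongr) w1) (by linarith)
  obtain ⟨H, hH⟩ : ∃ H : ℝ, S * H = W * Ω := ⟨W * Ω / S, mul_div_cancel₀ _ (by linarith)⟩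
  have H1 : 1 ≤ H := le_of_mul_le_mul_left (by rw [mul_one, hH]; exact S4) (zero_lt_one.trans_le S3)
  have H2 : ∀ i, a i ≤ S * H := fun i =>
    hH ▸ (haΩ i).trans (le_mul_of_one_le_left (by linarith) w2)
  have J3 : (N : ℝ) * B ^ 2 < 2 ^ J := by
    refine (lt_of_le_of_lt (le_mul_of_one_le_right (by positivity) one_le_two) s3).trans_le ?_
    rw [← Real.exp_log (show (0 : ℝ) < 2 ^ J by positivity), Real.log_pow, Real.exp_le_exp]
    nlinarith only [Real.log_two_gt_d9, J1, s1]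
  obtain ⟨P, P1, P2⟩ := N4 H (by linarith)
  refine hD ι m N u v ℓ a β e (Nn.filter fun i => 4 * K i * σ ≤ a i) S J
    (fun i => ⌊2 * K i * (10 * c₂ * (S * H)) / a i⌋₊) H c₂ B P ctx hI
    (fun h => heN (mem_filter.1 h).1) hc₂.ge H1 hB H2 (hσ ▸ S1) hb ?_ (fun h => ?_) (fun i hi => ?_)
    ?_ P1 ?_
  · exact_mod_cast (le_mul_of_one_le_right (by linarith) (one_le_pow₀ (by linarith))).trans J3.le
  · have h1 := hBe (h.mono (filter_subset _ _))
    calc (N : ℝ) * H ≤ N * (B * (B * a e)) := mul_le_mul_of_nonneg_left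
          ((le_mul_of_one_le_left (by linarith) S3).trans (hH ▸ by gcongr)) (by linarith)
      _ = N * B ^ 2 * a e := by ring
      _ < _ := mul_lt_mul_of_pos_right J3 (hN.pos e)
  · obtain ⟨h1, h2⟩ := mem_filter.1 hi
    obtain ⟨h3, h4⟩ := hK i h1
    have h5 := hN.pos i
    have h6 : |ℓ i| * (1 + B * N) ≤ Real.exp (-(a i / (2 * K i))) := by
      calc _ ≤ B * Real.exp (-(a i / K i)) * (B * N + B * N) := by
            gcongr
            exact one_le_mul_of_one_le_of_one_le (by linarith only [hB]) n1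
        _ = N * B ^ 2 * 2 * Real.exp (-(a i / K i)) := by ring
        _ ≤ Real.exp (2 * σ) * Real.exp (-(a i / K i)) := by gcongr
        _ ≤ _ := by
          rw [← Real.exp_add, Real.exp_le_exp]
          have : 2 * σ ≤ a i / (2 * K i) := by rw [le_div_iff₀ (by linarith)]; linarith
          have : a i / K i = 2 * (a i / (2 * K i)) := by field_simp
          linarith
    refine ⟨h6.trans (Real.exp_le_one_iff.2 (neg_nonpos.2 (by positivity))),
      (pow_le_pow_left₀ (by positivity) h6 _).trans ?_⟩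
    rw [← Real.exp_nat_mul, Real.exp_le_exp, mul_neg, neg_le_neg_iff, ← mul_div_assoc,
      le_div_iff₀ (by linarith), ← div_le_iff₀ h5, mul_comm, Nat.cast_succ]
    exact (Nat.lt_floor_add_one _).le
  · have h1 : (N : ℝ) ≤ Real.exp (W * Ω) := by
      rw [← Real.log_le_iff_le_exp (by linarith)]
      linarith only [mul_le_mul_of_nonneg_right (one_le_mul_of_one_le_of_one_le m1 c1)
        (zero_le_one.trans s1), s0, l0, l1, S1, S4]
    refine (mul_le_mul h1 hlt.le (abs_nonneg _) (by positivity)).trans ?_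
    rw [← Real.exp_add, Real.exp_le_exp, hH, mul_assoc c]
    linarith only [mul_le_mul_of_nonneg_right k2 (show 0 ≤ W * Ω by positivity)]
  have C1 : 40 * c₂ ≤ C := by
    rw [hC]
    linarith only [c1, mul_le_mul_of_nonneg_right (one_le_mul_of_one_le_of_one_le m1 c1)
      (zero_le_one.trans c1)]
  have h1 : ∀ i, ((Dh c₂ H J (fun i => ⌊H / a i⌋₊) (fun i => ⌊2 * K i * (10 * c₂ * (S * H)) / a i⌋₊)
      (Nn.filter fun i => 4 * K i * σ ≤ a i) e i + 1 : ℕ) : ℝ) ≤
      (if i ∈ Nn then C * σ ^ 2 * K i else 10 * c₂ * a i) * (H / (2 * a i)) *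
        if i = e then H⁻¹ else 1 := fun i => by
    have h5 := hN.pos i
    have h2 : ((⌊4 * c₂ * H⌋₊ + 1 : ℕ) : ℝ) ≤ 10 * c₂ * a i * (H / (2 * a i)) := by
      rw [Nat.cast_succ, show 10 * c₂ * a i * (H / (2 * a i)) = 4 * c₂ * H + c₂ * H by
        field_simp; norm_num]
      exact add_le_add (Nat.floor_le (by positivity)) (one_le_mul_of_one_le_of_one_le c1 H1)
    rw [Dh]
    split_ifs with h3 h4 h6 h7 h8
    · exact absurd (h3 ▸ h4) heN
    · rw [show 10 * c₂ * a i * (H / (2 * a i)) * H⁻¹ = 5 * c₂ by field_simp; norm_num]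
      push_cast
      linarith
    · have h9 := (hK i h7).1
      rw [mul_one, hC]
      refine le_trans ?_ (near m1 c1 h9 s1 S.cast_nonneg S2 J2 (by linarith) h5 (H2 i))
      push_cast
      gcongr
      · exact Nat.floor_le (by positivity)
      · exact (min_le_left _ _).trans (mul_le_mul_of_nonneg_left (Nat.floor_le (by positivity))
          J.cast_nonneg)
    · exact absurd (mem_filter.1 h6).1 h7
    · have h9 := (hK i h8).1
      have h10 : a i ≤ 4 * K i * σ := le_of_not_ge fun h => h6 (mem_filter.2 ⟨h8, h⟩)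
      rw [mul_one]
      refine h2.trans (mul_le_mul_of_nonneg_right ?_ (by positivity))
      calc _ ≤ 10 * c₂ * (4 * K i * σ) := by gcongr
        _ = 40 * c₂ * σ * K i := by ring
        _ ≤ _ := by gcongr; exacts [by linarith, le_self_pow₀ s1 two_ne_zero]
    · rwa [mul_one]
  have h2 : Nn.card ≤ m := (card_le_univ _).trans hm
  have h3 : ∏ i, (if i ∈ Nn then C * σ ^ 2 * K i else 10 * c₂ * a i) ≤
      C ^ m * (10 * c₂) ^ m * σ ^ (2 * Nn.card) * Ω := by
    rw [← prod_mul_prod_compl Nn, prod_congr rfl fun i hi => if_pos hi,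
      prod_congr (s₁ := Nnᶜ) rfl fun i hi => if_neg (mem_compl.1 hi), prod_mul_distrib,
      prod_mul_distrib, prod_mul_distrib, prod_const, prod_const, prod_const, ← pow_mul]
    calc _ = C ^ Nn.card * (10 * c₂) ^ Nnᶜ.card * σ ^ (2 * Nn.card) *
          ((∏ i ∈ Nnᶜ, a i) * ∏ i ∈ Nn, K i) := by ring
      _ ≤ _ := by
        have : 0 ≤ C := by linarith
        gcongr
        · exact mul_nonneg (prod_nonneg fun i _ => (hN.pos i).le)
            (prod_nonneg fun i hi => zero_le_one.trans (hK i hi).1)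
        · linarith
        · linarith
        · exact (card_le_univ _).trans hm
  have h4 : σ ^ (2 * Nn.card + 2) ≤ 3 ^ (2 * m + 2 + 1) * (2 * m + 2).factorial * N *
      Real.log B ^ (2 * Nn.card + 2) := by
    calc _ ≤ ((2 * Real.log N + 3) * Real.log B) ^ (2 * Nn.card + 2) := by
          gcongr
          linarith only [s0, l1, mul_le_mul_of_nonneg_left l1 l0]
      _ ≤ _ := by
        rw [mul_pow]
        exact mul_le_mul_of_nonneg_right ((pow_le_pow_right₀ (by linarith) (by omega)).trans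
          (pow_log n1 _)) (by positivity)
  have h5 : 0 ≤ ∏ i, H / (2 * a i) := prod_nonneg fun i _ => by have := hN.pos i; positivity
  have C0 : 0 ≤ C ^ m * (10 * c₂) ^ m := by
    have : 0 ≤ C := by linarith
    positivity
  rw [← Nat.cast_le (α := ℝ), Nat.cast_mul, Nat.cast_mul, Nat.cast_prod, Nat.cast_ofNat]
  refine le_trans ?_ P2
  refine (mul_le_mul_of_nonneg_left (mul_le_mul_of_nonneg_left (prod_le_prod
    (fun i _ => Nat.cast_nonneg _) fun i _ => h1 i) S.cast_nonneg) zero_le_two).trans ?_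
  rw [prod_mul_distrib, prod_mul_distrib, Fintype.prod_ite_eq', mul_right_comm _ _ H⁻¹,
    ← mul_assoc, ← mul_assoc]
  refine mul_le_mul_of_nonneg_right (le_of_mul_le_mul_right ?_ (zero_lt_one.trans_le w2)) h5
  calc _ ≤ 2 * S * (C ^ m * (10 * c₂) ^ m * σ ^ (2 * Nn.card) * Ω * H⁻¹) * W := by gcongr
    _ = 2 * S ^ 2 * (C ^ m * (10 * c₂) ^ m) * σ ^ (2 * Nn.card) := by
      have : Ω * W = S * H := by rw [hH, mul_comm]
      field_simp
      linear_combination C ^ m * this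
    _ ≤ 2 * (9 * m * c₂ * σ) ^ 2 * (C ^ m * (10 * c₂) ^ m) * σ ^ (2 * Nn.card) := by gcongr
    _ = 2 * (9 * m * c₂) ^ 2 * (C ^ m * (10 * c₂) ^ m) * σ ^ (2 * Nn.card + 2) := by ring
    _ ≤ 2 * (9 * m * c₂) ^ 2 * (C ^ m * (10 * c₂) ^ m) * (3 ^ (2 * m + 2 + 1) *
        (2 * m + 2).factorial) * Real.log B ^ (2 * Nn.card + 2) * N :=
      (mul_le_mul_of_nonneg_left h4 (by positivity)).trans_eq (by ring)
    _ ≤ _ := by
      rw [mul_comm (N : ℝ) W]
      exact mul_le_mul_of_nonneg_right (le_trans (by gcongr) hW) (by linarith)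

end Pool.Agent.Lib.MP_4ffbf9_nt.MB
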