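import Pool.Agent.Lib.MP_4ffbf9_nt.MB.Defs2

/-! Separation of the values of some coordinates. -/

set_option autoImplicit false

namespace Pool.Agent.Lib.MP_4ffbf9_nt.MB

open Finset Polynomial

theorem Sep.lagr (y c : ℝ) (hc : c ≠ 0) (R : ℕ) : ∃ L : ℝ[X], L.natDegree ≤ 2 * R ∧
    L.eval y = 1 ∧ ∀ z : ℤ, z ≠ 0 → |z| ≤ R → L.eval (y + c * z) = 0 := by
  refine ⟨∏ n ∈ (Icc (-(R : ℤ)) R).erase 0, (1 - C (c * n)⁻¹ * (X - C y)), ?_, ?_, fun z h0 h1 => ?_⟩
  · refine (natDegree_prod_le _ _).trans ((sum_le_card_nsmul _ _ 1 fun n _ => ?_).trans ?_)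
    · compute_degree
    · rw [card_erase_of_mem (by simp), Int.card_Icc, smul_eq_mul]
      omega
  · simp [eval_prod]
  · rw [eval_prod]
    refine prod_eq_zero (mem_erase.2 ⟨h0, mem_Icc.2 (abs_le.1 h1)⟩) ?_
    have : (z : ℝ) ≠ 0 := Int.cast_ne_zero.2 h0
    simp only [eval_sub, eval_one, eval_mul, eval_C, eval_X, add_sub_cancel_left]
    rw [inv_mul_cancel₀ (mul_ne_zero hc this), sub_self]

theorem Sep.yy_sub {ι : Type} (N : ℕ) (β : ι → ℚ) (e : ι) (x x' : ι → ℚ) (i : ι) :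
    yy N β e (x - x') i = yy N β e x i - yy N β e x' i := by
  simp only [yy, Pi.sub_apply]
  push_cast
  ring

theorem stSep : StSep := by
  classical
  intro ι κ _ m N u v ℓ a β e Nn P lam p S D R x hC hP hV ⟨k0, hk0⟩ he hR
  have N0 : (0 : ℝ) < N := by exact_mod_cast hC.one
  have b0 : (N : ℝ) * β e ≠ 0 := mul_ne_zero N0.ne' (Rat.cast_ne_zero.2 hC.ne)
  have hL : ∀ i, ∃ L : ℝ[X], i ∈ Nn → L.natDegree ≤ D i ∧ L.eval (yy N β e (lam k0) i) = 1 ∧
      ∀ k ∈ P, lam k i ≠ lam k0 i → L.eval (yy N β e (lam k) i) = 0 := fun i => by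
    obtain ⟨L, h1, h2, h3⟩ := Sep.lagr (yy N β e (lam k0) i) _ b0 (R i)
    refine ⟨L, fun hi => ⟨h1.trans (hR i hi).2, h2, fun k hk hne => ?_⟩⟩
    obtain ⟨z, hz⟩ := hC.den _ ((hP.mem k hk).sub (hP.mem k0 hk0)) i
    have hz' : (N : ℝ) * (lam k i - lam k0 i) = z := by exact_mod_cast hz
    have e1 : yy N β e (lam k) i = yy N β e (lam k0) i + N * β e * z := by
      rw [yy, yy, he k hk, he k0 hk0, ← hz']
      push_cast
      ring
    rw [e1]
    refine h3 z (fun h0 => hne ?_) ?_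
    · rw [h0, Int.cast_zero, mul_eq_zero, Pi.sub_apply, sub_eq_zero] at hz
      exact hz.resolve_left (by exact_mod_cast N0.ne')
    · have h4 := mul_le_mul_of_nonneg_left (hP.diam k hk k0 hk0 i) N0.le
      rw [← mul_assoc, ← abs_of_pos N0, ← abs_mul, hz', abs_of_pos N0] at h4
      have h5 : |(z : ℝ)| < R i + 1 :=
        lt_of_mul_lt_mul_right (h4.trans_lt (hR i hi).1) (hC.num.pos i).le
      have h6 : |z| < R i + 1 := by exact_mod_cast h5
      omega
  choose L hL using hL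
  have hs : P.filter (fun k => ∀ i ∈ Nn, lam k i = lam k0 i) ⊆ P := filter_subset _ _
  refine ⟨P.filter fun k => ∀ i ∈ Nn, lam k i = lam k0 i, fun k => lam k - lam k0, hs,
    ⟨k0, mem_filter.2 ⟨hk0, fun _ _ => rfl⟩⟩, ⟨fun k hk => (hP.mem k (hs hk)).sub (hP.mem k0 hk0),
      fun k hk k' hk' h => hP.inj k (hs hk) k' (hs hk') (sub_left_inj.1 h), fun k hk i => ?_,
      fun k hk k' hk' i => ?_⟩, fun j hj f hf => ?_, fun k hk => ⟨?_, fun i hi => ?_⟩⟩
  · simpa using hP.diam k (hs hk) k0 hk0 i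
  · simpa using hP.diam k (hs hk) k' (hs hk') i
  · have h1 := hV j hj (fun i => if i ∈ Nn then C ((f i).eval 0) * L i
      else (f i).comp (X - C (yy N β e (lam k0) i))) fun i => by
        split_ifs with hi
        · exact (natDegree_C_mul_le _ _).trans (hL i hi).1
        · refine natDegree_comp_le.trans ?_
          rw [natDegree_X_sub_C, mul_one]
          exact hf i
    rw [← sum_subset hs fun k hk hk' => by
      rw [mem_filter, not_and] at hk'
      obtain ⟨i, hi⟩ := not_forall.1 (hk' hk)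
      obtain ⟨hi, hne⟩ := Classical.not_imp.1 hi
      rw [prod_eq_zero (mem_univ i), mul_zero]
      rw [if_pos hi, eval_mul, (hL i hi).2.2 k hk hne, mul_zero]] at h1
    refine mul_left_cancel₀ (Real.exp_pos ((2 * j + 1) * lin ℓ (lam k0))).ne' ?_
    rw [mul_zero, mul_sum, ← h1]
    refine sum_congr rfl fun k hk => ?_
    rw [← mul_assoc]
    congr 1
    · beta_reduce
      rw [lin_sub, mul_left_comm, ← Real.exp_add]
      congr 2
      ring
    · refine prod_congr rfl fun i _ => ?_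
      beta_reduce
      rw [Sep.yy_sub]
      split_ifs with hi
      · have e1 : yy N β e (lam k) i = yy N β e (lam k0) i := by
          rw [yy, yy, he k (hs hk), he k0 hk0, (mem_filter.1 hk).2 i hi]
        rw [e1, sub_self, eval_mul, eval_C, (hL i hi).2.1, mul_one]
      · simp [eval_comp]
  · exact sub_eq_zero.2 ((he k (hs hk)).trans (he k0 hk0).symm)
  · exact sub_eq_zero.2 ((mem_filter.1 hk).2 i hi)

end Pool.Agent.Lib.MP_4ffbf9_nt.MB
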