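import Pool.Agent.Lib.MP_4ffbf9_nt.MB.Interp
import Pool.Agent.Lib.MP_4ffbf9_nt.MB.KL
import Pool.Agent.Lib.MP_4ffbf9_nt.MB.Den
import Pool.Agent.Lib.MP_4ffbf9_nt.MB.Lat
import Pool.Agent.Lib.MP_4ffbf9_nt.MB.Cls
import Pool.Agent.Lib.MP_4ffbf9_nt.MB.Van
import Pool.Agent.Lib.MP_4ffbf9_nt.MB.Exp
import Pool.Agent.Lib.MP_4ffbf9_nt.MB.Step2
import Pool.Agent.Lib.MP_4ffbf9_nt.MB.Sep
import Pool.Agent.Lib.MP_4ffbf9_nt.MB.Start
import Pool.Agent.Lib.MP_4ffbf9_nt.MB.Desc2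
import Pool.Agent.Lib.MP_4ffbf9_nt.MB.Core2
import Pool.Agent.Lib.MP_4ffbf9_nt.MB.CoreS2
import Pool.Agent.Lib.MP_4ffbf9_nt.MB.Red
import Pool.Agent.Lib.MP_4ffbf9_nt.MB.Const
import Pool.Agent.Lib.MP_4ffbf9_nt.MB.Main2

/-! Assembly of the sharper form. -/

set_option autoImplicit false

namespace Pool.Agent.Lib.MP_4ffbf9_nt.MB

theorem main2 : StMain2 :=
  stMain2 stRed (stCoreS2 (stCore2 (stLat stDen) (stDesc2 stDen (stStart stDen stVan)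
    (stStep2 stInterp stKL stDen stCls stVan stExp) stSep))) stConst

end Pool.Agent.Lib.MP_4ffbf9_nt.MB
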