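import Pool.Agent.Lib.MP_4ffbf9_nt.MB.Defs

/-! Choice of the parameters. -/

set_option autoImplicit false

namespace Pool.Agent.Lib.MP_4ffbf9_nt.MB

open Finset Polynomial

namespace Core

theorem pow_le_N (n : ℕ) (N : ℝ) (hN : 1 ≤ N) :
    (2 * Real.log N + 3) ^ n ≤ 3 ^ n * n.factorial * 3 * N := by
  have h0 : 0 ≤ Real.log N := Real.log_nonneg hN
  have h1 : (2 * Real.log N + 3) ^ n ≤ (3 * (Real.log N + 1)) ^ n :=
    pow_le_pow_left₀ (by linarith) (by linarith) n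
  have h2 := Real.pow_div_factorial_le_exp (Real.log N + 1) (by linarith) n
  rw [div_le_iff₀ (by positivity), Real.exp_add, Real.exp_log (by linarith)] at h2
  have h3 : Real.exp 1 ≤ 3 := Real.exp_one_lt_d9.le.trans (by norm_num)
  have h4 : N * Real.exp 1 * n.factorial ≤ N * 3 * n.factorial := by gcongr
  rw [mul_pow] at h1
  calc _ ≤ _ := h1
    _ ≤ 3 ^ n * (N * 3 * n.factorial) := by gcongr; exact h2.trans h4
    _ = _ := by ring

theorem count {ι : Type} [Fintype ι] [DecidableEq ι] (m S J : ℕ) (a : ι → ℝ) (e : ι)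
    (Nn : Finset ι) (c K H Z Ω : ℝ) (hm : Fintype.card ι ≤ m) (he : e ∉ Nn)
    (ha : ∀ i, 1 ≤ a i) (hc : 1 ≤ c) (hH : 1 ≤ H) (hK : 1 ≤ K) (hg : ∀ i, a i ≤ S * H)
    (hZ : 20 * c * (J * K + 1) * S ≤ Z) (hΩ : ∏ i ∈ Nnᶜ, a i ≤ Ω) :
    ((∏ i, (Dg c H J (fun i => ⌊K * (10 * c * (S * H)) / a i⌋₊) Nn e i + 1) : ℕ) : ℝ) ≤
      (Z ^ Nn.card * (10 * c) ^ m * Ω / H) * ∏ i, (H / (2 * a i)) := by
  have hZ0 : 0 ≤ Z := le_trans (by positivity) hZ
  have hap : ∀ i, 0 < a i := fun i => one_pos.trans_le (ha i)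
  have hH0 : 0 < H := by linarith
  have key : ∀ i, ((Dg c H J (fun i => ⌊K * (10 * c * (S * H)) / a i⌋₊) Nn e i + 1 : ℕ) : ℝ) ≤
      ((if i ∈ Nn then Z else 10 * c * a i) * (if i = e then H⁻¹ else 1)) * (H / (2 * a i)) := by
    intro i
    have hi := hap i
    unfold Dg
    by_cases h1 : i = e
    · subst h1
      rw [if_pos rfl, if_neg he, if_pos rfl]
      have : 10 * c * a i * H⁻¹ * (H / (2 * a i)) = 5 * c := by field_simp; ring
      rw [this]
      push_cast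
      linarith
    · rw [if_neg h1, if_neg h1, mul_one]
      by_cases h2 : i ∈ Nn
      · rw [if_pos h2, if_pos h2]
        have h3 : ((min (J * ⌊K * (10 * c * (S * H)) / a i⌋₊) ⌊4 * c * H⌋₊ : ℕ) : ℝ) ≤
            J * (K * (10 * c * (S * H)) / a i) := by
          refine (Nat.cast_le.2 (min_le_left _ _)).trans ?_
          push_cast
          exact mul_le_mul_of_nonneg_left (Nat.floor_le (by positivity)) (Nat.cast_nonneg _)
        have h4 : (1 : ℝ) ≤ 10 * c * (S * H) / a i := by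
          rw [le_div_iff₀ hi]
          have := hg i
          nlinarith
        have h5 : 20 * c * (J * K + 1) * S * (H / (2 * a i)) =
            J * (K * (10 * c * (S * H)) / a i) + 10 * c * (S * H) / a i := by
          field_simp; ring
        have h6 : 20 * c * (J * K + 1) * S * (H / (2 * a i)) ≤ Z * (H / (2 * a i)) :=
          mul_le_mul_of_nonneg_right hZ (by positivity)
        rw [Nat.cast_add, Nat.cast_one]
        linarith
      · rw [if_neg h2, if_neg h2]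
        have h3 : ((⌊4 * c * H⌋₊ : ℕ) : ℝ) ≤ 4 * c * H := Nat.floor_le (by positivity)
        have h5 : 10 * c * a i * (H / (2 * a i)) = 5 * c * H := by field_simp; ring
        rw [Nat.cast_add, Nat.cast_one, h5]
        nlinarith
  rw [Nat.cast_prod]
  refine (prod_le_prod (fun i _ => Nat.cast_nonneg _) fun i _ => key i).trans ?_
  rw [prod_mul_distrib, prod_mul_distrib]
  refine mul_le_mul_of_nonneg_right ?_ (prod_nonneg fun i _ => by have := hap i; positivity)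
  rw [prod_ite_eq', if_pos (mem_univ e), div_eq_mul_inv]
  refine mul_le_mul_of_nonneg_right ?_ (by positivity)
  rw [← prod_mul_prod_compl Nn, prod_congr rfl fun i hi => if_pos hi,
    prod_congr rfl fun i hi => if_neg (mem_compl.1 hi), prod_const, prod_mul_distrib, prod_const,
    mul_assoc]
  refine mul_le_mul_of_nonneg_left (mul_le_mul ?_ hΩ (prod_nonneg fun i _ => (hap i).le)
    (by positivity)) (by positivity)
  exact pow_le_pow_right₀ (by linarith) ((card_le_univ _).trans hm)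

end Core

theorem stCore (hL : StLat) (hD : StDesc) : StCore := by
  intro m K hK
  obtain ⟨c2, hc2⟩ : ∃ c2 : ℝ, c2 = cc m := ⟨_, rfl⟩
  have hc1 : 1 ≤ c2 := by
    rw [hc2]
    exact Nat.one_le_cast.2 (by unfold cc; omega)
  obtain ⟨C1, hC1⟩ : ∃ C1 : ℝ, C1 = 100 * m * c2 ^ 2 * (4 * K + 1) := ⟨_, rfl⟩
  obtain ⟨C2, hC2⟩ : ∃ C2 : ℝ, C2 = 50 * m ^ 2 * c2 ^ 2 * (C1 ^ m * (10 * c2) ^ m) *
    (3 ^ (2 * m + 2) * (2 * m + 2).factorial * 3) := ⟨_, rfl⟩
  obtain ⟨C3, hC3⟩ : ∃ C3 : ℝ, C3 = 5 * m * c2 * (6 * m ^ 2 + 3) := ⟨_, rfl⟩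
  have hK0 : 0 < K := by linarith
  have hc0 : 0 < c2 := by linarith
  have hC10 : 0 ≤ C1 := by rw [hC1]; positivity
  have hC20 : 0 ≤ C2 := by rw [hC2]; positivity
  have hC30 : 0 ≤ C3 := by rw [hC3]; positivity
  obtain ⟨c, hc⟩ : ∃ c : ℝ, c = C2 + C3 + 10 * c2 + 2 := ⟨_, rfl⟩
  have hcC2 : C2 ≤ c := by rw [hc]; linarith
  have hcC3 : C3 ≤ c := by rw [hc]; linarith
  have hc10 : 10 * c2 + 2 ≤ c := by rw [hc]; linarith
  refine ⟨c, by linarith, ?_⟩
  intro ι _ _ u v ℓ a β e Nn B W Ω hm hnum hind hβ hβe he hB hW hWB hΩ haΩ hnear hco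
  by_contra hlt
  rw [not_le] at hlt
  obtain ⟨N, hN1, hNle, hden, hbox⟩ := hL ι m u v ℓ a hm hnum hind
  have hm1 : 1 ≤ m := le_trans (Fintype.card_pos_iff.2 ⟨e⟩) hm
  have hm1' : (1 : ℝ) ≤ m := Nat.one_le_cast.2 hm1
  have hN1' : (1 : ℝ) ≤ N := Nat.one_le_cast.2 hN1
  have hΩ1 : 1 ≤ Ω := (hnum.one e).trans (haΩ e)
  have hB0 : 0 < B := by linarith
  obtain ⟨L, hLd⟩ : ∃ L : ℝ, L = Real.log B := ⟨_, rfl⟩
  have hL1 : 1 ≤ L := by
    rw [hLd, Real.le_log_iff_exp_le hB0]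
    exact Real.exp_one_lt_d9.le.trans (by linarith)
  rw [← hLd] at hW
  have hLW : c * L ≤ W := by
    refine le_trans (mul_le_mul_of_nonneg_left ?_ (by linarith)) hW
    exact le_self_pow₀ hL1 (by omega)
  have hW1 : 1 ≤ W :=
    (one_le_mul_of_one_le_of_one_le (show 1 ≤ c by linarith) hL1).trans hLW
  have h3 : 1 ≤ 3 * m * Ω := one_le_mul_of_one_le_of_one_le (by linarith) hΩ1
  have hNp : (N : ℝ) ≤ (3 * m * Ω) ^ m := by
    refine hNle.trans ((prod_le_prod (g := fun _ => 3 * m * Ω)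
      (fun i _ => by have := hnum.pos i; positivity)
      fun i _ => mul_le_mul_of_nonneg_left (haΩ i) (by positivity)).trans ?_)
    rw [prod_const, card_univ]
    exact pow_le_pow_right₀ h3 hm
  have hl0 : 0 ≤ Real.log N := Real.log_nonneg hN1'
  have hlN : Real.log N ≤ 3 * m ^ 2 * Ω := by
    refine (Real.log_le_log (by linarith) hNp).trans ?_
    rw [Real.log_pow]
    have := Real.log_le_self (show 0 ≤ 3 * m * Ω by linarith)
    calc (m : ℝ) * Real.log (3 * m * Ω) ≤ m * (3 * m * Ω) := by gcongr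
      _ = _ := by ring
  obtain ⟨σ, hσ⟩ : ∃ σ : ℝ, σ = Real.log ((N : ℝ) ^ 2 * B) + 2 := ⟨_, rfl⟩
  have hσe : σ = 2 * Real.log N + L + 2 := by
    rw [hσ, Real.log_mul (by positivity) hB0.ne', Real.log_pow, hLd]; push_cast; ring
  have hσ1 : 1 ≤ σ := by rw [hσe]; linarith
  have hσL : σ ≤ (2 * Real.log N + 3) * L := by
    have := le_mul_of_one_le_right hl0 hL1
    rw [hσe]; linarith
  have hσΩ : σ ≤ (6 * m ^ 2 + 3) * Ω * L := by
    refine hσL.trans (mul_le_mul_of_nonneg_right ?_ (by linarith))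
    linarith
  have hx1 : 1 ≤ m * c2 * σ := one_le_mul_of_one_le_of_one_le
    (one_le_mul_of_one_le_of_one_le hm1' hc1) hσ1
  obtain ⟨S, hS⟩ : ∃ S : ℕ, S = ⌈4 * m * c2 * σ⌉₊ := ⟨_, rfl⟩
  have hS1 : 4 * m * c2 * σ ≤ S := by rw [hS]; exact Nat.le_ceil _
  have hS2 : (S : ℝ) ≤ 5 * m * c2 * σ := by
    have := (Nat.ceil_lt_add_one (show 0 ≤ 4 * m * c2 * σ by positivity)).le
    rw [← hS] at this
    linarith
  have hS0 : (1 : ℝ) ≤ S := by linarith
  obtain ⟨J, hJ⟩ : ∃ J : ℕ, J = ⌈3 * σ⌉₊ := ⟨_, rfl⟩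
  have hJ1 : 3 * σ ≤ J := by rw [hJ]; exact Nat.le_ceil _
  have hJ2 : (J : ℝ) ≤ 4 * σ := by
    have := (Nat.ceil_lt_add_one (show 0 ≤ 3 * σ by positivity)).le
    rw [← hJ] at this
    linarith
  obtain ⟨H, hH⟩ : ∃ H : ℝ, H = W * Ω / S := ⟨_, rfl⟩
  have hSH : S * H = W * Ω := by rw [hH]; field_simp
  have hSg : (S : ℝ) ≤ W * Ω := by
    calc (S : ℝ) ≤ 5 * m * c2 * σ := hS2
      _ ≤ 5 * m * c2 * ((6 * m ^ 2 + 3) * Ω * L) := by gcongr
      _ = C3 * L * Ω := by rw [hC3]; ring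
      _ ≤ c * L * Ω := by gcongr
      _ ≤ W * Ω := by gcongr
  have hH1 : 1 ≤ H := by rw [hH, le_div_iff₀ (by linarith)]; linarith
  have hHg : H ≤ W * Ω := by rw [← hSH]; exact le_mul_of_one_le_left (by linarith) hS0
  have hag : ∀ i, a i ≤ S * H := fun i => by
    rw [hSH]; exact (haΩ i).trans (le_mul_of_one_le_left (by linarith) hW1)
  have hJp : (N : ℝ) * B ^ 2 < 2 ^ J := by
    have h1 : (2 : ℝ) ^ J = Real.exp (J * Real.log 2) := by
      rw [Real.exp_nat_mul, Real.exp_log two_pos]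
    have h2 : (N : ℝ) * B ^ 2 = Real.exp (Real.log N + 2 * L) := by
      rw [Real.exp_add, Real.exp_log (by linarith), hLd,
        show 2 * Real.log B = (2 : ℕ) * Real.log B by norm_num, Real.exp_nat_mul,
        Real.exp_log hB0]
    rw [h1, h2, Real.exp_lt_exp]
    have h4 := Real.log_two_gt_d9
    have h5 : 3 * σ * (2 / 3) ≤ J * Real.log 2 :=
      mul_le_mul hJ1 (by linarith) (by norm_num) (Nat.cast_nonneg _)
    linarith
  have hNH : ∀ y : ℝ, 0 < y → Ω ≤ B * y → N * H < 2 ^ J * y := fun y hy h => by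
    calc N * H ≤ N * (W * Ω) := by gcongr
      _ ≤ N * (B * (B * y)) := by gcongr
      _ = N * B ^ 2 * y := by ring
      _ < 2 ^ J * y := by gcongr
  have hHB : H * (1 + B * N) ≤ (3 * m * B * Ω) ^ (m + 2) := by
    have h1 : 1 + B * N ≤ 2 * (B * N) := by
      have := one_le_mul_of_one_le_of_one_le (show 1 ≤ B by linarith) hN1'
      linarith
    have h2 : (3 * m * Ω) ^ m ≤ (3 * m * B * Ω) ^ m :=
      pow_le_pow_left₀ (by linarith) (mul_le_mul_of_nonneg_right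
        (le_mul_of_one_le_right (by linarith) (by linarith)) (by linarith)) m
    have h4 : 2 * B ^ 2 * Ω ≤ (3 * m * B * Ω) ^ 2 := by
      have h5 : 1 ≤ (m : ℝ) ^ 2 * Ω := one_le_mul_of_one_le_of_one_le (one_le_pow₀ hm1') hΩ1
      have h6 : (3 * m * B * Ω) ^ 2 = 9 * ((m : ℝ) ^ 2 * Ω) * (B ^ 2 * Ω) := by ring
      have h7 : 0 ≤ B ^ 2 * Ω := by positivity
      have h8 := le_mul_of_one_le_left h7 h5
      rw [h6]; linarith
    calc H * (1 + B * N) ≤ (B * Ω) * (2 * (B * N)) := by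
          gcongr
          exact hHg.trans (by gcongr)
      _ = N * (2 * B ^ 2 * Ω) := by ring
      _ ≤ (3 * m * B * Ω) ^ m * (3 * m * B * Ω) ^ 2 := by
          gcongr
          exact hNp.trans h2
      _ = _ := by rw [pow_add]
  obtain ⟨P₀, hP, hcard⟩ := hbox H (by linarith)
  refine hD ι m N u v ℓ a β e Nn S J (fun i => ⌊K * (10 * c2 * (S * H)) / a i⌋₊) H c2 B P₀
    ⟨hm, hnum, hN1, hden, hβ, hβe⟩ hind he hc2.ge hH1 hB hag (by rw [← hσ]; exact hS1) hco
    (fun i hi => ⟨hNH _ (hnum.pos i) (hnear i hi).1, hNH _ (hnum.pos e) (hnear i hi).2.1⟩)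
    (fun i hi => ?_) ?_ hP ?_
  · have hi0 := hnum.pos i
    have h1 : |ℓ i| * (H * (1 + B * N)) ≤ Real.exp (-(a i / K)) :=
      (mul_le_mul_of_nonneg_left hHB (abs_nonneg _)).trans (hnear i hi).2.2
    refine ⟨h1.trans (Real.exp_le_one_iff.2 (neg_nonpos.2 (by positivity))), ?_⟩
    refine (pow_le_pow_left₀ (by positivity) h1 _).trans ?_
    rw [← Real.exp_nat_mul, Real.exp_le_exp]
    have h2 := (Nat.lt_floor_add_one (K * (10 * c2 * (S * H)) / a i)).le
    rw [div_le_iff₀ hi0] at h2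
    push_cast
    rw [mul_neg, neg_le_neg_iff, ← mul_div_assoc, le_div_iff₀ hK0]
    linarith
  · rw [hSH]
    have hg1 : 1 ≤ W * Ω := hS0.trans hSg
    have h1 : (N : ℝ) ≤ Real.exp (W * Ω) := by
      rw [← Real.log_le_iff_le_exp (by linarith)]
      have : σ ≤ m * c2 * σ :=
        le_mul_of_one_le_left (by linarith) (one_le_mul_of_one_le_of_one_le hm1' hc1)
      linarith
    have h2 : H ≤ Real.exp (W * Ω) := by
      have := Real.add_one_le_exp (W * Ω)
      linarith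
    calc N * H * |lin ℓ β| ≤ Real.exp (W * Ω) * Real.exp (W * Ω) * Real.exp (-(c * W * Ω)) := by
          gcongr
      _ ≤ _ := by
          rw [← Real.exp_add, ← Real.exp_add, Real.exp_le_exp]
          have := mul_le_mul_of_nonneg_right hc10 (show 0 ≤ W * Ω by linarith)
          linarith
  · have hZ : 20 * c2 * (J * K + 1) * S ≤ C1 * σ ^ 2 := by
      have h1 : J * K + 1 ≤ (4 * K + 1) * σ := by
        have := mul_le_mul_of_nonneg_right hJ2 hK0.le
        linarith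
      calc 20 * c2 * (J * K + 1) * S ≤ 20 * c2 * ((4 * K + 1) * σ) * (5 * m * c2 * σ) := by gcongr
        _ = _ := by rw [hC1]; ring
    have h1 := Core.count m S J a e Nn c2 K H (C1 * σ ^ 2) Ω hm he hnum.one hc1 hH1 hK hag hZ hΩ
    have hk : Nn.card ≤ m := (card_le_univ _).trans hm
    have hC11 : 1 ≤ C1 := by
      rw [hC1]
      have h2 : 1 ≤ (m : ℝ) * c2 ^ 2 := one_le_mul_of_one_le_of_one_le hm1' (one_le_pow₀ hc1)
      exact one_le_mul_of_one_le_of_one_le (by linarith) (by linarith)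
    have h2 : σ ^ (2 * Nn.card + 2) ≤
        (3 ^ (2 * m + 2) * (2 * m + 2).factorial * 3 * N) * L ^ (2 * Nn.card + 2) := by
      refine (pow_le_pow_left₀ (by linarith) hσL _).trans ?_
      rw [mul_pow]
      refine mul_le_mul_of_nonneg_right ?_ (by positivity)
      exact (pow_le_pow_right₀ (by linarith) (by omega)).trans (Core.pow_le_N (2 * m + 2) N hN1')
    have h4 : 2 * (S * ((C1 * σ ^ 2) ^ Nn.card * (10 * c2) ^ m * Ω / H)) ≤ N := by
      have h5 : Ω / H = S / W := by rw [hH]; field_simp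
      have h6 : 2 * (S * ((C1 * σ ^ 2) ^ Nn.card * (10 * c2) ^ m * Ω / H)) =
          2 * S ^ 2 * (C1 ^ Nn.card * (10 * c2) ^ m) * σ ^ (2 * Nn.card) / W := by
        rw [mul_div_assoc, h5, mul_pow, ← pow_mul]; ring
      rw [h6, div_le_iff₀ (by linarith)]
      calc 2 * S ^ 2 * (C1 ^ Nn.card * (10 * c2) ^ m) * σ ^ (2 * Nn.card)
          ≤ 2 * (5 * m * c2 * σ) ^ 2 * (C1 ^ m * (10 * c2) ^ m) * σ ^ (2 * Nn.card) := by
            gcongr
        _ = 50 * m ^ 2 * c2 ^ 2 * (C1 ^ m * (10 * c2) ^ m) * σ ^ (2 * Nn.card + 2) := by ring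
        _ ≤ 50 * m ^ 2 * c2 ^ 2 * (C1 ^ m * (10 * c2) ^ m) *
            ((3 ^ (2 * m + 2) * (2 * m + 2).factorial * 3 * N) * L ^ (2 * Nn.card + 2)) := by
            gcongr
        _ = N * (C2 * L ^ (2 * Nn.card + 2)) := by rw [hC2]; ring
        _ ≤ N * (c * L ^ (2 * Nn.card + 2)) := by gcongr
        _ ≤ N * W := by gcongr
    have hp : 0 ≤ ∏ i, (H / (2 * a i)) := prod_nonneg fun i _ => by
      have := hnum.pos i; positivity
    rw [← Nat.cast_le (α := ℝ), Nat.cast_mul, Nat.cast_mul, Nat.cast_two]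
    refine le_trans ?_ hcard
    calc _ ≤ 2 * (S * ((C1 * σ ^ 2) ^ Nn.card * (10 * c2) ^ m * Ω / H * ∏ i, (H / (2 * a i)))) := by
          gcongr
      _ = 2 * (S * ((C1 * σ ^ 2) ^ Nn.card * (10 * c2) ^ m * Ω / H)) * ∏ i, (H / (2 * a i)) := by
          ring
      _ ≤ _ := by gcongr

end Pool.Agent.Lib.MP_4ffbf9_nt.MB
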