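import Pool.Agent.Lib.MP_4ffbf9_nt.MB.Defs2
import Pool.Agent.Lib.MP_4ffbf9_nt.MB.Desc

/-! The descent, sharper form. -/

set_option autoImplicit false

namespace Pool.Agent.Lib.MP_4ffbf9_nt.MB

open Finset Polynomial

theorem Desc.dh_le {ι : Type} [DecidableEq ι] {c x H : ℝ} (hc : 0 ≤ c) (h : x ≤ H) (n : ℕ)
    {R : ι → ℕ} (hR : ∀ i, 2 * R i ≤ ⌊4 * c * H⌋₊) (τ : ι → ℕ) (Nn : Finset ι) (e i : ι) :
    Dh c x n R τ Nn e i ≤ 2 * ⌊4 * c * H⌋₊ := by
  have : ⌊4 * c * x⌋₊ ≤ ⌊4 * c * H⌋₊ :=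
    Nat.floor_le_floor (mul_le_mul_of_nonneg_left h (by positivity))
  have := hR i
  rw [Dh]
  split_ifs <;> omega

open Desc in
theorem stDesc2 (hD : StDen) (hS : StStart) (hT : StStep2) (hP : StSep) : StDesc2 := by
  intro ι _ _ m N u v ℓ a β e Nn S J τ H c B P₀ hC hI he hc hH hB ha hs hb hN2 hJ hl hβ hP0 hcard
  classical
  obtain ⟨R, hR⟩ : ∃ R : ι → ℕ, R = fun i => ⌊H / a i⌋₊ := ⟨_, rfl⟩
  rw [← hR] at hcard
  have hm : (1 : ℝ) ≤ m := Nat.one_le_cast.2 hC.m_pos
  have hN : (1 : ℝ) ≤ N := Nat.one_le_cast.2 hC.one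
  have c1 : (m : ℝ) ^ 2 + 16 * m + 7 ≤ c := by
    refine le_trans ?_ hc
    rw [cc]
    push_cast
    have : (0 : ℝ) ≤ 2 ^ 2 ^ m * (10 * m + 6) := by positivity
    linarith
  have c2 : (0 : ℝ) ≤ (m : ℝ) ^ 2 := by positivity
  have c3 : 1 ≤ c := by linarith
  have hL : 0 ≤ Real.log ((N : ℝ) ^ 2 * B) :=
    Real.log_nonneg (one_le_mul_of_one_le_of_one_le (one_le_pow₀ hN) (by linarith))
  have s1 : 8 * m * c ≤ S := le_trans (le_mul_of_one_le_right (by positivity) (by linarith)) hs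
  have s2 : (1 : ℝ) ≤ S := by linarith [one_le_mul_of_one_le_of_one_le hm c3]
  have s3 : 1 ≤ S := Nat.one_le_cast.1 s2
  have g1 : 1 ≤ S * H := one_le_mul_of_one_le_of_one_le s2 hH
  have t1 : ((2 * ⌊4 * c * H⌋₊ : ℕ) : ℝ) ≤ 8 * c * H := by
    have : (⌊4 * c * H⌋₊ : ℝ) ≤ 4 * c * H := Nat.floor_le (by positivity)
    push_cast
    linarith
  have t2 : 2 * H ≤ ⌊4 * c * H⌋₊ := by
    have := Nat.lt_floor_add_one (4 * c * H)
    have := mul_le_mul_of_nonneg_right c3 (by linarith : 0 ≤ H)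
    linarith
  have r1 : ∀ i, 2 * R i ≤ ⌊4 * c * H⌋₊ := fun i => by
    have k1 : (R i : ℝ) ≤ H := by
      rw [hR]
      exact (Nat.floor_le (div_nonneg (by linarith) (hC.num.pos i).le)).trans
        (div_le_self (by linarith) (hC.num.one i))
    exact Nat.cast_le (α := ℝ).1 (by push_cast; linarith)
  have r2 : ∀ i, H < (R i + 1) * a i := fun i => by
    rw [hR]
    exact (div_lt_iff₀ (hC.num.pos i)).1 (Nat.lt_floor_add_one _)
  have Phi : ∀ x : ι → ℚ, (∀ i, |(x i : ℝ)| * a i ≤ H) → ∀ d : ι → ℕ,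
      (∀ i, d i ≤ 2 * ⌊4 * c * H⌋₊) → |∏ i, bin (yy N β e x i) (d i)| ≤ Real.exp (S * H) :=
    fun x hx d hd => phi hC (by linarith) (by push_cast; linarith) t1 (by
      have := mul_le_mul_of_nonneg_right hs (by linarith : 0 ≤ H)
      linarith) hb hx hd
  obtain ⟨P₁, p, p0, p1, p2, p3, p4⟩ := hS ι (ι → ℚ) m N u v ℓ a β e P₀ id S
    (Dh c H J R τ Nn e) H (S * H) hC hP0 s3 g1 ha (by linarith) le_rfl hcard (by
      have k1 : 2 * (S : ℝ) ≤ Real.exp (S * H) := by
        have k2 : (2 : ℝ) ≤ Real.exp 1 := by linarith [Real.add_one_le_exp (1 : ℝ)]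
        have k3 := Real.add_one_le_exp (S * H - 1)
        have k4 : (S : ℝ) ≤ S * H := le_mul_of_one_le_right (by linarith) hH
        rw [show S * H = 1 + (S * H - 1) by ring, Real.exp_add]
        exact mul_le_mul k2 (by linarith) (by linarith) (by linarith)
      have k2 : ∏ i, ((Dh c H J R τ Nn e i : ℝ) + 1) ≤ Real.exp (S * H) := by
        refine (prod_le_prod (g := fun _ => Real.exp (8 * c * H)) (fun i _ => by positivity)
          fun i _ => (Real.add_one_le_exp _).trans (Real.exp_le_exp.2 (le_trans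
            (Nat.cast_le.2 (dh_le (by linarith) le_rfl J r1 τ Nn e i)) t1))).trans ?_
        rw [prod_const, ← Real.exp_nat_mul, card_univ]
        refine Real.exp_le_exp.2 ((mul_le_mul_of_nonneg_right (Nat.cast_le.2 hC.card)
          (by positivity)).trans ?_)
        have := mul_le_mul_of_nonneg_right s1 (by linarith : 0 ≤ H)
        linarith
      push_cast
      rw [← mul_assoc, two_mul (S * H), Real.exp_add]
      exact mul_le_mul k1 k2 (by positivity) (by positivity))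
    fun k hk d hd => Phi k (hP0.box k hk) d fun i =>
      (hd i).trans (dh_le (by linarith) le_rfl J r1 τ Nn e i)
  have key : ∀ j : ℕ, ∃ (P : Finset (ι → ℚ)) (lam : (ι → ℚ) → ι → ℚ), P.Nonempty ∧ P ⊆ P₁ ∧
      Pts ℓ a (H / 2 ^ j) P lam ∧
      VanS ℓ N β e P lam p (2 ^ j * S) (Dh c (H / 2 ^ j) (J - j) R τ Nn e) := fun j => by
    induction j with
    | zero =>
      refine ⟨P₁, id, p1, Subset.rfl, ?_, ?_⟩
      · simpa using hP0.mono p0
      · simpa using p4
    | succ j ih =>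
      obtain ⟨P, lam, ⟨k₀, q1⟩, q2, q3, q4, q5⟩ :
          ∃ (P : Finset (ι → ℚ)) (lam : (ι → ℚ) → ι → ℚ), P.Nonempty ∧ P ⊆ P₁ ∧
          Pts ℓ a (H / 2 ^ j) P lam ∧
          VanS ℓ N β e P lam p (2 ^ j * S) (Dh c (H / 2 ^ j) (J - j) R τ Nn e) ∧
          (J ≤ j → ∀ k ∈ P, ∀ i ∈ Nn, lam k e = 0 ∧ lam k i = 0) := by
        obtain ⟨P, lam, q1, q2, q3, q4⟩ := ih
        by_cases hj : J ≤ j ∧ Nn.Nonempty
        · obtain ⟨P', lam', w1, w2, w3, w4, w5⟩ := hP ι _ m N u v ℓ a β e Nn P lam p _ _ R _ hC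
            q3 q4 q1 (fun k hk => zero hC (q3.mem k hk) hj.1 (q3.box k hk e) (hJ hj.2))
            fun i hi => ⟨lt_of_le_of_lt (by
              have k1 : (N : ℝ) ≤ 2 ^ j := by
                exact_mod_cast hN2.trans (Nat.pow_le_pow_right two_pos hj.1)
              rw [← mul_div_assoc, div_le_iff₀ (by positivity), mul_comm]
              exact mul_le_mul_of_nonneg_left k1 (by linarith)) (r2 i), by
              rw [Dh, if_neg (fun k : i = e => he (k ▸ hi)), if_pos hi]
              exact Nat.le_add_right _ _⟩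
          exact ⟨P', lam', w2, w1.trans q2, w3, w4, fun _ k hk i hi =>
            ⟨(w5 k hk).1, (w5 k hk).2 i hi⟩⟩
        · exact ⟨P, lam, q1, q2, q3, q4, fun h _ _ i hi => (hj ⟨h, i, hi⟩).elim⟩
      obtain ⟨x, hx⟩ : ∃ x, x = H / 2 ^ j := ⟨_, rfl⟩
      have x00 : 0 < x := by rw [hx]; positivity
      have x0 := x00.le
      have x1 : x ≤ H := hx ▸ div_le_self (by linarith) (one_le_pow₀ one_le_two)
      have x2 : ((2 ^ j * S : ℕ) : ℝ) * x = S * H := by
        rw [hx]
        push_cast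
        field_simp
      have x3 : H / 2 ^ (j + 1) = x / 2 := by rw [hx, pow_succ, div_div]
      have x4 : 1 ≤ 2 * m * x := by
        by_contra k
        exact fin hD hC hI ⟨k₀, q1⟩ q3 (fun k hk => p2 k (q2 hk)) q4
          (Nat.mul_pos (by positivity) s3) (by
            rw [← hx]
            linarith [Real.log_two_gt_d9])
      have x5 : 1 ≤ c * x := x4.trans (mul_le_mul_of_nonneg_right (by linarith) x0)
      have x6 : c * x ≤ ⌈c * x⌉₊ := Nat.le_ceil _
      have x7 : (⌈c * x⌉₊ : ℝ) ≤ c * x + 1 := (Nat.ceil_lt_add_one (by linarith)).le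
      have x8 : ⌊4 * c * (x / 2)⌋₊ + ⌈c * x⌉₊ ≤ ⌊4 * c * x⌋₊ := Nat.le_floor (by
        have := Nat.floor_le (show 0 ≤ 4 * c * (x / 2) by linarith)
        push_cast
        linarith)
      have x9 : (0 : ℝ) ≤ (2 ^ j * S : ℕ) := Nat.cast_nonneg _
      have bx : ∀ k ∈ P, ∀ i, |(lam k i : ℝ)| * a i ≤ H := fun k hk i =>
        (q3.box k hk i).trans (hx ▸ x1)
      have hP' : ∀ k, k ∈ P.filter (fun k => InG ℓ fun i => (lam k i - lam k₀ i) / 2) ↔
          k ∈ P ∧ InG ℓ fun i => (lam k i - lam k₀ i) / 2 := fun k => mem_filter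
      rw [x3, pow_succ', mul_assoc]
      rw [← hx] at q3 q4
      refine ⟨_, _, ⟨k₀, (hP' k₀).2 ⟨q1, ?_⟩⟩, (filter_subset _ _).trans q2,
        half q3 q1 hP', hT ι _ m N u v ℓ a β e Nn P lam p _ ⌈c * x⌉₊ _ _
          (if j < J then τ else 0) x (S * H) c hC he q3 q4 g1 ha x00 x2.le hc ?_ ?_ ?_ ?_
          (fun k hk d hd => Phi _ (bx k hk) d fun i => (hd i).trans
            (dh_le (by linarith) (by linarith) _ r1 τ Nn e i)) (fun i => ?_) (fun i h1 h2 => ?_)
          (fun i hi => ?_) (fun k hk i hi => ?_) (fun k hk => ?_) k₀ q1 _ hP'⟩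
      · simp only [sub_self, zero_div]
        exact InG.zero ℓ
      · have := mul_le_mul_of_nonneg_left x6 x9
        rw [← x2]
        linarith
      · have k1 := mul_le_mul_of_nonneg_left x7 x9
        have k2 := mul_le_mul_of_nonneg_left x4 x9
        rw [← x2]
        linarith
      · have k1 := mul_le_mul_of_nonneg_right c1 x0
        have k2 := mul_nonneg c2 x0
        have k3 := mul_nonneg (by linarith : (0 : ℝ) ≤ m) x0
        linarith
      · exact (sum_le_sum_of_subset_of_nonneg q2 fun _ _ _ => abs_nonneg _).trans p3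
      · simp only [Dh]
        split_ifs
        · exact le_rfl
        · exact Nat.add_le_add_left
            (min_le_min (Nat.mul_le_mul_right _ (by omega)) (by omega)) _
        · omega
      · simpa only [Dh, if_neg h1, if_neg h2] using x8
      · have h2 : i ≠ e := fun k => he (k ▸ hi)
        simp only [Dh, if_neg h2, if_pos hi]
        rw [add_assoc]
        refine Nat.add_le_add_left
          (le_min ?_ ((add_le_add (min_le_right _ _) (min_le_right _ _)).trans x8)) _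
        refine (add_le_add (min_le_left _ _) (min_le_left _ _)).trans ?_
        split_ifs with hj
        · rw [show J - j = J - (j + 1) + 1 by omega, add_one_mul]
        · exact Nat.mul_le_mul_right _ (by omega : J - (j + 1) ≤ J - j)
      · split_ifs with hj
        · have k1 : |ℓ i * ((lam k i : ℝ) - β i * lam k e / β e) / x| ≤ |ℓ i| * (1 + B * N) := by
            rw [abs_div, abs_of_pos x00, div_le_iff₀ x00, mul_assoc, mul_comm _ x]
            exact near hC (q3.box k hk) (hb i fun k => he (k ▸ hi))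
          exact ⟨k1.trans (hl i hi).1, (pow_le_pow_left₀ (abs_nonneg _) k1 _).trans (hl i hi).2⟩
        · rw [(q5 (not_lt.1 hj) k hk i hi).1, (q5 (not_lt.1 hj) k hk i hi).2]
          simp [Real.exp_nonneg]
      · refine le_trans ?_ hβ
        rw [abs_div _ x, abs_of_pos x00, div_le_iff₀ x00]
        refine (div_le hC _).trans ?_
        rw [abs_mul, mul_assoc, mul_comm _ x]
        exact mul_le_mul_of_nonneg_left
          (mul_le_mul_of_nonneg_right (abs_le hC (q3.box k hk e)) (abs_nonneg _)) (by linarith)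
  obtain ⟨j, hj⟩ := pow_unbounded_of_one_lt (2 * m * H) (one_lt_two (α := ℝ))
  obtain ⟨P, lam, q1, q2, q3, q4⟩ := key j
  refine fin hD hC hI q1 q3 (fun k hk => p2 k (q2 hk)) q4 (Nat.mul_pos (by positivity) s3) ?_
  rw [← mul_div_assoc, div_lt_iff₀ (by positivity)]
  have := mul_le_mul_of_nonneg_right Real.log_two_gt_d9.le (by positivity : (0 : ℝ) ≤ 2 ^ j)
  have : (0 : ℝ) ≤ 2 ^ j := by positivity
  linarith

end Pool.Agent.Lib.MP_4ffbf9_nt.MB
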