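import Pool.Agent.Lib.MP_4ffbf9_nt.MB.Defs

/-! Extrapolation with divided differences. -/

set_option autoImplicit false

namespace Pool.Agent.Lib.MP_4ffbf9_nt.MB

namespace Interp

open Finset PowerSeries

/-- the series `X / (1 - x X)` -/
noncomputable def B (x : ℝ) : PowerSeries ℝ := X * PowerSeries.mk fun r => x ^ r

theorem geo (x : ℝ) : (PowerSeries.mk fun r => x ^ r : PowerSeries ℝ) * (1 - C x * X) = 1 := by
  ext n
  rw [mul_sub, mul_one, ← mul_assoc, map_sub]
  rcases n with _ | n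
  · simp
  · rw [coeff_succ_mul_X, mul_comm _ (C x), coeff_C_mul]
    simp [pow_succ', coeff_one]

theorem B_sub (x y : ℝ) : B x = B y + C (x - y) * (B x * B y) := by
  rw [B, B, map_sub]
  linear_combination (X * PowerSeries.mk fun r => y ^ r) * geo x - (X * PowerSeries.mk fun r => x ^ r) * geo y

theorem B_pow (x : ℝ) (j : ℕ) :
    B x ^ (j + 1) = X ^ (j + 1) * PowerSeries.mk fun s => x ^ s * ((j + s).choose j : ℝ) := by
  rw [B, mul_pow, ← rescale_mk, ← mk_one_pow_eq_mk_choose_add, map_pow, rescale_mk]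
  simp

theorem hasSum_pow (x w : ℝ) (j : ℕ) :
    HasSum (fun r => coeff (r + 1) (B x ^ (j + 1)) * w ^ r / r.factorial)
      (w ^ j * Real.exp (x * w) / j.factorial) := by
  rw [← hasSum_nat_add_iff' j, sum_eq_zero fun r hr => by
    rw [B_pow, coeff_X_pow_mul', if_neg (by have := mem_range.1 hr; omega), zero_mul, zero_div],
    sub_zero, Real.exp_eq_exp_ℝ, mul_div_right_comm]
  refine ((NormedSpace.expSeries_div_hasSum_exp (x * w)).mul_left (w ^ j / j.factorial)).congr_fun
    fun s => ?_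
  rw [B_pow, add_assoc, coeff_X_pow_mul, coeff_mk, add_comm j s,
    Nat.cast_choose ℝ (Nat.le_add_left j s), Nat.add_sub_cancel]
  field_simp
  ring

/-- domination of the coefficients -/
def Dom (A A' : PowerSeries ℝ) : Prop := ∀ n, |coeff n A| ≤ coeff n A'

theorem Dom.mul {A A' D D' : PowerSeries ℝ} (h : Dom A A') (k : Dom D D') :
    Dom (A * D) (A' * D') := fun n => by
  rw [coeff_mul, coeff_mul]
  refine (abs_sum_le_sum_abs _ _).trans (sum_le_sum fun p _ => ?_)
  rw [abs_mul]
  exact mul_le_mul (h _) (k _) (abs_nonneg _) ((abs_nonneg _).trans (h _))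

theorem dom_B {x R : ℝ} (h : |x| ≤ R) : Dom (B x) (B R) := fun n => by
  rcases n with _ | n
  · simp [B]
  · rw [B, B, coeff_succ_X_mul, coeff_succ_X_mul, coeff_mk, coeff_mk, abs_pow]
    exact pow_le_pow_left₀ (abs_nonneg _) h n

theorem dom_prod {x : ℕ → ℝ} {R : ℝ} (j : ℕ) (h : ∀ i < j, |x i| ≤ R) :
    Dom (∏ i ∈ range j, B (x i)) (B R ^ j) := by
  induction j with
  | zero =>
    intro n
    rw [prod_range_zero, pow_zero, coeff_one]
    split_ifs <;> simp
  | succ j ih =>
    rw [prod_range_succ, pow_succ]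
    exact (ih fun i hi => h i (by omega)).mul (dom_B (h j (by omega)))

/-- the divided difference of the exponential -/
noncomputable def E (A : PowerSeries ℝ) (w : ℝ) : ℝ :=
  ∑' r, coeff (r + 1) A * w ^ r / r.factorial

theorem Dom.term {A A' : PowerSeries ℝ} (h : Dom A A') (w : ℝ) (r : ℕ) :
    ‖coeff (r + 1) A * w ^ r / r.factorial‖ ≤ coeff (r + 1) A' * |w| ^ r / r.factorial := by
  rw [Real.norm_eq_abs, abs_div, abs_mul, abs_pow, Nat.abs_cast]
  exact div_le_div_of_nonneg_right (mul_le_mul_of_nonneg_right (h _) (by positivity))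
    (Nat.cast_nonneg _)

theorem Dom.summable {A : PowerSeries ℝ} {R : ℝ} {j : ℕ} (h : Dom A (B R ^ (j + 1))) (w : ℝ) :
    Summable fun r => coeff (r + 1) A * w ^ r / r.factorial :=
  (hasSum_pow R |w| j).summable.of_norm_bounded (h.term w)

theorem Dom.le {A : PowerSeries ℝ} {R : ℝ} {j : ℕ} (h : Dom A (B R ^ (j + 1))) (w : ℝ) :
    |E A w| ≤ |w| ^ j * Real.exp (R * |w|) / j.factorial :=
  tsum_of_norm_bounded (hasSum_pow R |w| j) (h.term w)

theorem E_rec {A : PowerSeries ℝ} {R x y : ℝ} {j : ℕ} (h : Dom A (B R ^ j)) (hx : |x| ≤ R)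
    (hy : |y| ≤ R) (w : ℝ) : E (A * B x) w = E (A * B y) w + (x - y) * E (A * B y * B x) w := by
  have h1 : Dom (A * B y) (B R ^ (j + 1)) := pow_succ (B R) j ▸ h.mul (dom_B hy)
  have h2 : Dom (A * B y * B x) (B R ^ (j + 1 + 1)) := pow_succ (B R) (j + 1) ▸ h1.mul (dom_B hx)
  have e : A * B x = A * B y + C (x - y) * (A * B y * B x) := by
    linear_combination A * B_sub x y
  rw [E, E, E, ← tsum_mul_left, ← (h1.summable w).tsum_add ((h2.summable w).mul_left _)]
  refine tsum_congr fun r => ?_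
  rw [e, map_add, coeff_C_mul]
  ring

variable {κ : Type} (P : Finset κ) (q w : κ → ℝ)

/-- the divided difference of the exponential sum -/
noncomputable def F (A : PowerSeries ℝ) : ℝ := ∑ k ∈ P, q k * E A (w k)

theorem F_rec {A : PowerSeries ℝ} {R x y : ℝ} {j : ℕ} (h : Dom A (B R ^ j)) (hx : |x| ≤ R)
    (hy : |y| ≤ R) : F P q w (A * B x) = F P q w (A * B y) + (x - y) * F P q w (A * B y * B x) := by
  rw [F, F, F, mul_sum, ← sum_add_distrib]
  refine sum_congr rfl fun k _ => ?_
  rw [E_rec h hx hy]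
  ring

theorem F_pow (x : ℝ) (j : ℕ) : F P q w (B x ^ (j + 1)) =
    (∑ k ∈ P, q k * Real.exp (x * w k) * w k ^ j) / j.factorial := by
  rw [F, sum_div]
  refine sum_congr rfl fun k _ => ?_
  rw [E, (hasSum_pow x (w k) j).tsum_eq]
  ring

/-- the nodes -/
noncomputable def nd (t i : ℕ) : ℝ := 2 * (i / t : ℕ) + 1

theorem nd_mem {S t i : ℕ} (h : i < S * t) : 0 ≤ nd t i ∧ nd t i ≤ 2 * S := by
  have h1 : i / t + 1 ≤ S := Nat.div_lt_of_lt_mul (by rwa [mul_comm])
  have h2 : ((i / t : ℕ) : ℝ) + 1 ≤ S := by exact_mod_cast h1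
  rw [nd]
  exact ⟨by positivity, by linarith⟩

theorem nd_abs {S t i : ℕ} (h : i < S * t) : |nd t i| ≤ 2 * S := by
  rw [abs_of_nonneg (nd_mem h).1]
  exact (nd_mem h).2

theorem window {S t : ℕ} {η : ℝ} (ht : 1 ≤ t) (hη : 0 ≤ η) (h : ∀ j < S, ∀ r < t,
    |∑ k ∈ P, q k * Real.exp ((2 * j + 1) * w k) * w k ^ r| ≤ η * (4 * t) ^ r) (j : ℕ) :
    ∀ a, a + j < S * t →
      |F P q w (∏ i ∈ range (j + 1), B (nd t (a + i)))| ≤ η * (4 * t) ^ j / j.factorial := by
  have eq : ∀ j a, a + j < S * t → (a + j) / t = a / t →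
      |F P q w (∏ i ∈ range (j + 1), B (nd t (a + i)))| ≤ η * (4 * t) ^ j / j.factorial := by
    intro j a ha e
    have h1 : ∀ i ∈ range (j + 1), B (nd t (a + i)) = B (nd t a) := fun i hi => by
      have := mem_range.1 hi
      rw [nd, nd, le_antisymm (e ▸ Nat.div_le_div_right (by omega : a + i ≤ a + j))
        (Nat.div_le_div_right (Nat.le_add_right a i))]
    have h2 : j < t := by
      have k1 := Nat.lt_mul_div_succ (a + j) ht
      have k2 := Nat.mul_div_le a t
      rw [e, mul_add] at k1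
      omega
    rw [prod_congr rfl h1, prod_const, card_range, F_pow, abs_div, Nat.abs_cast]
    exact div_le_div_of_nonneg_right
      (h (a / t) (Nat.div_lt_of_lt_mul (by rw [mul_comm]; omega)) j h2) (Nat.cast_nonneg _)
  induction j with
  | zero => exact fun a ha => eq 0 a ha rfl
  | succ j ih =>
    intro a ha
    rcases (Nat.div_le_div_right (c := t) (Nat.le_add_right a (j + 1))).eq_or_lt with e | e
    · exact eq _ a ha e.symm
    obtain ⟨d, hd⟩ := Nat.exists_eq_add_of_lt e
    have h1 : j + 1 ≤ 2 * (d + 1) * t := by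
      have k1 := Nat.lt_mul_div_succ (a + (j + 1)) ht
      have k2 := Nat.mul_div_le a t
      rw [hd] at k1
      nlinarith
    have h2 : (j : ℝ) + 1 ≤ 2 * (d + 1) * t := by exact_mod_cast h1
    have h3 : nd t (a + (j + 1)) - nd t a = 2 * (d + 1) := by
      rw [nd, nd, hd]
      push_cast
      ring
    have h4 := F_rec P q w (dom_prod (x := fun i => nd t (a + (i + 1))) (R := 2 * S) j
      fun i hi => nd_abs (by omega)) (nd_abs ha) (nd_abs (by omega : a < S * t))
    have h5 := ih a (by omega)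
    have h6 := ih (a + 1) (by omega)
    rw [prod_range_succ'] at h5
    rw [prod_range_succ] at h6
    rw [prod_range_succ, prod_range_succ']
    simp only [add_assoc, add_comm 1, add_zero] at h5 h6 ⊢
    rw [h3] at h4
    have h7 : 2 * (d + 1) * |F P q w ((∏ i ∈ range j, B (nd t (a + (i + 1)))) * B (nd t a) *
        B (nd t (a + (j + 1))))| ≤ 2 * (η * (4 * t) ^ j / j.factorial) := by
      rw [← abs_of_nonneg (show (0 : ℝ) ≤ 2 * (d + 1) by positivity), ← abs_mul,
        ← sub_eq_iff_eq_add'.2 h4]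
      exact (abs_sub _ _).trans (by linarith)
    rw [Nat.factorial_succ, pow_succ]
    push_cast
    rw [mul_comm ((j : ℝ) + 1), ← div_div, le_div_iff₀ (by positivity)]
    have h8 := mul_le_mul_of_nonneg_right h7 (Nat.cast_nonneg (α := ℝ) t)
    have h9 : 0 ≤ η * (4 * t) ^ j / j.factorial * t := by positivity
    calc _ ≤ _ := mul_le_mul_of_nonneg_left h2 (abs_nonneg _)
      _ ≤ 4 * (η * (4 * t) ^ j / j.factorial * t) := by linarith
      _ = _ := by ring

theorem newton {S t : ℕ} {z : ℝ} (h0 : 0 ≤ z) (h1 : z ≤ 2 * S) (n : ℕ) (hn : n ≤ S * t) :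
    |F P q w (B z)| ≤ ∑ j ∈ range n, (2 * S) ^ j * |F P q w (∏ i ∈ range (j + 1), B (nd t i))| +
      (2 * S) ^ n * |F P q w ((∏ i ∈ range n, B (nd t i)) * B z)| := by
  induction n with
  | zero => simp
  | succ n ih =>
    refine (ih (by omega)).trans ?_
    have h2 := nd_mem (show n < S * t by omega)
    rw [sum_range_succ, add_assoc, pow_succ, mul_assoc, ← mul_add, prod_range_succ,
      F_rec P q w (dom_prod (R := 2 * S) n fun i hi => nd_abs (by omega))
        ((abs_of_nonneg h0).trans_le h1) (nd_abs (show n < S * t by omega))]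
    refine add_le_add le_rfl (mul_le_mul_of_nonneg_left ((abs_add_le _ _).trans
      (add_le_add le_rfl ?_)) (by positivity))
    rw [abs_mul]
    exact mul_le_mul_of_nonneg_right (abs_le.2 ⟨by linarith, by linarith⟩) (abs_nonneg _)

theorem rem {y : ℝ} (hy : 0 ≤ y) (n : ℕ) :
    y ^ n * Real.exp y / n.factorial ≤ Real.exp (4 * y - n) := by
  have h1 := Real.pow_div_factorial_le_exp (Real.exp 1 * y) (by positivity) n
  have h2 : Real.exp 1 * y ≤ 3 * y :=
    mul_le_mul_of_nonneg_right (Real.exp_one_lt_d9.le.trans (by norm_num)) hy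
  rw [mul_pow, ← Real.exp_nat_mul, mul_one] at h1
  rw [Real.exp_sub, le_div_iff₀ (Real.exp_pos _)]
  calc _ = Real.exp n * y ^ n / n.factorial * Real.exp y := by ring
    _ ≤ Real.exp (3 * y) * Real.exp y := by
        gcongr
        exact h1.trans (Real.exp_le_exp.2 h2)
    _ = _ := by rw [← Real.exp_add]; congr 1; ring

end Interp

open Finset Polynomial

theorem stInterp : StInterp := by
  intro κ P q w S t ω η z ht hω hη hw h0 h1 h
  have h2 := Interp.newton P q w h0 h1 (S * t) le_rfl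
  have h3 := Interp.F_pow P q w z 0
  simp only [zero_add, pow_one, pow_zero, mul_one, Nat.factorial_zero, Nat.cast_one, div_one] at h3
  rw [h3] at h2
  refine h2.trans (add_le_add ?_ ?_)
  · refine le_trans (sum_le_sum fun j hj => ?_) (le_trans (le_of_eq (mul_sum _ _ _).symm)
      (mul_le_mul_of_nonneg_left (Real.sum_le_exp_of_nonneg (by positivity) (S * t)) hη))
    have h4 := Interp.window P q w ht hη h j 0 (by rw [zero_add]; exact mem_range.1 hj)
    simp only [zero_add] at h4
    refine (mul_le_mul_of_nonneg_left h4 (by positivity)).trans (le_of_eq ?_)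
    rw [show (8 : ℝ) * (S * t) = 2 * S * (4 * t) by ring, mul_pow (2 * (S : ℝ))]
    ring
  · have h4 : Interp.Dom ((∏ i ∈ range (S * t), Interp.B (Interp.nd t i)) * Interp.B z)
        (Interp.B (2 * S) ^ (S * t + 1)) := pow_succ (Interp.B (2 * S)) (S * t) ▸
      (Interp.dom_prod _ fun i hi => Interp.nd_abs hi).mul
        (Interp.dom_B ((abs_of_nonneg h0).trans_le h1))
    rw [Interp.F, sum_mul]
    refine (mul_le_mul_of_nonneg_left (abs_sum_le_sum_abs _ _) (by positivity)).trans ?_
    rw [mul_sum]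
    refine sum_le_sum fun k hk => ?_
    rw [abs_mul, mul_left_comm]
    refine mul_le_mul_of_nonneg_left ?_ (abs_nonneg _)
    have h5 := Interp.rem (y := 2 * S * ω) (by positivity) (S * t)
    have h6 := hw k hk
    calc _ ≤ (2 * S) ^ (S * t) * (ω ^ (S * t) * Real.exp (2 * S * ω) / (S * t).factorial) :=
          mul_le_mul_of_nonneg_left ((h4.le (w k)).trans (by gcongr)) (by positivity)
      _ = (2 * S * ω) ^ (S * t) * Real.exp (2 * S * ω) / (S * t).factorial := by
          rw [mul_pow (2 * (S : ℝ))]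
          ring
      _ ≤ _ := h5.trans (le_of_eq (by push_cast; congr 1; ring))

end Pool.Agent.Lib.MP_4ffbf9_nt.MB
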