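import Pool.Agent.Lib.MP_4ffbf9_nt.MB.All2

/-! The final form: large heights are treated with the inequality of Liouville. -/

set_option autoImplicit false

namespace Pool.Agent.Lib.MP_4ffbf9_nt.MB

open Finset MainAux

theorem liou_pos {ι : Type} [Fintype ι] {u v : ι → ℕ} {ℓ a : ι → ℝ} (hN : Num u v ℓ a)
    (b : ι → ℤ) (h : 0 < ∑ i, (b i : ℝ) * ℓ i) :
    Real.exp (-∑ i, |(b i : ℝ)| * a i) ≤ ∑ i, (b i : ℝ) * ℓ i := by
  obtain ⟨z, hz⟩ := (stDen ι u v ℓ a hN).1 (fun i => ((-b i : ℤ) : ℚ)) (fun i => (b i).natAbs)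
    (hN.inG_int _) fun i => by simp
  have hl : lin ℓ (fun i => ((-b i : ℤ) : ℚ)) = -∑ i, (b i : ℝ) * ℓ i := by simp [lin]
  rw [hl] at hz
  set Λ := ∑ i, (b i : ℝ) * ℓ i
  set D : ℕ := ∏ i, (u i * v i) ^ (b i).natAbs with hD
  have hD' : ∏ i, ((u i : ℝ) * v i) ^ (b i).natAbs = D := by rw [hD]; push_cast; rfl
  have hD0 : (0 : ℝ) < D := by
    exact_mod_cast prod_pos fun i _ => pow_pos (Nat.mul_pos (hN.hu i) (hN.hv i)) _
  have hD1 : (D : ℝ) ≤ Real.exp (∑ i, |(b i : ℝ)| * a i) := by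
    rw [← hD', Real.exp_sum]
    refine prod_le_prod (fun i _ => by positivity) fun i _ => ?_
    have h0 : (0 : ℝ) < (u i : ℝ) * v i :=
      mul_pos (Nat.cast_pos.2 (hN.hu i)) (Nat.cast_pos.2 (hN.hv i))
    rw [← Real.exp_log h0, ← Real.exp_nat_mul, Nat.cast_natAbs, Int.cast_abs]
    exact Real.exp_le_exp.2 (mul_le_mul_of_nonneg_left (hN.ha i) (abs_nonneg _))
  rw [hD'] at hz
  have h1 : (z : ℝ) < D := by
    rw [← hz]
    exact mul_lt_of_lt_one_right hD0 (Real.exp_lt_one_iff.2 (by linarith))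
  have h2 : (z : ℝ) + 1 ≤ D := by exact_mod_cast (show z < (D : ℤ) by exact_mod_cast h1)
  have h3 := Real.add_one_le_exp (-Λ)
  have h4 : 1 ≤ D * Λ := by nlinarith
  rw [Real.exp_neg, inv_le_iff_one_le_mul₀' (Real.exp_pos _)]
  exact h4.trans (mul_le_mul_of_nonneg_right hD1 h.le)

theorem liou {ι : Type} [Fintype ι] {u v : ι → ℕ} {ℓ a : ι → ℝ} (hN : Num u v ℓ a)
    (b : ι → ℤ) (h : ∑ i, (b i : ℝ) * ℓ i ≠ 0) :
    Real.exp (-∑ i, |(b i : ℝ)| * a i) ≤ |∑ i, (b i : ℝ) * ℓ i| := by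
  rcases h.lt_or_gt with h | h
  · have h1 := liou_pos hN (fun i => -b i) (by simpa using h)
    rw [abs_of_neg h]
    simpa using h1
  · exact (liou_pos hN b h).trans (le_abs_self _)

theorem main3 (m : ℕ) : ∃ c : ℝ, 0 < c ∧ ∀ (ι : Type) [Fintype ι] [DecidableEq ι]
    (u v : ι → ℕ) (ℓ a K : ι → ℝ) (b : ι → ℤ) (o : ι) (Nn : Finset ι) (B : ℝ),
    Fintype.card ι ≤ m → Num u v ℓ a → o ∉ Nn → 3 ≤ B → (∀ i, |(b i : ℝ)| ≤ B) →
    (∀ i ∈ Nn, a i ≤ a o ∧ 1 ≤ K i ∧ |ℓ i| ≤ B * Real.exp (-(a i / K i))) →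
    ∑ i, (b i : ℝ) * ℓ i ≠ 0 →
    Real.exp (-(c * ((∏ i ∈ Nnᶜ, a i) * ∏ i ∈ Nn, K i) * Real.log B ^ (2 * Nn.card + 2))) ≤
      |∑ i, (b i : ℝ) * ℓ i| := by
  obtain ⟨c, hc, h⟩ := main2 m
  refine ⟨c + m, by positivity, fun ι _ _ u v ℓ a K b o₁ Nn B hm hN ho₁ hB hb hn hΛ => ?_⟩
  obtain ⟨o, ho, hmax⟩ := exists_max_image Nnᶜ a ⟨o₁, mem_compl.2 ho₁⟩
  have hall : ∀ i, a i ≤ a o := fun i => by
    by_cases hi : i ∈ Nn
    · exact (hn i hi).1.trans (hmax o₁ (mem_compl.2 ho₁))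
    · exact hmax i (mem_compl.2 hi)
  have hP : 0 ≤ (∏ i ∈ Nnᶜ, a i) * ∏ i ∈ Nn, K i :=
    mul_nonneg (prod_nonneg fun i _ => (hN.pos i).le)
      (prod_nonneg fun i hi => by linarith [(hn i hi).2.1])
  have hL : 1 ≤ Real.log B ^ (2 * Nn.card + 2) := one_le_pow₀ (one_le_log hB)
  have hm0 : (0 : ℝ) ≤ m := Nat.cast_nonneg m
  by_cases hc2 : (∏ i ∈ (insert o Nn)ᶜ, a i) * ∏ i ∈ Nn, K i ≤ B
  · refine le_trans (Real.exp_le_exp.2 (neg_le_neg ?_)) (h ι u v ℓ a K b o Nn B hm hN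
      (mem_compl.1 ho) hB hb hc2 (fun i hi => ⟨hall i, (hn i hi).2⟩) hΛ)
    gcongr
    linarith
  · refine le_trans (Real.exp_le_exp.2 (neg_le_neg ?_)) (liou hN b hΛ)
    have h1 : ∑ i, |(b i : ℝ)| * a i ≤ m * (B * a o) := by
      refine (sum_le_card_nsmul _ _ (B * a o) fun i _ =>
        mul_le_mul (hb i) (hall i) (hN.pos i).le (by linarith)).trans ?_
      rw [nsmul_eq_mul, card_univ]
      exact mul_le_mul_of_nonneg_right (Nat.cast_le.2 hm) (mul_nonneg (by linarith) (hN.pos o).le)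
    have h2 : B * a o ≤ (∏ i ∈ Nnᶜ, a i) * ∏ i ∈ Nn, K i := by
      rw [← mul_prod_erase _ _ ho, ← compl_insert, mul_assoc, mul_comm]
      exact mul_le_mul_of_nonneg_left (not_le.1 hc2).le (hN.pos o).le
    calc ∑ i, |(b i : ℝ)| * a i ≤ m * ((∏ i ∈ Nnᶜ, a i) * ∏ i ∈ Nn, K i) * 1 := by
          rw [mul_one]; exact h1.trans (mul_le_mul_of_nonneg_left h2 hm0)
      _ ≤ _ := by gcongr; linarith

end Pool.Agent.Lib.MP_4ffbf9_nt.MB
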